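import Pool.Agent.Lib.MP_1ad228_ntQ.Defs
import Pool.Agent.Lib.MP_1ad228_ntN.Alg
import Pool.Agent.Lib.MP_1ad228_ntN.Vals

/-!
LEAF Compat.  The values of a tensor at `x` and at `y` are related modulo the ideal `Dd x y` of the minors.
PROOF.  `exLam`: `lamLem hx (Dd x y)` (file Alg) gives `lam` with `y i - lam * x i ∈ Dd x y`; by symmetry `lam'` with
`x i - lam' * y i ∈ Dd x y` (the minors `mn y x i j = - mn x y i j`), so `x i (1 - lam lam') ∈ Dd`, and `x` is
unimodular.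
`slCompat`: if `sl ≠ 0` there is `a` with `ev a x = s`, `ev a y = t`; `ev a y ≡ ev a (lam x) = lam ^ d * ev a x`
modulo `Dd x y` (`ev` is a sum of products of coordinates; reduce with `Ideal.Quotient.mk`, `ev_tmap`, `ev_scale` or
`ev_smul'`).
`slPrp`: `Prp x y`: `y i * x o = x i * y o` for all `i`, so `x o ^ d * ev a y = ev a (x o • y) = ev a (y o • x) =
y o ^ d * ev a x`.
-/

namespace Pool.Agent.Lib.MP_1ad228_ntQ

open NumberField Classical
open Pool.Agent.Lib.MP_1ad228_ntN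
open Pool.Agent.Lib.MP_219881_nt (mn)

set_option linter.unusedSectionVars false

variable {K : Type} [Field K] [NumberField K]

theorem exLam {n : ℕ} {x y : Vc n (𝓞 K)} (hx : Uni x) (hy : Uni y) :
    ∃ lam lam' : 𝓞 K, (∀ i, y i - lam * x i ∈ Dd x y) ∧ lam * lam' - 1 ∈ Dd x y := by
  have h0 : ∀ i j, mn x y i j ∈ Dd x y := fun i j => Ideal.subset_span ⟨(i, j), rfl⟩
  obtain ⟨lam, h1⟩ := lamLem hx (Dd x y) h0
  obtain ⟨lam', h2⟩ := lamLem hy (Dd x y) (fun i j => by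
    rw [mn_swap x y]
    exact neg_mem (h0 i j))
  refine ⟨lam, lam', h1, ?_⟩
  obtain ⟨u, hu⟩ := hx
  have h3 : lam * lam' - 1 = -∑ i, (u i * (x i - lam' * y i) + u i * lam' * (y i - lam * x i)) := by
    have h4 : ∑ i, (u i * (x i - lam' * y i) + u i * lam' * (y i - lam * x i)) =
        (1 - lam * lam') * lin u x := by
      rw [Pool.Agent.Lib.MP_219881_nt.lin, Finset.mul_sum]
      exact Finset.sum_congr rfl fun i _ => by ring
    rw [h4, hu]
    ring
  rw [h3]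
  refine neg_mem (Ideal.sum_mem _ fun i _ => add_mem (Ideal.mul_mem_left _ _ (h2 i))
    (Ideal.mul_mem_left _ _ (h1 i)))

theorem evLam {n d : ℕ} {x y : Vc n (𝓞 K)} {lam : 𝓞 K} {I : Ideal (𝓞 K)}
    (h : ∀ i, y i - lam * x i ∈ I) (a : Ten n d (𝓞 K)) : ev a y - lam ^ d * ev a x ∈ I := by
  have h1 : vmap (Ideal.Quotient.mk I) y = fun i => Ideal.Quotient.mk I lam *
      vmap (Ideal.Quotient.mk I) x i := by
    funext i
    have h2 := Ideal.Quotient.eq.2 (h i)
    rw [map_mul] at h2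
    exact h2
  rw [← Ideal.Quotient.eq, map_mul, map_pow, ← ev_tmap, ← ev_tmap, h1, ev_scale]

theorem slCompat {n d A : ℕ} {x y : Vc n (𝓞 K)} {s t lam : 𝓞 K}
    (h : ∀ i, y i - lam * x i ∈ Dd x y) (h0 : sl d A x y s t ≠ 0) :
    t - lam ^ d * s ∈ Dd x y := by
  obtain ⟨a, ha, _⟩ := Finset.exists_ne_zero_of_sum_ne_zero h0
  rw [Finset.mem_filter] at ha
  have h1 := evLam h a
  rwa [ha.2.1, ha.2.2] at h1

theorem slPrp {n d A : ℕ} {x y : Vc n (𝓞 K)} {s t : 𝓞 K} (o : Fin (n + 1)) (hp : Prp x y)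
    (h0 : sl d A x y s t ≠ 0) : t * x o ^ d = s * y o ^ d := by
  obtain ⟨a, ha, _⟩ := Finset.exists_ne_zero_of_sum_ne_zero h0
  rw [Finset.mem_filter] at ha
  have h1 : (fun i => x o * y i) = fun i => y o * x i := by
    funext i
    have h2 := hp o i
    rw [Pool.Agent.Lib.MP_219881_nt.mn] at h2
    linear_combination h2
  have h3 := ev_scale (x o) a y
  have h4 := ev_scale (y o) a x
  rw [h1, h4, ha.2.1, ha.2.2] at h3
  rw [mul_comm t, mul_comm s, h3]

end Pool.Agent.Lib.MP_1ad228_ntQ
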