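import Pool.Agent.Lib.MP_1ad228_ntN.NB_Const
import Pool.Agent.Lib.MP_1ad228_ntN.Slice
import Pool.Agent.Lib.MP_1ad228_ntN.FormsDef

/-!
MP_1ad228_nt, THEOREM DC: Fano double covers `w ^ 2 = f (x_0, .., x_n)` over number fields.
Page: team-store T10_DC_helper82.md.  Everything is built on the library `Lib/MP_1ad228_ntN`.
`d = 2 * m` is the degree of `f`, `Z` the bound for the values of `w`.
-/

namespace Pool.Agent.Lib.MP_1ad228_ntQ

open NumberField Classical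
open Pool.Agent.Lib.MP_1ad228_ntN

/-- Number of ideals containing `I` (the number of divisors of `I`). -/
noncomputable def tau {R : Type*} [CommRing R] (I : Ideal R) : ℕ := Nat.card {J : Ideal R // I ≤ J}

/-- Number of pairs `(x, w)`, `x` unimodular, with `a x = w ^ 2`, over a finite ring. -/
noncomputable def smQ {R : Type*} [CommRing R] {n d : ℕ} (a : Ten n d R) : ℕ :=
  Nat.card {p : Vc n R × R // Uni p.1 ∧ ev a p.1 = p.2 ^ 2}

variable {K : Type} [Field K] [NumberField K]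

/-- Number of pairs modulo the ideal `I`. -/
noncomputable def smQI {n d : ℕ} (I : Ideal (𝓞 K)) (a : Ten n d (𝓞 K)) : ℕ :=
  smQ (tmap (Ideal.Quotient.mk I) a)

variable (K) in
/-- The test pairs `(x, w)`. -/
noncomputable def GP {n : ℕ} (B H q Z : ℕ) (o : Fin (n + 1)) : Finset (Vc n (𝓞 K) × 𝓞 K) :=
  GG K B H q o ×ˢ OBox K Z

/-- Number of test pairs on the double cover. -/
noncomputable def Nd {n d : ℕ} (B H q Z : ℕ) (o : Fin (n + 1)) (a : Ten n d (𝓞 K)) : ℕ :=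
  ((GP K B H q Z o).filter fun p => ev a p.1 = p.2 ^ 2).card

/-- The local condition at the pair `p`. -/
def Locd {n d : ℕ} (W κ A : ℕ) (o : Fin (n + 1)) (a : Ten n d (𝓞 K)) (p : Vc n (𝓞 K) × 𝓞 K) :
    Prop := LV d W κ A o p.1 (ev a p.1 - p.2 ^ 2)

/-- Local prediction. -/
noncomputable def Ld {n d : ℕ} (B H q Z : ℕ) (o : Fin (n + 1)) (W κ A : ℕ) (a : Ten n d (𝓞 K)) :
    ℝ := ∑ p ∈ (GP K B H q Z o).filter (fun p => Locd W κ A o a p),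
      1 / ((MS d W κ A o p.1).card : ℝ)

variable (K) in
/-- The weighted variance. -/
noncomputable def Qd (n d : ℕ) (B H q Z : ℕ) (o : Fin (n + 1)) (W κ A : ℕ) : ℝ :=
  ∑ a ∈ Box K n d (2 * A), psi A a * ((Nd B H q Z o a : ℝ) - Ld B H q Z o W κ A a) ^ 2

/-- Average over the allowed values at the first point. -/
noncomputable def TTd {n : ℕ} (d : ℕ) (o : Fin (n + 1)) (W κ A : ℕ)
    (p p' : Vc n (𝓞 K) × 𝓞 K) : ℝ :=
  (1 / ((MS d W κ A o p.1).card : ℝ)) *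
    ∑ m ∈ MS d W κ A o p.1, sl d A p.1 p'.1 (p.2 ^ 2 + m) (p'.2 ^ 2)

/-- Average over the allowed values at the second point. -/
noncomputable def TSd {n : ℕ} (d : ℕ) (o : Fin (n + 1)) (W κ A : ℕ)
    (p p' : Vc n (𝓞 K) × 𝓞 K) : ℝ :=
  (1 / ((MS d W κ A o p'.1).card : ℝ)) *
    ∑ m' ∈ MS d W κ A o p'.1, sl d A p.1 p'.1 (p.2 ^ 2) (p'.2 ^ 2 + m')

/-- Average over the allowed values at both points. -/
noncomputable def UUd {n : ℕ} (d : ℕ) (o : Fin (n + 1)) (W κ A : ℕ)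
    (p p' : Vc n (𝓞 K) × 𝓞 K) : ℝ :=
  (1 / ((MS d W κ A o p.1).card : ℝ)) * (1 / ((MS d W κ A o p'.1).card : ℝ)) *
    ∑ m ∈ MS d W κ A o p.1, ∑ m' ∈ MS d W κ A o p'.1,
      sl d A p.1 p'.1 (p.2 ^ 2 + m) (p'.2 ^ 2 + m')

/-- Contribution of a pair of test pairs to the variance. -/
noncomputable def EEd {n : ℕ} (d : ℕ) (o : Fin (n + 1)) (W κ A : ℕ)
    (p p' : Vc n (𝓞 K) × 𝓞 K) : ℝ :=
  sl d A p.1 p'.1 (p.2 ^ 2) (p'.2 ^ 2) - TTd d o W κ A p p' - TSd d o W κ A p p'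
    + UUd d o W κ A p p'

/-- Solubility modulo all powers of all prime ideals. -/
def PSolQ {n d : ℕ} (a : Ten n d (𝓞 K)) : Prop :=
  ∀ P : Ideal (𝓞 K), P.IsPrime → P ≠ ⊥ → ∀ j : ℕ, ∃ (x : Vc n (𝓞 K)) (w : 𝓞 K),
    (∃ i, x i ∉ P) ∧ ev a x - w ^ 2 ∈ P ^ j

/-- Point of the double cover in the completion at the infinite place `v`. -/
def RSolQ {n d : ℕ} (v : InfinitePlace K) (a : Ten n d (𝓞 K)) : Prop :=
  ∃ (x : Vc n ℂ) (w : ℂ), (∀ l, x l ∈ KK v) ∧ x ≠ 0 ∧ w ∈ KK v ∧ ev (tmap (em v) a) x = w ^ 2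

/-- Robust solubility of the tensor `α` at the infinite place `v`, with pivot `o`. -/
def RobQ {n d : ℕ} (v : InfinitePlace K) (o : Fin (n + 1)) (ρ : ℝ) (α : Ten n d ℂ) : Prop :=
  ∃ (ξ : Vc n ℂ) (ω : ℂ), (∀ l, ξ l ∈ KK v) ∧ ω ∈ KK v ∧ (∀ l, ‖ξ l‖ ≤ 1 / 2) ∧
    2 * ρ ≤ ‖ξ o‖ ∧ 2 * ρ ≤ ‖ω‖ ∧ ev α ξ = ω ^ 2

/-- The tensor `a / A` at the infinite place `v`. -/
noncomputable def scQ {n d : ℕ} (v : InfinitePlace K) (A : ℕ) (a : Ten n d (𝓞 K)) : Ten n d ℂ :=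
  fun s => em v (a s) / (A : ℂ)

section main
variable (K)

/-- Almost all everywhere locally soluble double covers have a small integral point. -/
def MainQ (n m : ℕ) : Prop :=
  ∀ ε : ℝ, 0 < ε → ∃ M A0 : ℕ, ∀ A : ℕ, A0 ≤ A →
    (((Box K n (2 * m) A).filter fun a => (∀ v, RSolQ v a) ∧ PSolQ a ∧
        ¬ ∃ (x : Vc n (𝓞 K)) (w : 𝓞 K), x ≠ 0 ∧
          (∀ i, ∀ v : InfinitePlace K, (v (x i : K)) ^ (2 * (n + 1 - m)) ≤ (M : ℝ) * (A : ℝ)) ∧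
          ev a x = w ^ 2).card : ℝ) ≤ ε * (A : ℝ) ^ (eK K * (n + 1) ^ (2 * m))

/-- A positive proportion of the double covers has an integral point. -/
def PosQ (n m : ℕ) : Prop :=
  ∃ δ : ℝ, 0 < δ ∧ ∃ A0 : ℕ, ∀ A : ℕ, A0 ≤ A → δ * (A : ℝ) ^ (eK K * (n + 1) ^ (2 * m)) ≤
    (((Box K n (2 * m) A).filter fun a => ∃ (x : Vc n (𝓞 K)) (w : 𝓞 K), x ≠ 0 ∧
      ev a x = w ^ 2).card : ℝ)

end main

end Pool.Agent.Lib.MP_1ad228_ntQ
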