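import Pool.Agent.Lib.MP_1ad228_ntQ.Defs
import Pool.Agent.Lib.MP_1ad228_ntN.FM_Xfer
import Pool.Agent.Lib.MP_1ad228_ntN.RP_Fin

/-!
LEAF Xfer1.  Transfer between forms and tensors for one form: the case of one factor of `xferT`, `fibT`, `nonSm`.
PROOF.  `xfer1`, `fib1`: the proofs of `xferT`, `fibT` in `Lib/MP_1ad228_ntN/FM_Xfer.lean` for a single tensor (`mkT`, `mkT_inj`,
`poly_mkT`, `toTen`, `mkT_mem`, `card_BB`, `fib`), or apply them with `Fin 1`.
`nonSm1`: `nonSm K n (fun _ : Fin 1 => d)` and the bijection `F ↦ F 0` (`VV n d = (n+1)^d`; linear independence of one vector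
means that it is not zero, `linearIndependent_unique_iff`).
`Lo_Up`: `Lo n d + Up n d = (n + 1) ^ d` (`Lo_add_Up`).
-/

namespace Pool.Agent.Lib.MP_1ad228_ntQ

open NumberField Classical
open Pool.Agent.Lib.MP_1ad228_ntN
open Pool.Agent.Lib.MP_219881_nt (mn)

set_option linter.unusedSectionVars false

variable {K : Type} [Field K] [NumberField K]

theorem Lo_Up (n d : ℕ) : Lo n d + Up n d = (n + 1) ^ d :=
  Lo_add_Up n d

theorem xfer1 {n d : ℕ} {A B : ℝ} (hA : 0 ≤ A) (hB : ((n : ℝ) + 1) ^ d * A + A ≤ B)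
    (S : Set (MvPolynomial (Fin (n + 1)) (𝓞 K))) (hS : ∀ f ∈ S, f ∈ Forms K n d A)
    (T : Finset (Ten n d (𝓞 K))) (hT : ∀ a ∈ Box K n d B, poly a ∈ S → a ∈ T) :
    S.ncard * (OBox K A).card ^ Lo n d ≤ T.card := by
  have hSf : S.Finite := (Forms_finite n d hA).subset hS
  rw [Set.ncard_eq_toFinset_card S hSf, ← card_BB, ← Finset.card_product]
  refine Finset.card_le_card_of_injOn (fun x => (mkT (toTen d x.1) x.2 : Ten n d (𝓞 K))) ?_ ?_
  · rintro ⟨f, b⟩ hx
    rw [Finset.mem_coe, Finset.mem_product, Set.Finite.mem_toFinset] at hx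
    obtain ⟨hf, hb⟩ := hx
    have hpT : poly (mkT (toTen d f) b : Ten n d (𝓞 K)) = f := by
      rw [poly_mkT (toTen_supp f), poly_toTen (hS f hf).1]
    refine hT _ (mkT_mem hA hB (toTen_mem hA (hS f hf)) hb) ?_
    show poly (mkT (toTen d f) b : Ten n d (𝓞 K)) ∈ S
    rw [hpT]
    exact hf
  · rintro ⟨f, b⟩ hx ⟨f', b'⟩ hx' he
    rw [Finset.mem_coe, Finset.mem_product, Set.Finite.mem_toFinset] at hx hx'
    obtain ⟨hf, hb⟩ := hx
    obtain ⟨hf', hb'⟩ := hx'
    have h1 : toTen d f = toTen d f' ∧ b = b' :=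
      mkT_inj (toTen_supp f) (toTen_supp f') (fun s => (mem_BB.1 hb s).1)
        (fun s => (mem_BB.1 hb' s).1) he
    have h2 : f = f' := by
      rw [← poly_toTen (hS f hf).1, ← poly_toTen (hS f' hf').1, h1.1]
    rw [h2, h1.2]

theorem fib1 {n d : ℕ} {A : ℝ} (S : Set (MvPolynomial (Fin (n + 1)) (𝓞 K))) (hS : S.Finite)
    (T : Finset (Ten n d (𝓞 K))) (hT : ∀ a ∈ T, a ∈ Box K n d A ∧ poly a ∈ S) :
    T.card ≤ (OBox K A).card ^ Lo n d * S.ncard := by
  rw [Set.ncard_eq_toFinset_card S hS]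
  have himg : T.image (fun a : Ten n d (𝓞 K) => poly a) ⊆ hS.toFinset := by
    intro f hf
    rw [Finset.mem_image] at hf
    obtain ⟨F, hF, rfl⟩ := hf
    rw [Set.Finite.mem_toFinset]
    exact (hT F hF).2
  refine (Finset.card_le_mul_card_image (f := fun a : Ten n d (𝓞 K) => poly a)
    T ((OBox K A).card ^ Lo n d) ?_).trans (Nat.mul_le_mul_left _ (Finset.card_le_card himg))
  intro f _
  refine (Finset.card_le_card ?_).trans (fib A f)
  intro a ha
  rw [Finset.mem_filter] at ha ⊢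
  exact ⟨(hT a ha.1).1, ha.2⟩

theorem nonSm1 (K : Type) [Field K] [NumberField K] (n d : ℕ) (hd : 1 ≤ d) (ε : ℝ) (hε : 0 < ε) :
    ∃ A0 : ℕ, ∀ A : ℕ, A0 ≤ A →
      (((Box K n d A).filter fun a =>
          ¬ ∀ x : Vc n (AlgebraicClosure K), x ≠ 0 →
            ev (tmap (algebraMap (𝓞 K) (AlgebraicClosure K)) a) x = 0 →
            ∃ j, dev (tmap (algebraMap (𝓞 K) (AlgebraicClosure K)) a) x j ≠ 0).card : ℝ) ≤
        ε * (A : ℝ) ^ (eK K * (n + 1) ^ d) := by
  obtain ⟨A0, hA0⟩ := nonSm K n (fun _ : Fin 1 => d) (fun _ => hd) ε hε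
  refine ⟨A0, fun A hA => ?_⟩
  have h := hA0 A hA
  have hV : VV n (fun _ : Fin 1 => d) = (n + 1) ^ d := by
    unfold VV
    rw [Fin.sum_univ_one]
  rw [hV] at h
  refine le_trans ?_ h
  rw [Nat.cast_le]
  refine Finset.card_le_card_of_injOn
    (fun a : Ten n d (𝓞 K) => (fun _ => a : Tup n (fun _ : Fin 1 => d) (𝓞 K))) ?_ ?_
  · intro a ha
    rw [Finset.mem_coe, Finset.mem_filter] at ha ⊢
    refine ⟨?_, fun hx => ha.2 fun x hx0 hx1 => ?_⟩
    · unfold TBox
      rw [Fintype.mem_piFinset]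
      exact fun _ => ha.1
    · have h1 := hx x hx0 (fun _ => hx1)
      have h2 := h1.ne_zero 0
      by_contra hne
      push Not at hne
      exact h2 (funext hne)
  · intro a _ a' _ he
    exact congrFun he 0

end Pool.Agent.Lib.MP_1ad228_ntQ
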