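import Pool.Agent.Lib.MP_1ad228_ntQ.FLoc
import Pool.Agent.Lib.MP_1ad228_ntQ.Xfer1
import Pool.Agent.Lib.MP_1ad228_ntN.FM_Fin

/-!
LEAF FFin.  The final statement from `MainQ` and `PosQ`.  Model: `Lib/MP_1ad228_ntN/FM_Fin.lean` (`formsBad`, `formsGood`, `final1`).
PROOF.  `formsBadQ`: as `formsBad` with `xfer1`, `C = (n+1)^(2m) + 1`, `sol_of_covSol`, `smallPt_iff`, `OBox_low`, `Lo_Up`; the bound
`M * (C A) = (M C) A`.  `formsGoodQ`: as `formsGood` with `fib1`, `nonSm1`, `smoothHyp_iff`, `poly_mem`, `aeval_poly`.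
`finalQ`: a smooth form with an integral point is `CovSol` (`covSol_of_pt`), so the right hand side is at least `δ A^(e Up)`.
`finalPos`: the number of all forms is at most `(OBox K A).card ^ Up ≤ (CK A^e)^Up` (`card_Forms`, `OBox_up`).
-/

namespace Pool.Agent.Lib.MP_1ad228_ntQ

open NumberField Classical
open Pool.Agent.Lib.MP_1ad228_ntN
open Pool.Agent.Lib.MP_219881_nt (mn)

set_option linter.unusedSectionVars false

variable {K : Type} [Field K] [NumberField K]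

theorem formsBadQ (K : Type) [Field K] [NumberField K] (n m : ℕ) (hm : 1 ≤ m) (hM : MainQ K n m)
    (ε : ℝ) (hε : 0 < ε) :
    ∃ M A0 : ℕ, ∀ A : ℕ, A0 ≤ A →
    (({f | f ∈ Forms K n (2 * m) A ∧ CovSol f ∧
        ¬ SmallPt (2 * (n + 1 - m)) ((M : ℝ) * (A : ℝ)) f} :
      Set (MvPolynomial (Fin (n + 1)) (𝓞 K))).ncard : ℝ)
      ≤ ε * (A : ℝ) ^ (eK K * Up n (2 * m)) := by
  obtain ⟨C, hC⟩ : ∃ C : ℕ, C = (n + 1) ^ (2 * m) + 1 := ⟨_, rfl⟩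
  have hC1 : 1 ≤ C := by omega
  have hCR : (1 : ℝ) ≤ C := by exact_mod_cast hC1
  have hcK := CK_pos K n
  have hK : (0 : ℝ) < (C : ℝ) ^ (eK K * (n + 1) ^ (2 * m)) * CK K n ^ Lo n (2 * m) := by positivity
  obtain ⟨M, A1, h⟩ := hM (ε / ((C : ℝ) ^ (eK K * (n + 1) ^ (2 * m)) * CK K n ^ Lo n (2 * m))) (div_pos hε hK)
  refine ⟨M * C, A1 + 1, fun A hA => ?_⟩
  have hA1 : (1 : ℝ) ≤ A := by exact_mod_cast (by omega : 1 ≤ A)
  have hA0 : (0 : ℝ) ≤ A := by linarith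
  have hCA : A1 ≤ C * A := by nlinarith
  have h1 := h (C * A) hCA
  set S : Set (MvPolynomial (Fin (n + 1)) (𝓞 K)) :=
    {f | f ∈ Forms K n (2 * m) A ∧ CovSol f ∧
        ¬ SmallPt (2 * (n + 1 - m)) (((M * C : ℕ) : ℝ) * (A : ℝ)) f} with hS
  set T := (Box K n (2 * m) ((C * A : ℕ) : ℝ)).filter fun a => (∀ v, RSolQ v a) ∧ PSolQ a ∧
        ¬ ∃ (x : Vc n (𝓞 K)) (w : 𝓞 K), x ≠ 0 ∧
          (∀ i, ∀ v : InfinitePlace K, (v (x i : K)) ^ (2 * (n + 1 - m)) ≤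
            (M : ℝ) * ((C * A : ℕ) : ℝ)) ∧
          ev a x = w ^ 2 with hT
  have hMM : ((M * C : ℕ) : ℝ) * (A : ℝ) = (M : ℝ) * ((C * A : ℕ) : ℝ) := by
    push_cast
    ring
  have h2 : S.ncard * (OBox K (A : ℝ)).card ^ Lo n (2 * m) ≤ T.card := by
    refine xfer1 hA0 (B := ((C * A : ℕ) : ℝ)) ?_ S (fun f hf => hf.1) T ?_
    · have h3 : ((n : ℝ) + 1) ^ (2 * m) + 1 = C := by rw [hC]; push_cast; ring
      push_cast
      rw [← h3]
      exact le_of_eq (by ring)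
    · intro a ha hpa
      rw [hT, Finset.mem_filter]
      obtain ⟨hr, hp⟩ := sol_of_covSol hm hpa.2.1
      refine ⟨ha, hr, hp, fun hx => hpa.2.2 ?_⟩
      rw [smallPt_iff, hMM]
      exact hx
  have h3 : (S.ncard : ℝ) * ((OBox K (A : ℝ)).card : ℝ) ^ Lo n (2 * m) ≤ (T.card : ℝ) := by
    exact_mod_cast h2
  have h4 : ((A : ℝ) ^ eK K) ^ Lo n (2 * m) ≤
      CK K n ^ Lo n (2 * m) * ((OBox K (A : ℝ)).card : ℝ) ^ Lo n (2 * m) := by
    rw [← mul_pow]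
    exact pow_le_pow_left₀ (by positivity) (OBox_low K n hA1) _
  have h5 : (S.ncard : ℝ) * ((A : ℝ) ^ eK K) ^ Lo n (2 * m) ≤
      ε * (A : ℝ) ^ (eK K * Up n (2 * m)) * ((A : ℝ) ^ eK K) ^ Lo n (2 * m) := by
    calc (S.ncard : ℝ) * ((A : ℝ) ^ eK K) ^ Lo n (2 * m)
        ≤ (S.ncard : ℝ) * (CK K n ^ Lo n (2 * m) * ((OBox K (A : ℝ)).card : ℝ) ^ Lo n (2 * m)) :=
          mul_le_mul_of_nonneg_left h4 (Nat.cast_nonneg _)
      _ = CK K n ^ Lo n (2 * m) * ((S.ncard : ℝ) * ((OBox K (A : ℝ)).card : ℝ) ^ Lo n (2 * m)) := by ring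
      _ ≤ CK K n ^ Lo n (2 * m) * (T.card : ℝ) := mul_le_mul_of_nonneg_left h3 (by positivity)
      _ ≤ CK K n ^ Lo n (2 * m) * (ε / ((C : ℝ) ^ (eK K * (n + 1) ^ (2 * m)) * CK K n ^ Lo n (2 * m)) *
            ((C * A : ℕ) : ℝ) ^ (eK K * (n + 1) ^ (2 * m))) := mul_le_mul_of_nonneg_left h1 (by positivity)
      _ = ε * (A : ℝ) ^ (eK K * (n + 1) ^ (2 * m)) := by
          push_cast
          rw [mul_pow]
          field_simp
      _ = ε * (A : ℝ) ^ (eK K * Up n (2 * m)) * ((A : ℝ) ^ eK K) ^ Lo n (2 * m) := by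
          rw [← pow_mul, ← Lo_Up, Nat.mul_add, pow_add]
          ring
  have h6 : (0 : ℝ) < ((A : ℝ) ^ eK K) ^ Lo n (2 * m) := by positivity
  exact le_of_mul_le_mul_right h5 h6

theorem formsGoodQ (K : Type) [Field K] [NumberField K] (n m : ℕ) (hm : 1 ≤ m) (hP : PosQ K n m) :
    ∃ δ : ℝ, 0 < δ ∧ ∃ A0 : ℕ, ∀ A : ℕ, A0 ≤ A →
    δ * (A : ℝ) ^ (eK K * Up n (2 * m)) ≤
    (({f | f ∈ Forms K n (2 * m) A ∧ SmoothHyp f ∧
        ∃ (x : Fin (n + 1) → 𝓞 K) (w : 𝓞 K), x ≠ 0 ∧ MvPolynomial.aeval x f = w ^ 2} :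
      Set (MvPolynomial (Fin (n + 1)) (𝓞 K))).ncard : ℝ) := by
  obtain ⟨δ, hδ, A1, h1⟩ := hP
  obtain ⟨A2, h2⟩ := nonSm1 K n (2 * m) (by omega) (δ / 2) (by positivity)
  obtain ⟨N, hN⟩ : ∃ N : ℕ, N = (n + 1) ^ (2 * m) := ⟨_, rfl⟩
  have hN1 : 0 < N := by
    rw [hN]
    positivity
  have hNR : (0 : ℝ) < (N : ℝ) := by exact_mod_cast hN1
  have hcK := CK_pos K n
  refine ⟨δ / 2 / CK K n ^ Lo n (2 * m) / (2 * (N : ℝ)) ^ (eK K * Up n (2 * m)), by positivity,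
    N * (A1 + A2) + N, fun A hA => ?_⟩
  have hAB : A1 + A2 + 1 ≤ A / N := by
    rw [Nat.le_div_iff_mul_le hN1]
    calc (A1 + A2 + 1) * N = N * (A1 + A2) + N := by ring
      _ ≤ A := hA
  have g1 := h1 (A / N) (by omega)
  have g2 := h2 (A / N) (by omega)
  have hNB : N * (A / N) ≤ A := Nat.mul_div_le A N
  have hlt : A < N * (A / N + 1) := Nat.lt_mul_div_succ A hN1
  generalize A / N = B at hAB g1 g2 hNB hlt
  have hB1 : (1 : ℝ) ≤ B := by exact_mod_cast (by omega : 1 ≤ B)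
  have hA0 : (0 : ℝ) ≤ A := Nat.cast_nonneg A
  set S : Set (MvPolynomial (Fin (n + 1)) (𝓞 K)) :=
    {f | f ∈ Forms K n (2 * m) A ∧ SmoothHyp f ∧
        ∃ (x : Fin (n + 1) → 𝓞 K) (w : 𝓞 K), x ≠ 0 ∧ MvPolynomial.aeval x f = w ^ 2} with hS
  have hSf : S.Finite := (Forms_finite n (2 * m) hA0).subset fun f hf => hf.1
  set T1 := (Box K n (2 * m) B).filter fun a => ∃ (x : Vc n (𝓞 K)) (w : 𝓞 K), x ≠ 0 ∧
      ev a x = w ^ 2 with hT1
  set T2 := (Box K n (2 * m) B).filter fun a =>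
          ¬ ∀ x : Vc n (AlgebraicClosure K), x ≠ 0 →
            ev (tmap (algebraMap (𝓞 K) (AlgebraicClosure K)) a) x = 0 →
            ∃ j, dev (tmap (algebraMap (𝓞 K) (AlgebraicClosure K)) a) x j ≠ 0 with hT2
  have h3 : T1.card ≤ (T1 \ T2).card + T2.card := Finset.card_le_card_sdiff_add_card
  have h4 : (T1 \ T2).card ≤ (OBox K (B : ℝ)).card ^ Lo n (2 * m) * S.ncard := by
    refine fib1 S hSf (T1 \ T2) ?_
    intro a ha
    rw [Finset.mem_sdiff, hT1, hT2, Finset.mem_filter, Finset.mem_filter] at ha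
    obtain ⟨⟨haB, x, w, hx, hx1⟩, hns⟩ := ha
    refine ⟨haB, ?_, ?_, x, w, hx, ?_⟩
    · have hm' := poly_mem (by positivity) haB
      refine ⟨hm'.1, fun μ φ => (hm'.2 μ φ).trans ?_⟩
      have h5 : (n + 1) ^ (2 * m) * B ≤ A := by rw [← hN]; exact hNB
      exact_mod_cast h5
    · rw [smoothHyp_iff]
      by_contra hcon
      exact hns ⟨haB, hcon⟩
    · show MvPolynomial.aeval x (poly a) = w ^ 2
      rw [aeval_poly]
      exact hx1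
  have h5 : (T1.card : ℝ) ≤ ((OBox K (B : ℝ)).card : ℝ) ^ Lo n (2 * m) * (S.ncard : ℝ) +
      (T2.card : ℝ) := by
    exact_mod_cast h3.trans (Nat.add_le_add_right h4 _)
  have h5' : ((OBox K (B : ℝ)).card : ℝ) ^ Lo n (2 * m) ≤ (CK K n * (B : ℝ) ^ eK K) ^ Lo n (2 * m) :=
    pow_le_pow_left₀ (Nat.cast_nonneg _) (OBox_up K n hB1) _
  have h6 : δ / 2 * (B : ℝ) ^ (eK K * (n + 1) ^ (2 * m)) ≤
      (CK K n * (B : ℝ) ^ eK K) ^ Lo n (2 * m) * (S.ncard : ℝ) := by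
    have h7 := mul_le_mul_of_nonneg_right h5' (Nat.cast_nonneg (α := ℝ) S.ncard)
    linarith
  have h7 : (A : ℝ) ≤ 2 * (N : ℝ) * (B : ℝ) := by
    have h8 : A ≤ 2 * N * B := by
      have h9 : N * (B + 1) ≤ N * (2 * B) := Nat.mul_le_mul_left N (by omega)
      have h10 : 2 * N * B = N * (2 * B) := by ring
      omega
    exact_mod_cast h8
  have h8 : (A : ℝ) ^ (eK K * Up n (2 * m)) ≤ (2 * (N : ℝ) * (B : ℝ)) ^ (eK K * Up n (2 * m)) :=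
    pow_le_pow_left₀ hA0 h7 _
  have h9 : (0 : ℝ) < (CK K n * (B : ℝ) ^ eK K) ^ Lo n (2 * m) := by positivity
  refine le_of_mul_le_mul_left ?_ h9
  refine le_trans ?_ h6
  calc (CK K n * (B : ℝ) ^ eK K) ^ Lo n (2 * m) *
        (δ / 2 / CK K n ^ Lo n (2 * m) / (2 * (N : ℝ)) ^ (eK K * Up n (2 * m)) *
          (A : ℝ) ^ (eK K * Up n (2 * m)))
      ≤ (CK K n * (B : ℝ) ^ eK K) ^ Lo n (2 * m) *
        (δ / 2 / CK K n ^ Lo n (2 * m) / (2 * (N : ℝ)) ^ (eK K * Up n (2 * m)) *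
          (2 * (N : ℝ) * (B : ℝ)) ^ (eK K * Up n (2 * m))) := by
        refine mul_le_mul_of_nonneg_left (mul_le_mul_of_nonneg_left h8 (by positivity)) h9.le
    _ = δ / 2 * (B : ℝ) ^ (eK K * (n + 1) ^ (2 * m)) := by
        rw [← Lo_Up, Nat.mul_add, pow_add, mul_pow (2 * (N : ℝ)), mul_pow (CK K n),
          ← pow_mul]
        field_simp

theorem finalQ (K : Type) [Field K] [NumberField K] (n m : ℕ) (hm : 1 ≤ m) (hM : MainQ K n m)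
    (hP : PosQ K n m) (ε : ℝ) (hε : 0 < ε) : ∃ M A0 : ℕ, ∀ A : ℕ, A0 ≤ A →
    (({f | f ∈ Forms K n (2 * m) A ∧ CovSol f ∧
        ¬ SmallPt (2 * (n + 1 - m)) ((M : ℝ) * (A : ℝ)) f} :
      Set (MvPolynomial (Fin (n + 1)) (𝓞 K))).ncard : ℝ)
      ≤ ε * (({f | f ∈ Forms K n (2 * m) A ∧ SmoothHyp f ∧ CovSol f} :
        Set (MvPolynomial (Fin (n + 1)) (𝓞 K))).ncard : ℝ) := by
  obtain ⟨δ, hδ, A1, h1⟩ := formsGoodQ K n m hm hP
  obtain ⟨M, A0, h2⟩ := formsBadQ K n m hm hM (ε * δ) (mul_pos hε hδ)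
  refine ⟨M, max A0 A1, fun A hA => ?_⟩
  have hA0 : A0 ≤ A := le_trans (le_max_left _ _) hA
  have hA1 : A1 ≤ A := le_trans (le_max_right _ _) hA
  have h3 := h2 A hA0
  have h4 := h1 A hA1
  refine h3.trans ?_
  rw [mul_assoc]
  refine mul_le_mul_of_nonneg_left (h4.trans ?_) hε.le
  rw [Nat.cast_le]
  refine Set.ncard_le_ncard ?_ ?_
  · rintro f ⟨g1, g3, x, w, hx, e1⟩
    exact ⟨g1, g3, covSol_of_pt hx e1⟩
  · refine Set.Finite.subset (Forms_finite n (2 * m) (Nat.cast_nonneg (α := ℝ) A)) ?_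
    rintro f ⟨g1, -⟩
    exact g1

theorem finalPos (K : Type) [Field K] [NumberField K] (n m : ℕ) (hm : 1 ≤ m) (hP : PosQ K n m) :
    ∃ δ : ℝ, 0 < δ ∧ ∃ A0 : ℕ, ∀ A : ℕ, A0 ≤ A →
    δ * (({f | f ∈ Forms K n (2 * m) A} :
      Set (MvPolynomial (Fin (n + 1)) (𝓞 K))).ncard : ℝ) ≤
    (({f | f ∈ Forms K n (2 * m) A ∧ SmoothHyp f ∧ CovSol f} :
      Set (MvPolynomial (Fin (n + 1)) (𝓞 K))).ncard : ℝ) := by
  obtain ⟨δ, hδ, A1, h1⟩ := formsGoodQ K n m hm hP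
  have hcK := CK_pos K n
  refine ⟨δ / CK K n ^ Up n (2 * m), by positivity, A1 + 1, fun A hA => ?_⟩
  have hA1 : (1 : ℝ) ≤ A := by exact_mod_cast (by omega : 1 ≤ A)
  have h2 : (({f | f ∈ Forms K n (2 * m) A} :
      Set (MvPolynomial (Fin (n + 1)) (𝓞 K))).ncard : ℝ) ≤
      ((OBox K (A : ℝ)).card : ℝ) ^ Up n (2 * m) := by
    exact_mod_cast card_Forms n (2 * m) (Nat.cast_nonneg (α := ℝ) A)
  have h3 : ((OBox K (A : ℝ)).card : ℝ) ^ Up n (2 * m) ≤ (CK K n * (A : ℝ) ^ eK K) ^ Up n (2 * m) :=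
    pow_le_pow_left₀ (Nat.cast_nonneg _) (OBox_up K n hA1) _
  have h4 : δ / CK K n ^ Up n (2 * m) * (({f | f ∈ Forms K n (2 * m) A} :
      Set (MvPolynomial (Fin (n + 1)) (𝓞 K))).ncard : ℝ) ≤ δ * (A : ℝ) ^ (eK K * Up n (2 * m)) := by
    calc δ / CK K n ^ Up n (2 * m) * (({f | f ∈ Forms K n (2 * m) A} :
        Set (MvPolynomial (Fin (n + 1)) (𝓞 K))).ncard : ℝ)
        ≤ δ / CK K n ^ Up n (2 * m) * (CK K n * (A : ℝ) ^ eK K) ^ Up n (2 * m) :=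
          mul_le_mul_of_nonneg_left (h2.trans h3) (by positivity)
      _ = δ * (A : ℝ) ^ (eK K * Up n (2 * m)) := by
          rw [mul_pow, ← pow_mul]
          field_simp
  refine h4.trans ((h1 A (by omega)).trans ?_)
  rw [Nat.cast_le]
  refine Set.ncard_le_ncard ?_ ?_
  · rintro f ⟨g1, g3, x, w, hx, e1⟩
    exact ⟨g1, g3, covSol_of_pt hx e1⟩
  · refine Set.Finite.subset (Forms_finite n (2 * m) (Nat.cast_nonneg (α := ℝ) A)) ?_
    rintro f ⟨g1, -⟩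
    exact g1

end Pool.Agent.Lib.MP_1ad228_ntQ
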