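import Pool.Agent.Lib.MP_1ad228_ntN.FormsDef

/-! Double covers of projective space over number fields: the definitions of the final statement. -/

namespace Pool.Agent.Lib.MP_1ad228_ntQ

open NumberField

variable {K : Type} [Field K] [NumberField K]

/-- The form `f` defines a smooth hypersurface: at every nonzero zero over the algebraic closure some
partial derivative does not vanish. -/
def SmoothHyp {n : ℕ} (f : MvPolynomial (Fin (n + 1)) (𝓞 K)) : Prop :=
  ∀ x : Fin (n + 1) → AlgebraicClosure K, x ≠ 0 → MvPolynomial.aeval x f = 0 →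
    ∃ i, MvPolynomial.aeval x (MvPolynomial.pderiv i f) ≠ 0

/-- The double cover `w ^ 2 = f (x)` of projective space has a point over every completion of `K`: over
the reals for every real embedding, over the complex numbers for every complex embedding, and over
the completion at every prime ideal. -/
def CovSol {n : ℕ} (f : MvPolynomial (Fin (n + 1)) (𝓞 K)) : Prop :=
  (∀ σ : K →+* ℝ, ∃ (x : Fin (n + 1) → ℝ) (w : ℝ), x ≠ 0 ∧
    f.eval₂ (σ.comp (algebraMap (𝓞 K) K)) x = w ^ 2) ∧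
  (∀ σ : K →+* ℂ, ∃ (x : Fin (n + 1) → ℂ) (w : ℂ), x ≠ 0 ∧
    f.eval₂ (σ.comp (algebraMap (𝓞 K) K)) x = w ^ 2) ∧
  ∀ v : IsDedekindDomain.HeightOneSpectrum (𝓞 K), ∃ (x : Fin (n + 1) → v.adicCompletion K)
    (w : v.adicCompletion K), x ≠ 0 ∧ MvPolynomial.aeval x f = w ^ 2

/-- The double cover `w ^ 2 = f (x)` has a point with coordinates in the ring of integers, `x ≠ 0`,
all conjugates `y` of all coordinates of `x` satisfying `|y| ^ e ≤ X`. -/
def SmallPt {n : ℕ} (e : ℕ) (X : ℝ) (f : MvPolynomial (Fin (n + 1)) (𝓞 K)) : Prop :=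
  ∃ (x : Fin (n + 1) → 𝓞 K) (w : 𝓞 K), x ≠ 0 ∧ (∀ i, ∀ φ : K →+* ℂ, ‖φ (x i : K)‖ ^ e ≤ X) ∧
    MvPolynomial.aeval x f = w ^ 2

end Pool.Agent.Lib.MP_1ad228_ntQ
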