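import Pool.Agent.Lib.MP_1ad228_ntQ.Defs
import Pool.Agent.Lib.MP_1ad228_ntQ.QForms
import Pool.Agent.Lib.MP_1ad228_ntN.FM_Loc

/-!
LEAF FLoc.  Local solubility of double covers: forms and tensors.  Model: `Lib/MP_1ad228_ntN/FM_Loc.lean`.
PROOF.  `psolQ_of_adic`: given `x ≠ 0`, `w` over the completion at `v` with `f(x) = w ^ 2`, let `c` be a coordinate `x_i` of largest
valuation; replace `(x, w)` by `(x / c, w / c ^ m)` (degree `2 m`): all coordinates are integral, one is 1, `w^2` is integral, so `w`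
is.  Approximate all coordinates and `w` by elements of `𝓞 K` to precision `j` (`FM_Loc_close` of the model is private: copy it);
the coordinate `i` is then a unit at `v`, and `ev a x' - w'^2` has valuation `≤ exp (-j)`, i.e. lies in `P ^ j`.
Every nonzero prime `P` is a `HeightOneSpectrum`.  `rsolQ`: as in `sol_of_locSol`: for a real place use the real embedding, for a
complex place the complex embedding (`v.embedding`).
`covSol_of_pt`: map the integral point to all completions.  `smallPt_iff`: embeddings versus places as in `smallZero_iff`,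
`aeval_poly`.  `smoothHyp_iff`: `aeval_poly`, `pderiv_poly`.
-/

namespace Pool.Agent.Lib.MP_1ad228_ntQ

open NumberField Classical IsDedekindDomain
open Pool.Agent.Lib.MP_1ad228_ntN
open Pool.Agent.Lib.MP_219881_nt (mn)

set_option linter.unusedSectionVars false

variable {K : Type} [Field K] [NumberField K]

section FLoc_val

private theorem FLoc_prod {S Γ : Type*} [CommRing S] [LinearOrderedCommGroupWithZero Γ]
    (v : Valuation S Γ) {ι : Type*} (U : Finset ι) (x y : ι → S) (hx : ∀ i, v (x i) ≤ 1)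
    (hy : ∀ i, v (y i) ≤ 1) (γ : Γ) (h : ∀ i, v (y i - x i) ≤ γ) :
    v (∏ i ∈ U, y i - ∏ i ∈ U, x i) ≤ γ := by
  induction U using Finset.induction_on with
  | empty =>
    rw [Finset.prod_empty, Finset.prod_empty, sub_self, map_zero]
    exact zero_le
  | insert b U hb ih =>
    rw [Finset.prod_insert hb, Finset.prod_insert hb]
    have h1 : y b * ∏ i ∈ U, y i - x b * ∏ i ∈ U, x i =
        (y b - x b) * ∏ i ∈ U, y i + x b * (∏ i ∈ U, y i - ∏ i ∈ U, x i) := by ring
    rw [h1]
    refine (v.map_add _ _).trans (max_le ?_ ?_)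
    · rw [map_mul, map_prod]
      calc v (y b - x b) * ∏ i ∈ U, v (y i) ≤ γ * 1 :=
            mul_le_mul' (h b) (Finset.prod_le_one' fun i _ => hy i)
        _ = γ := mul_one _
    · rw [map_mul]
      calc v (x b) * v (∏ i ∈ U, y i - ∏ i ∈ U, x i) ≤ 1 * γ := mul_le_mul' (hx b) ih
        _ = γ := one_mul _

private theorem FLoc_sum {S Γ : Type*} [CommRing S] [LinearOrderedCommGroupWithZero Γ]
    (v : Valuation S Γ) {ι : Type*} (U : Finset ι) (f : ι → S) (γ : Γ) (h : ∀ i, v (f i) ≤ γ) :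
    v (∑ i ∈ U, f i) ≤ γ := by
  induction U using Finset.induction_on with
  | empty =>
    rw [Finset.sum_empty, map_zero]
    exact zero_le
  | insert b U hb ih =>
    rw [Finset.sum_insert hb]
    exact (v.map_add _ _).trans (max_le (h b) ih)

private theorem FLoc_ev {S Γ : Type*} [CommRing S] [LinearOrderedCommGroupWithZero Γ]
    (v : Valuation S Γ) {n d : ℕ} (a : Ten n d S) (x y : Vc n S) (ha : ∀ s, v (a s) ≤ 1)
    (hx : ∀ i, v (x i) ≤ 1) (hy : ∀ i, v (y i) ≤ 1) (γ : Γ) (h : ∀ i, v (y i - x i) ≤ γ) :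
    v (ev a y - ev a x) ≤ γ := by
  unfold Pool.Agent.Lib.MP_1ad228_ntF.ev
  rw [← Finset.sum_sub_distrib]
  refine FLoc_sum v _ _ γ fun s => ?_
  rw [← mul_sub, map_mul]
  calc v (a s) * v (∏ k, y (s k) - ∏ k, x (s k)) ≤ 1 * γ :=
        mul_le_mul' (ha s) (FLoc_prod v _ (fun k => x (s k)) (fun k => y (s k)) (fun k => hx _)
          (fun k => hy _) γ fun k => h _)
    _ = γ := one_mul _

end FLoc_val


/-- The integers of the completion are close to elements of the ring of integers. -/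
private theorem FLoc_close (w : HeightOneSpectrum (𝓞 K)) (x : w.adicCompletion K)
    (hx : Valued.v x ≤ 1) (m : ℕ) :
    ∃ a : 𝓞 K, Valued.v (algebraMap (𝓞 K) (w.adicCompletion K) a - x) < WithZero.exp (-(m : ℤ)) := by
  obtain ⟨c, hc⟩ := HeightOneSpectrum.valuedAdicCompletion_surjective K w (WithZero.exp (-(m : ℤ)))
  have hc0 : Valued.v c ≠ 0 := by
    rw [hc]
    exact WithZero.exp_ne_zero
  have hc1 : Valued.v c ≤ 1 := by
    rw [hc, ← WithZero.exp_zero, WithZero.exp_le_exp]
    omega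
  have hU : {y : w.adicCompletion K | Valued.v (y - x) < Valued.v c} ∈ nhds x := by
    rw [Valued.mem_nhds]
    have h' : (Valued.v : Valuation (w.adicCompletion K) _).restrict c ≠ 0 := by
      rw [Ne, Valuation.restrict_eq_zero_iff]
      exact hc0
    refine ⟨Units.mk0 _ h', ?_⟩
    intro y hy
    exact (Valuation.restrict_lt_iff _).mp hy
  obtain ⟨y, hy, k, rfl⟩ := (mem_closure_iff_nhds.mp (w.denseRange_algebraMap K x)) _ hU
  have hy' : Valued.v (algebraMap K (w.adicCompletion K) k - x) < Valued.v c := hy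
  have hk1 : w.valuation K k ≤ 1 := by
    rw [← HeightOneSpectrum.valuedAdicCompletion_eq_valuation' w k]
    have h1 : (algebraMap K (w.adicCompletion K) k) =
        (algebraMap K (w.adicCompletion K) k - x) + x := by ring
    have h2 : Valued.v (algebraMap K (w.adicCompletion K) k) ≤ 1 := by
      rw [h1]
      exact (Valuation.map_add _ _ _).trans (max_le (hy'.le.trans hc1) hx)
    exact h2
  have hγ : (WithZero.exp (-(m : ℤ)) : WithZero (Multiplicative ℤ)) ≠ 0 := WithZero.exp_ne_zero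
  obtain ⟨a, ha⟩ := w.exists_valuation_sub_lt_of_integer (K := K) hk1 (Units.mk0 _ hγ)
  rw [Units.val_mk0] at ha
  refine ⟨a, ?_⟩
  have h1 : algebraMap (𝓞 K) (w.adicCompletion K) a - x =
      algebraMap K (w.adicCompletion K) (algebraMap (𝓞 K) K a - k) +
        (algebraMap K (w.adicCompletion K) k - x) := by
    rw [map_sub, ← IsScalarTower.algebraMap_apply (𝓞 K) K (w.adicCompletion K)]
    ring
  rw [h1]
  refine lt_of_le_of_lt (Valuation.map_add _ _ _) (max_lt ?_ ?_)
  · have h2 := HeightOneSpectrum.valuedAdicCompletion_eq_valuation' w (algebraMap (𝓞 K) K a - k)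
    refine lt_of_eq_of_lt ?_ ha
    exact h2
  · rw [← hc]
    exact hy'

private theorem FLoc_alg (w : HeightOneSpectrum (𝓞 K)) (a : 𝓞 K) :
    Valued.v (algebraMap (𝓞 K) (w.adicCompletion K) a) = w.intValuation a := by
  have h2 := HeightOneSpectrum.valuedAdicCompletion_eq_valuation' w (algebraMap (𝓞 K) K a)
  rw [HeightOneSpectrum.valuation_of_algebraMap] at h2
  exact h2


private theorem FLoc_le {S Γ : Type*} [CommRing S] [LinearOrderedCommGroupWithZero Γ]
    (v : Valuation S Γ) {n d : ℕ} (a : Ten n d S) (x : Vc n S) (ha : ∀ s, v (a s) ≤ 1)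
    (hx : ∀ i, v (x i) ≤ 1) : v (ev a x) ≤ 1 := by
  unfold Pool.Agent.Lib.MP_1ad228_ntF.ev
  refine FLoc_sum v _ _ 1 fun s => ?_
  rw [map_mul, map_prod]
  exact mul_le_one' (ha s) (Finset.prod_le_one' fun i _ => hx _)

private theorem FLoc_psol {n m : ℕ} {a : Ten n (2 * m) (𝓞 K)}
    (h : ∀ v : HeightOneSpectrum (𝓞 K), ∃ (x : Fin (n + 1) → v.adicCompletion K)
      (u : v.adicCompletion K), x ≠ 0 ∧ MvPolynomial.aeval x (poly a) = u ^ 2) : PSolQ a := by
  intro P hP hP0 j
  obtain ⟨w, rfl⟩ : ∃ w : HeightOneSpectrum (𝓞 K), w.asIdeal = P := ⟨⟨P, hP, hP0⟩, rfl⟩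
  obtain ⟨x, u, hx, hxu⟩ := h w
  set f : 𝓞 K →+* w.adicCompletion K := algebraMap (𝓞 K) (w.adicCompletion K) with hf
  have hx1 : ev (tmap f a) x = u ^ 2 := by
    rw [hf, ← aeval_poly]
    exact hxu
  obtain ⟨i0, -, hi0⟩ := Finset.exists_max_image (Finset.univ : Finset (Fin (n + 1)))
    (fun i => Valued.v (x i)) ⟨0, Finset.mem_univ _⟩
  have hne : x i0 ≠ 0 := by
    intro h0
    apply hx
    funext i
    have h1 := hi0 i (Finset.mem_univ i)
    rw [h0, map_zero] at h1
    exact (Valuation.zero_iff _).1 (le_antisymm h1 zero_le)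
  have hv0 : Valued.v (x i0) ≠ 0 := (Valuation.ne_zero_iff _).2 hne
  set z : Fin (n + 1) → w.adicCompletion K := fun i => (x i0)⁻¹ * x i with hz
  have hz1 : ∀ i, Valued.v (z i) ≤ 1 := by
    intro i
    rw [hz]
    simp only
    rw [map_mul, map_inv₀]
    have h1 := hi0 i (Finset.mem_univ i)
    calc (Valued.v (x i0))⁻¹ * Valued.v (x i) ≤ (Valued.v (x i0))⁻¹ * Valued.v (x i0) :=
          mul_le_mul' le_rfl h1
      _ = 1 := inv_mul_cancel₀ hv0
  have hz0 : z i0 = 1 := by
    rw [hz]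
    exact inv_mul_cancel₀ hne
  set t : w.adicCompletion K := ((x i0)⁻¹) ^ m * u with ht
  have hz2 : ev (tmap f a) z = t ^ 2 := by
    rw [hz, Pool.Agent.Lib.MP_1ad228_ntF.ev_scale, hx1, ht]
    ring
  have hfa : ∀ a : 𝓞 K, Valued.v (f a) ≤ 1 := by
    intro a
    rw [hf, FLoc_alg]
    exact w.intValuation_le_one a
  have ht1 : Valued.v t ≤ 1 := by
    have h1 : Valued.v (ev (tmap f a) z) ≤ 1 :=
      FLoc_le Valued.v (tmap f a) z (fun s => hfa _) hz1
    rw [hz2, map_pow] at h1
    exact (pow_le_one_iff two_ne_zero).1 h1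
  choose y hy using fun i => FLoc_close w (z i) (hz1 i) j
  obtain ⟨t', ht'⟩ := FLoc_close w t ht1 j
  have hm1 : (WithZero.exp (-(j : ℤ)) : WithZero (Multiplicative ℤ)) ≤ 1 := by
    rw [← WithZero.exp_zero, WithZero.exp_le_exp]
    omega
  refine ⟨y, t', ⟨i0, fun hmem => ?_⟩, ?_⟩
  · have h1 : Valued.v (f (y i0)) < 1 := by
      rw [hf, FLoc_alg]
      exact (w.intValuation_lt_one_iff_mem _).2 hmem
    have h2 : Valued.v (f (y i0) - 1) < 1 := by
      have h3 := hy i0
      rw [hz0] at h3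
      exact lt_of_lt_of_le h3 hm1
    have h3 : (1 : w.adicCompletion K) = f (y i0) - (f (y i0) - 1) := by ring
    have h4 : Valued.v (1 : w.adicCompletion K) < 1 := by
      rw [h3]
      exact lt_of_le_of_lt (Valuation.map_sub _ _ _) (max_lt h1 h2)
    rw [map_one] at h4
    exact lt_irrefl _ h4
  · have h1 : Valued.v (ev (tmap f a) (fun i => f (y i)) - ev (tmap f a) z) ≤
        WithZero.exp (-(j : ℤ)) :=
      FLoc_ev Valued.v (tmap f a) z (fun i => f (y i)) (fun s => hfa _) hz1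
        (fun i => hfa _) _ fun i => (hy i).le
    have h2 : ev (tmap f a) (fun i => f (y i)) = f (ev a y) :=
      Pool.Agent.Lib.MP_1ad228_ntF.ev_map f a y
    have h3 : f (ev a y - t' ^ 2) =
        (ev (tmap f a) (fun i => f (y i)) - ev (tmap f a) z) - (f t' - t) * (f t' + t) := by
      rw [h2, hz2, map_sub, map_pow]
      ring
    have h4 : Valued.v (f (ev a y - t' ^ 2)) ≤ WithZero.exp (-(j : ℤ)) := by
      rw [h3]
      refine (Valuation.map_sub _ _ _).trans (max_le h1 ?_)
      rw [map_mul]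
      calc Valued.v (f t' - t) * Valued.v (f t' + t) ≤ WithZero.exp (-(j : ℤ)) * 1 :=
            mul_le_mul' ht'.le ((Valuation.map_add _ _ _).trans (max_le (hfa _) ht1))
        _ = WithZero.exp (-(j : ℤ)) := mul_one _
    rw [hf, FLoc_alg] at h4
    exact (w.intValuation_le_pow_iff_mem _ j).1 h4

theorem sol_of_covSol {n m : ℕ} (hm : 1 ≤ m) {a : Ten n (2 * m) (𝓞 K)} (h : CovSol (poly a)) :
    (∀ v, RSolQ v a) ∧ PSolQ a := by
  obtain ⟨hr, hc, hp⟩ := h
  refine ⟨fun v => ?_, FLoc_psol hp⟩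
  by_cases hv : v.IsReal
  · obtain ⟨x, w, hx, hx0⟩ := hr (InfinitePlace.embedding_of_isReal hv)
    refine ⟨fun i => (x i : ℂ), (w : ℂ), fun l _ => Complex.ofReal_im _, fun h0 => hx ?_,
      fun _ => Complex.ofReal_im _, ?_⟩
    · funext i
      exact Complex.ofReal_eq_zero.1 (congrFun h0 i)
    · rw [eval2_poly] at hx0
      have h2 := Pool.Agent.Lib.MP_1ad228_ntF.ev_map Complex.ofRealHom
        (tmap ((InfinitePlace.embedding_of_isReal hv).comp (algebraMap (𝓞 K) K)) a) x
      rw [hx0, map_pow] at h2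
      have h3 : (fun s => Complex.ofRealHom
          (tmap ((InfinitePlace.embedding_of_isReal hv).comp (algebraMap (𝓞 K) K)) a s)) =
          tmap (em v) a := by
        funext s
        exact InfinitePlace.embedding_of_isReal_apply hv _
      rw [h3] at h2
      exact h2
  · obtain ⟨x, w, hx, hx0⟩ := hc v.embedding
    refine ⟨x, w, fun l h0 => absurd h0 hv, hx, fun h0 => absurd h0 hv, ?_⟩
    rw [eval2_poly] at hx0
    exact hx0

theorem covSol_of_pt {n : ℕ} {f : MvPolynomial (Fin (n + 1)) (𝓞 K)} {x : Fin (n + 1) → 𝓞 K}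
    {w : 𝓞 K} (hx : x ≠ 0) (h : MvPolynomial.aeval x f = w ^ 2) : CovSol f := by
  have key : ∀ (R : Type) [CommRing R] (φ : 𝓞 K →+* R), Function.Injective φ →
      ∃ (y : Fin (n + 1) → R) (u : R), y ≠ 0 ∧ f.eval₂ φ y = u ^ 2 := by
    intro R _ φ hφ
    refine ⟨fun i => φ (x i), φ w, fun h0 => hx ?_, ?_⟩
    · funext i
      exact hφ ((congrFun h0 i).trans (map_zero φ).symm)
    · have h1 := congrArg φ h
      rw [MvPolynomial.aeval_def, MvPolynomial.eval₂_comp_left, map_pow] at h1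
      exact h1
  have hinj : Function.Injective (algebraMap (𝓞 K) K) := RingOfIntegers.coe_injective
  refine ⟨fun σ => key ℝ _ (σ.injective.comp hinj), fun σ => key ℂ _ (σ.injective.comp hinj),
    fun v => ?_⟩
  have h1 : Function.Injective (algebraMap (𝓞 K) (v.adicCompletion K)) := by
    rw [IsScalarTower.algebraMap_eq (𝓞 K) K (v.adicCompletion K)]
    exact (algebraMap K (v.adicCompletion K)).injective.comp hinj
  obtain ⟨y, u, hy, hy0⟩ := key (v.adicCompletion K) _ h1
  refine ⟨y, u, hy, ?_⟩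
  rw [MvPolynomial.aeval_def]
  exact hy0

theorem smallPt_iff {n d : ℕ} (e : ℕ) (X : ℝ) (a : Ten n d (𝓞 K)) :
    SmallPt e X (poly a) ↔
      ∃ (x : Vc n (𝓞 K)) (w : 𝓞 K), x ≠ 0 ∧ (∀ i, ∀ v : InfinitePlace K, v (x i : K) ^ e ≤ X) ∧
        ev a x = w ^ 2 := by
  have e' : ∀ x : Vc n (𝓞 K), MvPolynomial.aeval x (poly a) = ev a x :=
    fun x => aeval_poly a x
  have e2 : ∀ z : 𝓞 K, (∀ φ : K →+* ℂ, ‖φ (z : K)‖ ^ e ≤ X) ↔
      ∀ v : InfinitePlace K, v (z : K) ^ e ≤ X := by
    intro z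
    constructor
    · intro h v
      rw [← InfinitePlace.norm_embedding_eq v]
      exact h _
    · intro h φ
      have h1 := h (InfinitePlace.mk φ)
      rwa [InfinitePlace.apply] at h1
  unfold SmallPt
  simp only [e', e2]

theorem smoothHyp_iff {n d : ℕ} (a : Ten n d (𝓞 K)) :
    SmoothHyp (poly a) ↔
      ∀ x : Vc n (AlgebraicClosure K), x ≠ 0 →
        ev (tmap (algebraMap (𝓞 K) (AlgebraicClosure K)) a) x = 0 →
        ∃ j, dev (tmap (algebraMap (𝓞 K) (AlgebraicClosure K)) a) x j ≠ 0 := by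
  unfold SmoothHyp
  simp only [aeval_poly, pderiv_poly]

end Pool.Agent.Lib.MP_1ad228_ntQ
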