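import Pool.Agent.Lib.MP_1ad228_ntQ.Tau
import Pool.Agent.Lib.MP_1ad228_ntN.CN_Cls
import Pool.Agent.Lib.MP_1ad228_ntN.Expand

/-!
LEAF MsCls.  Counting in the set `MS`.
PROOF.  `m = W * t`: `MS ⊇ {W * t : t ∈ OBox K (A * B^d / (q^d * κ * W))}` since `κ v(W t) = κ W v(t) ≤ A (B/q)^d ≤
A v(x o)^d`; `OBox_low K 0` gives `msLow` (`C` larger than `q ^ (d e) * CK`; the hypothesis makes the radius `≥ 1`).
`msCls`: the `m' ∈ MS` with `m' - c ∈ I`: differences lie in `(W) ⊓ I` and have absolute values at most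
`2 A (q' B)^d / κ` with `v (x o) ≤ B`: so at most `CK (1 + (2 A B^d / κ)^e / N((W) ⊓ I))` of them (`upI K 0`).
`N((W) ⊓ I) * N((W) ⊔ I) = N(W) * N(I)` (`Ideal.sup_mul_inf`, Dedekind) and `N(W) = W ^ e` (`absNorm_natCast`), so the
count is at most `CK (1 + 2^e (A B^d/(κ W))^e N((W) ⊔ I) / N(I))`, and `1 ≤ (A B^d/(κ W))^e / N(I) ≤
(A B^d/(κ W))^e N((W) ⊔ I)/N(I)` by hypothesis.  Divide by `msLow`.
-/

namespace Pool.Agent.Lib.MP_1ad228_ntQ

open NumberField Classical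
open Pool.Agent.Lib.MP_1ad228_ntN
open Pool.Agent.Lib.MP_219881_nt (mn)

set_option linter.unusedSectionVars false

variable {K : Type} [Field K] [NumberField K]

private theorem MsCls_v (W : ℕ) (v : InfinitePlace K) : v (((W : ℕ) : 𝓞 K) : K) = (W : ℝ) := by
  have h2 : (((W : ℕ) : 𝓞 K) : K) = (W : K) := map_natCast (algebraMap (𝓞 K) K) W
  rw [h2, v_natCast]

private theorem MsCls_vmul (W : ℕ) (t : 𝓞 K) (v : InfinitePlace K) :
    v (((W : 𝓞 K) * t : 𝓞 K) : K) = (W : ℝ) * v (t : K) := by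
  have h2 : (((W : 𝓞 K) * t : 𝓞 K) : K) = (((W : ℕ) : 𝓞 K) : K) * (t : K) :=
    map_mul (algebraMap (𝓞 K) K) _ _
  rw [h2, v_mul, MsCls_v]

private theorem MsCls_vsub (z w : 𝓞 K) (v : InfinitePlace K) :
    v ((z - w : 𝓞 K) : K) ≤ v (z : K) + v (w : K) := by
  have h2 : ((z - w : 𝓞 K) : K) = (z : K) - (w : K) := map_sub (algebraMap (𝓞 K) K) _ _
  rw [h2]
  exact v_sub_le v _ _

private theorem MsCls_lat (I J : Ideal (𝓞 K)) :
    (Ideal.absNorm (I ⊔ J) : ℝ) * Ideal.absNorm (I ⊓ J) =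
      (Ideal.absNorm I : ℝ) * Ideal.absNorm J := by
  have h := Ideal.sup_mul_inf I J
  have h2 := congrArg Ideal.absNorm h
  rw [map_mul, map_mul] at h2
  exact_mod_cast h2

variable (K) in
theorem msLow (n d q : ℕ) (hq : 1 ≤ q) : ∃ C : ℝ, 1 ≤ C ∧ ∀ (W κ A B : ℕ) (o : Fin (n + 1)),
    1 ≤ W → 1 ≤ κ → 1 ≤ B → C * (κ * W) ≤ (A : ℝ) * (B : ℝ) ^ d →
    ∀ x ∈ VBox K n B, (∀ v : InfinitePlace K, (B : ℝ) ≤ q * v (x o : K)) →
    (((A : ℝ) * (B : ℝ) ^ d) / (κ * W)) ^ eK K ≤ C * ((MS d W κ A o x).card : ℝ) := by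
  have hq1 : (1 : ℝ) ≤ q := by exact_mod_cast hq
  have hqd : (1 : ℝ) ≤ (q : ℝ) ^ d := one_le_pow₀ hq1
  have hCK := CK_one_le K 0
  refine ⟨(q : ℝ) ^ d + ((q : ℝ) ^ d) ^ eK K * CK K 0, ?_, ?_⟩
  · have h1 : 0 ≤ ((q : ℝ) ^ d) ^ eK K * CK K 0 := by positivity
    linarith
  intro W κ A B o hW hκ hB h x hx hxo
  have hW0 : (0 : ℝ) < W := by exact_mod_cast hW
  have hκ0 : (0 : ℝ) < κ := by exact_mod_cast hκ
  have hB0 : (0 : ℝ) < B := by exact_mod_cast hB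
  have hA0 : (0 : ℝ) ≤ A := Nat.cast_nonneg A
  have hqd0 : (0 : ℝ) < (q : ℝ) ^ d := lt_of_lt_of_le one_pos hqd
  obtain ⟨ρ, hρ⟩ : ∃ ρ, ρ = ((A : ℝ) * (B : ℝ) ^ d) / (κ * W) / (q : ℝ) ^ d := ⟨_, rfl⟩
  have hρ1 : 1 ≤ ρ := by
    rw [hρ, le_div_iff₀ hqd0, one_mul, le_div_iff₀ (by positivity)]
    refine le_trans (mul_le_mul_of_nonneg_right ?_ (by positivity)) h
    have h1 : 0 ≤ ((q : ℝ) ^ d) ^ eK K * CK K 0 := by positivity
    linarith
  have hR : ((A : ℝ) * (B : ℝ) ^ d) / (κ * W) = (q : ℝ) ^ d * ρ := by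
    rw [hρ]
    field_simp
  have hκW : (κ : ℝ) * W * ((q : ℝ) ^ d * ρ) = (A : ℝ) * (B : ℝ) ^ d := by
    rw [← hR]
    field_simp
  have hcard : ((OBox K ρ).card : ℝ) ≤ ((MS d W κ A o x).card : ℝ) := by
    have hinj : ∀ a ∈ OBox K ρ, ∀ b ∈ OBox K ρ, (W : 𝓞 K) * a = (W : 𝓞 K) * b → a = b := by
      intro a _ b _ hab
      have hWO : ((W : ℕ) : 𝓞 K) ≠ 0 := Nat.cast_ne_zero.2 (by omega)
      exact mul_left_cancel₀ hWO hab
    have hle : (OBox K ρ).card ≤ (MS d W κ A o x).card := by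
      refine Finset.card_le_card_of_injOn (fun t => (W : 𝓞 K) * t) ?_ ?_
      · intro t ht
        rw [Finset.mem_coe] at ht ⊢
        have ht' := mem_OBox.1 ht
        refine (mem_MS hκ).2 ⟨dvd_mul_right _ _, fun v => ?_⟩
        rw [MsCls_vmul]
        have h1 : (B : ℝ) ^ d ≤ (q : ℝ) ^ d * v (x o : K) ^ d := by
          rw [← mul_pow]
          exact pow_le_pow_left₀ hB0.le (hxo v) d
        have h2 : (κ : ℝ) * (W * v (t : K)) ≤ κ * W * ρ := by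
          rw [← mul_assoc]
          exact mul_le_mul_of_nonneg_left (ht' v) (by positivity)
        refine h2.trans ?_
        have h3 : (q : ℝ) ^ d * (κ * W * ρ) ≤ (q : ℝ) ^ d * (A * v (x o : K) ^ d) := by
          have h4 : (q : ℝ) ^ d * (κ * W * ρ) = (A : ℝ) * (B : ℝ) ^ d := by
            rw [← hκW]; ring
          rw [h4]
          have h5 := mul_le_mul_of_nonneg_left h1 hA0
          linarith [h5, show (A : ℝ) * ((q : ℝ) ^ d * v (x o : K) ^ d) =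
            (q : ℝ) ^ d * (A * v (x o : K) ^ d) by ring]
        exact le_of_mul_le_mul_left h3 hqd0
      · intro a ha b hb hab
        exact hinj a (Finset.mem_coe.1 ha) b (Finset.mem_coe.1 hb) hab
    exact_mod_cast hle
  have h1 := OBox_low K 0 hρ1
  rw [hR, mul_pow]
  have h2 : ((q : ℝ) ^ d) ^ eK K * ρ ^ eK K ≤
      ((q : ℝ) ^ d) ^ eK K * (CK K 0 * ((MS d W κ A o x).card : ℝ)) := by
    refine mul_le_mul_of_nonneg_left (h1.trans ?_) (by positivity)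
    exact mul_le_mul_of_nonneg_left hcard (by linarith)
  refine h2.trans ?_
  have h3 : 0 ≤ (q : ℝ) ^ d * ((MS d W κ A o x).card : ℝ) := mul_nonneg hqd0.le (Nat.cast_nonneg _)
  linarith [h3, show ((q : ℝ) ^ d + ((q : ℝ) ^ d) ^ eK K * CK K 0) * ((MS d W κ A o x).card : ℝ) =
    (q : ℝ) ^ d * ((MS d W κ A o x).card : ℝ) +
      ((q : ℝ) ^ d) ^ eK K * (CK K 0 * ((MS d W κ A o x).card : ℝ)) by ring]

variable (K) in
theorem msCls (n d q : ℕ) (hq : 1 ≤ q) : ∃ C : ℝ, 1 ≤ C ∧ ∀ (W κ A B : ℕ) (o : Fin (n + 1)),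
    1 ≤ W → 1 ≤ κ → 1 ≤ B → C * (κ * W) ≤ (A : ℝ) * (B : ℝ) ^ d →
    ∀ x ∈ VBox K n B, (∀ v : InfinitePlace K, (B : ℝ) ≤ q * v (x o : K)) →
    ∀ (I : Ideal (𝓞 K)) (c : 𝓞 K), I ≠ ⊥ →
    (Ideal.absNorm I : ℝ) ≤ (((A : ℝ) * (B : ℝ) ^ d) / (κ * W)) ^ eK K →
    (((MS d W κ A o x).filter fun m => m - c ∈ I).card : ℝ) ≤
      C * ((Ideal.absNorm (I ⊔ Ideal.span {(W : 𝓞 K)}) : ℝ) / Ideal.absNorm I) *
        ((MS d W κ A o x).card : ℝ) := by
  obtain ⟨C1, hC1, hlow⟩ := msLow K n d q hq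
  have hCK := CK_one_le K 0
  have h2e : (1 : ℝ) ≤ 2 ^ eK K := one_le_pow₀ (by norm_num)
  have hF : (1 : ℝ) ≤ CK K 0 * (1 + 2 ^ eK K) := by
    have := mul_le_mul hCK (show (1 : ℝ) ≤ 1 + 2 ^ eK K by linarith) zero_le_one (by linarith)
    linarith
  refine ⟨CK K 0 * (1 + 2 ^ eK K) * C1, ?_, ?_⟩
  · have := mul_le_mul hF hC1 zero_le_one (by linarith)
    linarith
  intro W κ A B o hW hκ hB h x hx hxo I c hI hN
  have hW0 : (0 : ℝ) < W := by exact_mod_cast hW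
  have hκ0 : (0 : ℝ) < κ := by exact_mod_cast hκ
  have hB0 : (0 : ℝ) < B := by exact_mod_cast hB
  have hκW : (0 : ℝ) < κ * W := mul_pos hκ0 hW0
  have hh : C1 * (κ * W : ℝ) ≤ (A : ℝ) * (B : ℝ) ^ d := by
    refine le_trans (mul_le_mul_of_nonneg_right ?_ hκW.le) h
    have h1 : (1 : ℝ) * C1 ≤ CK K 0 * (1 + 2 ^ eK K) * C1 :=
      mul_le_mul_of_nonneg_right hF (by linarith)
    linarith
  have hABd : (0 : ℝ) < (A : ℝ) * (B : ℝ) ^ d := by
    refine lt_of_lt_of_le ?_ hh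
    exact mul_pos (by linarith) hκW
  have hA0 : (0 : ℝ) < A := by
    rcases Nat.eq_zero_or_pos A with h0 | h0
    · rw [h0] at hABd
      simp at hABd
    · exact_mod_cast h0
  obtain ⟨R, hRd⟩ : ∃ R, R = ((A : ℝ) * (B : ℝ) ^ d) / (κ * W) := ⟨_, rfl⟩
  have hR0 : 0 < R := by rw [hRd]; positivity
  have hl := hlow W κ A B o hW hκ hB hh x hx hxo
  rw [← hRd] at hl hN
  have hWO : ((W : ℕ) : 𝓞 K) ≠ 0 := Nat.cast_ne_zero.2 (by omega)
  have hWI : Ideal.span {((W : ℕ) : 𝓞 K)} ≠ ⊥ := by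
    rw [Ne, Ideal.span_singleton_eq_bot]
    exact hWO
  obtain ⟨J, hJ⟩ : ∃ J, J = I ⊓ Ideal.span {((W : ℕ) : 𝓞 K)} := ⟨_, rfl⟩
  obtain ⟨G, hG⟩ : ∃ G, G = I ⊔ Ideal.span {((W : ℕ) : 𝓞 K)} := ⟨_, rfl⟩
  have hlat : (Ideal.absNorm G : ℝ) * Ideal.absNorm J = (Ideal.absNorm I : ℝ) * (W : ℝ) ^ eK K := by
    rw [hG, hJ, MsCls_lat, absNorm_natCast]
  have hN1 : (1 : ℝ) ≤ Ideal.absNorm I := one_le_absNorm hI
  have hGb : G ≠ ⊥ := by
    intro h0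
    rw [hG] at h0
    exact hI (le_bot_iff.1 (h0 ▸ le_sup_left))
  have hG1 : (1 : ℝ) ≤ Ideal.absNorm G := one_le_absNorm hGb
  have hJb : J ≠ ⊥ := by
    intro h0
    rw [h0] at hlat
    have h1 : (Ideal.absNorm (⊥ : Ideal (𝓞 K)) : ℝ) = 0 := by
      rw [Ideal.absNorm_bot, Nat.cast_zero]
    rw [h1, mul_zero] at hlat
    have h2 : 0 < (Ideal.absNorm I : ℝ) * (W : ℝ) ^ eK K := by positivity
    linarith
  have hJ1 : (1 : ℝ) ≤ Ideal.absNorm J := one_le_absNorm hJb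
  obtain ⟨S, hS⟩ : ∃ S, S = (MS d W κ A o x).filter fun m => m - c ∈ I := ⟨_, rfl⟩
  obtain ⟨ρ, hρ⟩ : ∃ ρ, ρ = 2 * ((A : ℝ) * (B : ℝ) ^ d / κ) := ⟨_, rfl⟩
  have hρ0 : 0 < ρ := by rw [hρ]; positivity
  have hρR : ρ = 2 * R * W := by
    rw [hρ, hRd]
    field_simp
  have hvS : ∀ z ∈ S, ∀ v : InfinitePlace K, v (z : K) ≤ (A : ℝ) * (B : ℝ) ^ d / κ := by
    intro z hz v
    rw [hS] at hz
    have h1 := (mem_MS hκ).1 (Finset.mem_filter.1 hz).1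
    have h2 := h1.2 v
    rw [le_div_iff₀ hκ0, mul_comm]
    refine h2.trans (mul_le_mul_of_nonneg_left ?_ hA0.le)
    exact pow_le_pow_left₀ (v_nonneg v _) (mem_VBox.1 hx o v) d
  have hup := upI 0 S J hJb (fun _ => ρ) (fun _ => hρ0) (by
    intro z hz w hw
    refine ⟨?_, fun v => ?_⟩
    · rw [hJ]
      rw [hS] at hz hw
      have hz1 := Finset.mem_filter.1 hz
      have hw1 := Finset.mem_filter.1 hw
      refine ⟨?_, ?_⟩
      · have h1 := I.sub_mem hz1.2 hw1.2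
        have h2 : z - c - (w - c) = z - w := by ring
        rwa [h2] at h1
      · exact Ideal.mem_span_singleton.2
          (dvd_sub ((mem_MS hκ).1 hz1.1).1 ((mem_MS hκ).1 hw1.1).1)
    · refine (MsCls_vsub z w v).trans ?_
      have h1 := hvS z hz v
      have h2 := hvS w hw v
      rw [hρ]
      linarith)
  rw [pn_const] at hup
  rw [← hS, ← hG]
  have hR2 : ρ ^ eK K / Ideal.absNorm J = (2 ^ eK K) * (R ^ eK K * (Ideal.absNorm G / Ideal.absNorm I)) := by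
    have hWe : (0 : ℝ) < (W : ℝ) ^ eK K := by positivity
    have hJ0 : (0 : ℝ) < Ideal.absNorm J := by linarith
    have hI0 : (0 : ℝ) < Ideal.absNorm I := by linarith
    rw [hρR, mul_pow, mul_pow, div_eq_iff hJ0.ne']
    have e1 : (2 : ℝ) ^ eK K * (R ^ eK K * (Ideal.absNorm G / Ideal.absNorm I)) * Ideal.absNorm J =
        2 ^ eK K * R ^ eK K * ((Ideal.absNorm G * Ideal.absNorm J) / Ideal.absNorm I) := by
      ring
    rw [e1, hlat]
    field_simp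
  have hone : (1 : ℝ) ≤ R ^ eK K * (Ideal.absNorm G / Ideal.absNorm I) := by
    have hI0 : (0 : ℝ) < Ideal.absNorm I := by linarith
    rw [← mul_div_assoc, le_div_iff₀ hI0, one_mul]
    have h1 : R ^ eK K * 1 ≤ R ^ eK K * (Ideal.absNorm G : ℝ) :=
      mul_le_mul_of_nonneg_left hG1 (by positivity)
    linarith
  have hq0 : (0 : ℝ) ≤ (Ideal.absNorm G : ℝ) / Ideal.absNorm I := by positivity
  calc (S.card : ℝ) ≤ CK K 0 * (1 + ρ ^ eK K / Ideal.absNorm J) := hup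
    _ ≤ CK K 0 * ((1 + 2 ^ eK K) * (R ^ eK K * (Ideal.absNorm G / Ideal.absNorm I))) := by
        rw [hR2]
        refine mul_le_mul_of_nonneg_left ?_ (by linarith)
        linarith [show (1 + (2 : ℝ) ^ eK K) * (R ^ eK K * (Ideal.absNorm G / Ideal.absNorm I)) =
          R ^ eK K * (Ideal.absNorm G / Ideal.absNorm I) +
          2 ^ eK K * (R ^ eK K * (Ideal.absNorm G / Ideal.absNorm I)) by ring]
    _ ≤ CK K 0 * ((1 + 2 ^ eK K) * ((C1 * ((MS d W κ A o x).card : ℝ)) *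
          (Ideal.absNorm G / Ideal.absNorm I))) := by
        refine mul_le_mul_of_nonneg_left ?_ (by linarith)
        refine mul_le_mul_of_nonneg_left ?_ (by positivity)
        exact mul_le_mul_of_nonneg_right hl hq0
    _ = _ := by ring

end Pool.Agent.Lib.MP_1ad228_ntQ
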