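import Pool.Agent.Lib.MP_1ad228_ntQ.Defs
import Pool.Agent.Lib.MP_1ad228_ntN.N1
import Pool.Agent.Lib.MP_1ad228_ntN.Span1
import Pool.Agent.Lib.MP_1ad228_ntN.LL
import Pool.Agent.Lib.MP_1ad228_ntN.CN_N1
import Pool.Agent.Lib.MP_1ad228_ntN.Pre

/-!
LEAF N1Sq.  Many tensors take the value `u` at `x`, if `u` is small.
PROOF.  Let `b = (u / x_o^d) e_o^(x d)` over `K` (value `u` at `x`; entries `≤ |u|_v/v(x_o)^d ≤ (A B^d/(4 q^d)) (q/B)^d ≤ A/4`).  `val1`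
(file Vals; `x` unimodular) gives an integral `a` with `ev a x = u`; `LL1` gives `a0` with `ev a0 x = u` and entries at most
`A/4 + d n (n+1)^d CK H ≤ A/2` (`C H ≤ A`).  `b ↦ b + a0` injects `{b ∈ Box (A/2) : ev b x = 0}` into
`{a ∈ Box A : ev a x = u}`, and `n1low` (file CN_N1; use it for the natural number `A/2` rounded down, or `CN_N1_fib`)
bounds the first set from below.
-/

namespace Pool.Agent.Lib.MP_1ad228_ntQ

open NumberField Classical
open Pool.Agent.Lib.MP_1ad228_ntN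
open Pool.Agent.Lib.MP_219881_nt (mn)

set_option linter.unusedSectionVars false

variable {K : Type} [Field K] [NumberField K]

variable (K) in
theorem n1Sq (n d q : ℕ) (hq : 1 ≤ q) : ∃ C : ℝ, 1 ≤ C ∧
    ∀ (B H A : ℕ) (o : Fin (n + 1)), 1 ≤ B → 1 ≤ H → C * H ≤ A → ∀ x ∈ GG K B H q o,
    ∀ u : 𝓞 K, (∀ v : InfinitePlace K, 4 * (q : ℝ) ^ d * v (u : K) ≤ (A : ℝ) * (B : ℝ) ^ d) →
    (A : ℝ) ^ (eK K * (n + 1) ^ d) ≤ C * ((A : ℝ) * (B : ℝ) ^ d) ^ eK K *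
      (((Box K n d A).filter fun a => ev a x = u).card : ℝ) := by
  obtain ⟨C1, hC1, hlow⟩ := n1low K n d
  have hCK : (1 : ℝ) ≤ CK K n := CK_one_le K n
  have hq' : (1 : ℝ) ≤ q := by exact_mod_cast hq
  obtain ⟨c1, hc1⟩ : ∃ c1 : ℝ, c1 = (d * n * (n + 1) ^ d : ℝ) * CK K n := ⟨_, rfl⟩
  have hc10 : 0 ≤ c1 := by
    rw [hc1]
    positivity
  obtain ⟨M, hM⟩ : ∃ M : ℕ, M = eK K * (n + 1) ^ d := ⟨_, rfl⟩
  have h4M : (0 : ℝ) ≤ 4 ^ M * C1 := by positivity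
  refine ⟨4 + 4 * c1 + 4 ^ M * C1, by linarith, ?_⟩
  intro B H A o hB hH hA x hx u hu
  have hB0 : (0 : ℝ) < B := by exact_mod_cast hB
  have hH1 : (1 : ℝ) ≤ H := by exact_mod_cast hH
  have hcH : 4 * (c1 * H) ≤ A := by
    refine le_trans ?_ hA
    have h1 : 0 ≤ (4 + 4 ^ M * C1) * (H : ℝ) := by positivity
    nlinarith
  have hA4 : (4 : ℝ) ≤ A := by
    refine le_trans ?_ hA
    have h1 : 0 ≤ 4 * c1 + 4 ^ M * C1 := by positivity
    nlinarith
  have hA4' : 4 ≤ A := by exact_mod_cast hA4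
  obtain ⟨A', hA'⟩ : ∃ A' : ℕ, A' = A / 2 := ⟨_, rfl⟩
  have hA1 : 1 ≤ A' := by omega
  have hA2 : 2 * A' ≤ A := by omega
  have hA3 : A ≤ 4 * A' := by omega
  have hA2R : 2 * (A' : ℝ) ≤ A := by exact_mod_cast hA2
  have hA3R : (A : ℝ) ≤ 4 * A' := by exact_mod_cast hA3
  obtain ⟨a, ha⟩ := val1 d x (GG_uni hx) u
  obtain ⟨a0, ha1, ha2⟩ := pre1 B H q o hB x hx a
  have ha0 : ∀ s, ∀ v : InfinitePlace K, v (a0 s : K) ≤ (A : ℝ) / 2 := by
    intro s v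
    have h2 := ha2 s v
    rw [ha] at h2
    have h3 : v (u : K) * ((q : ℝ) ^ d / (B : ℝ) ^ d) ≤ (A : ℝ) / 4 := by
      have h4 := hu v
      have h5 : (0 : ℝ) < (B : ℝ) ^ d := by positivity
      rw [← mul_div_assoc, div_le_iff₀ h5]
      nlinarith
    have h4 : (d * n * (n + 1) ^ d : ℝ) * (CK K n * H) = c1 * H := by
      rw [hc1]
      ring
    rw [h4] at h2
    linarith
  have hcard : n1 d x A' ≤ ((Box K n d A).filter fun a => ev a x = u).card := by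
    rw [n1]
    refine Finset.card_le_card_of_injOn (fun b => b + a0) ?_ ?_
    · intro b hb
      rw [Finset.mem_coe, Finset.mem_filter, mem_Box] at hb
      rw [Finset.mem_coe, Finset.mem_filter, mem_Box]
      refine ⟨?_, ?_⟩
      · intro s v
        have h1 := hb.1 s v
        have h2 := ha0 s v
        have h3 : (((b + a0) s : 𝓞 K) : K) = (b s : K) + (a0 s : K) := by simp
        rw [h3]
        refine (v_add_le v _ _).trans ?_
        linarith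
      · show ev (b + a0) x = u
        rw [ev_add, hb.2, ha1, ha, zero_add]
    · intro b _ b' _ hbb
      exact add_left_injective a0 hbb
  have hV : x ∈ VBox K n B := mem_VBox.2 (GG_le hx)
  have h1 := hlow A' B hA1 hB x hV
  rw [← hM] at h1 ⊢
  have hn : (n1 d x A' : ℝ) ≤ (((Box K n d A).filter fun a => ev a x = u).card : ℝ) := by
    exact_mod_cast hcard
  have hpow : ((A' : ℝ) * (B : ℝ) ^ d) ^ eK K ≤ ((A : ℝ) * (B : ℝ) ^ d) ^ eK K := by
    gcongr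
    linarith
  calc (A : ℝ) ^ M ≤ (4 * (A' : ℝ)) ^ M := pow_le_pow_left₀ (by linarith) hA3R _
    _ = 4 ^ M * (A' : ℝ) ^ M := by rw [mul_pow]
    _ ≤ 4 ^ M * (C1 * ((A' : ℝ) * (B : ℝ) ^ d) ^ eK K * (n1 d x A' : ℝ)) := by gcongr
    _ ≤ 4 ^ M * (C1 * ((A : ℝ) * (B : ℝ) ^ d) ^ eK K *
        (((Box K n d A).filter fun a => ev a x = u).card : ℝ)) := by gcongr
    _ = 4 ^ M * C1 * ((A : ℝ) * (B : ℝ) ^ d) ^ eK K *
        (((Box K n d A).filter fun a => ev a x = u).card : ℝ) := by ring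
    _ ≤ (4 + 4 * c1 + 4 ^ M * C1) * ((A : ℝ) * (B : ℝ) ^ d) ^ eK K *
        (((Box K n d A).filter fun a => ev a x = u).card : ℝ) := by
      gcongr
      linarith

end Pool.Agent.Lib.MP_1ad228_ntQ
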