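import Pool.Agent.Lib.MP_1ad228_ntQ.Defs
import Pool.Agent.Lib.MP_1ad228_ntN.LD_Cnt

/-! Part P: the condition `IdT` on a finite ring (sum over the proper ideals with the number of divisors). -/

namespace Pool.Agent.Lib.MP_1ad228_ntQ

open NumberField Classical
open Pool.Agent.Lib.MP_1ad228_ntN

/-- The sum of `tau J / (card (R/J)) ^ 2` over any finite set of proper ideals is at most `δ`. -/
def IdT (R : Type*) [CommRing R] (δ : ℝ) : Prop :=
  ∀ T : Finset (Ideal R), ⊤ ∉ T → ∑ J ∈ T, (tau J : ℝ) * (1 / (Nat.card (R ⧸ J) : ℝ)) ^ 2 ≤ δ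

theorem one_le_tauR {R : Type*} [CommRing R] [Finite R] (J : Ideal R) : 1 ≤ tau J := by
  have hf : Finite (Ideal R) :=
    Finite.of_injective (fun I : Ideal R => (I : Set R)) SetLike.coe_injective
  have : Nonempty {I : Ideal R // J ≤ I} := ⟨⟨J, le_rfl⟩⟩
  exact Nat.card_pos

theorem IdT.idS {R : Type*} [CommRing R] [Finite R] {δ : ℝ} (h : IdT R δ) : IdS R δ := by
  intro T hT
  refine le_trans (Finset.sum_le_sum fun J _ => ?_) (h T hT)
  have h1 : (1 : ℝ) ≤ (tau J : ℝ) := by exact_mod_cast one_le_tauR J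
  have h2 : (0 : ℝ) ≤ (1 / (Nat.card (R ⧸ J) : ℝ)) ^ 2 := by positivity
  nlinarith

theorem tau_top (R : Type*) [CommRing R] : tau (⊤ : Ideal R) = 1 := by
  unfold tau
  have : Unique {J : Ideal R // ⊤ ≤ J} :=
    ⟨⟨⟨⊤, le_rfl⟩⟩, fun J => Subtype.ext (top_le_iff.1 J.2)⟩
  exact Nat.card_unique

end Pool.Agent.Lib.MP_1ad228_ntQ
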