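import Pool.Agent.Lib.MP_1ad228_ntQ.Defs

/-!
LEAF RingSq.  Number of solutions of `z ^ 2 = c ^ 2 u ^ 2` in a finite commutative ring.
PROOF.  The map `(u, z) ↦ (a, b) = (z - c u, z + c u)` goes into `{(a, b) // a * b = 0}`; two pairs `(u, z)`,
`(u', z')` in one fibre satisfy `z - z' = c (u - u') = - c (u - u')`, so `2 (u - u') = 0` (c is a unit) and
`z - z' = c (u - u')`: each fibre has at most `card {t // 2 * t = 0}` elements.
`card {(a, b) // a * b = 0} = ∑_a card (Ann a)`, and `card (Ann a) * card (a R) = card R` (the map `b ↦ a b`).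
Group by the ideal `J = a R = Ideal.span {a}`: at most `card J` elements `a` with `Ideal.span {a} = J` (they lie
in `J`), each contributes `card R / card J`: the sum over `J` is at most `card R` for each `J`.
-/

namespace Pool.Agent.Lib.MP_1ad228_ntQ

open NumberField Classical
open Pool.Agent.Lib.MP_1ad228_ntN
open Pool.Agent.Lib.MP_219881_nt (mn)

set_option linter.unusedSectionVars false

variable {K : Type} [Field K] [NumberField K]

section pairs

variable {S : Type*} [CommRing S] [Finite S]

/-- Pairs with product zero and given ideal of the first entry. -/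
private theorem RingSq_one (J : Ideal S) :
    Nat.card {p : S × S // p.1 * p.2 = 0 ∧ Ideal.span {p.1} = J} ≤ Nat.card S := by
  by_cases h : ∃ a : S, Ideal.span {a} = J
  · obtain ⟨a, ha⟩ := h
    let f : S →+ S := AddMonoidHom.mulLeft a
    have h1 : Nat.card f.ker * f.ker.index = Nat.card S := f.ker.card_mul_index
    have h2 : f.ker.index = Nat.card f.range := AddSubgroup.index_ker f
    have hr : ∀ s, s ∈ f.range ↔ s ∈ J := by
      intro s
      rw [← ha, Ideal.mem_span_singleton']
      constructor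
      · rintro ⟨t, rfl⟩
        exact ⟨t, mul_comm _ _⟩
      · rintro ⟨t, rfl⟩
        exact ⟨t, mul_comm _ _⟩
    have hfin : Finite f.ker := inferInstance
    have hfin2 : Finite f.range := inferInstance
    have h3 : Nat.card {p : S × S // p.1 * p.2 = 0 ∧ Ideal.span {p.1} = J} ≤
        Nat.card (f.range × f.ker) := by
      refine Nat.card_le_card_of_injective (fun p => (⟨p.1.1, (hr _).2 ?_⟩, ⟨p.1.2, ?_⟩)) ?_
      · have h5 : p.1.1 ∈ Ideal.span {p.1.1} := Ideal.mem_span_singleton_self _
        rw [p.2.2] at h5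
        exact h5
      · have h4 : a ∈ Ideal.span {p.1.1} := by
          rw [p.2.2, ← ha]
          exact Ideal.mem_span_singleton_self _
        obtain ⟨c, hc⟩ := Ideal.mem_span_singleton'.1 h4
        show a * p.1.2 = 0
        rw [← hc, mul_assoc, p.2.1, mul_zero]
      · intro p q hpq
        have e1 := congrArg (fun z => (z.1 : S)) hpq
        have e2 := congrArg (fun z => (z.2 : S)) hpq
        exact Subtype.ext (Prod.ext e1 e2)
    refine h3.trans (le_of_eq ?_)
    rw [Nat.card_prod, ← h2, ← h1, mul_comm]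
  · have : IsEmpty {p : S × S // p.1 * p.2 = 0 ∧ Ideal.span {p.1} = J} :=
      ⟨fun p => h ⟨p.1.1, p.2.2⟩⟩
    rw [Nat.card_of_isEmpty]
    exact Nat.zero_le _

theorem finite_ideal (S : Type*) [CommRing S] [Finite S] : Finite (Ideal S) :=
  Finite.of_injective (fun I : Ideal S => (I : Set S)) SetLike.coe_injective

private theorem RingSq_zero : Nat.card {p : S × S // p.1 * p.2 = 0} ≤
    Nat.card (Ideal S) * Nat.card S := by
  have := finite_ideal S
  have : Fintype (Ideal S) := Fintype.ofFinite _
  let f : {p : S × S // p.1 * p.2 = 0} →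
      Σ J : Ideal S, {p : S × S // p.1 * p.2 = 0 ∧ Ideal.span {p.1} = J} :=
    fun p => ⟨Ideal.span {p.1.1}, p.1, p.2, rfl⟩
  have hf : Function.Injective f := by
    intro p q h
    have h1 : ((f p).2 : S × S) = (f q).2 := by rw [h]
    exact Subtype.ext h1
  refine (Nat.card_le_card_of_injective f hf).trans ?_
  rw [Nat.card_sigma, Nat.card_eq_fintype_card (α := Ideal S), ← Finset.card_univ, ← smul_eq_mul,
    ← Finset.sum_const]
  exact Finset.sum_le_sum fun J _ => RingSq_one J

/-- The number of solutions of `z ^ 2 = c ^ 2 w ^ 2`. -/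
private theorem RingSq_sq {c : S} (hc : IsUnit c) :
    Nat.card {p : S × S // p.2 ^ 2 = c ^ 2 * p.1 ^ 2} ≤
      Nat.card {s : S // 2 * s = 0} * (Nat.card (Ideal S) * Nat.card S) := by
  classical
  let T := {p : S × S // p.2 ^ 2 = c ^ 2 * p.1 ^ 2}
  let U := {p : S × S // p.1 * p.2 = 0}
  let φ : T → U := fun p => ⟨(p.1.2 - c * p.1.1, p.1.2 + c * p.1.1), by
    have h := p.2
    show (p.1.2 - c * p.1.1) * (p.1.2 + c * p.1.1) = 0
    linear_combination h⟩
  have hr : ∀ u : U, ∃ r : S, ∀ p : T, φ p = u → 2 * (p.1.2 - r) = 0 := by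
    intro u
    by_cases h : ∃ p0 : T, φ p0 = u
    · obtain ⟨p0, h0⟩ := h
      refine ⟨p0.1.2, fun p hp => ?_⟩
      have h1 : φ p = φ p0 := hp.trans h0.symm
      have h2 : p.1.2 - c * p.1.1 = p0.1.2 - c * p0.1.1 := congrArg (fun z => z.1.1) h1
      have h3 : p.1.2 + c * p.1.1 = p0.1.2 + c * p0.1.1 := congrArg (fun z => z.1.2) h1
      linear_combination h2 + h3
    · exact ⟨0, fun p hp => (h ⟨p, hp⟩).elim⟩
  choose r hr using hr
  let g : T → {s : S // 2 * s = 0} × U := fun p => (⟨p.1.2 - r (φ p), hr _ p rfl⟩, φ p)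
  have hg : Function.Injective g := by
    intro p q h
    have h1 : φ p = φ q := congrArg Prod.snd h
    have h2 : p.1.2 - r (φ p) = q.1.2 - r (φ q) := congrArg (fun z => (z.1 : S)) h
    rw [h1] at h2
    have h3 : p.1.2 = q.1.2 := by linear_combination h2
    have h4 : p.1.2 - c * p.1.1 = q.1.2 - c * q.1.1 := congrArg (fun z => z.1.1) h1
    have h5 : c * p.1.1 = c * q.1.1 := by linear_combination h3 - h4
    exact Subtype.ext (Prod.ext (hc.mul_left_cancel h5) h3)
  refine (Nat.card_le_card_of_injective g hg).trans ?_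
  rw [Nat.card_prod]
  exact Nat.mul_le_mul_left _ RingSq_zero

end pairs

theorem annCnt {R : Type*} [CommRing R] [Finite R] :
    Nat.card {p : R × R // p.1 * p.2 = 0} ≤ Nat.card R * Nat.card (Ideal R) := by
  rw [mul_comm]
  exact RingSq_zero

theorem ringSq {R : Type*} [CommRing R] [Finite R] (c : R) (hc : IsUnit c) :
    Nat.card {p : R × R // p.2 ^ 2 = c ^ 2 * p.1 ^ 2} ≤
      Nat.card {t : R // 2 * t = 0} * (Nat.card R * Nat.card (Ideal R)) := by
  rw [mul_comm (Nat.card R)]
  exact RingSq_sq hc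

end Pool.Agent.Lib.MP_1ad228_ntQ
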