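import Pool.Agent.Lib.MP_1ad228_ntQ.Tau
import Pool.Agent.Lib.MP_1ad228_ntQ.RingSq
import Pool.Agent.Lib.MP_1ad228_ntN.LD_Base

/-!
LEAF SqCnt.  Pairs `(w, z)` in a box with `z ^ 2 ≡ c ^ 2 w ^ 2` modulo `I`.
PROOF.  `tauQ`: the ideals of `R ⧸ I` correspond to the ideals of `R` containing `I`
(`Ideal.relIsoOfSurjective` / `Ideal.comap_map_of_surjective`).  `twoQ`: in the finite group `G = 𝓞 K ⧸ I` the kernel of
multiplication by 2 has as many elements as its cokernel, which is a quotient of `𝓞 K ⧸ (2)`, of cardinality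
`absNorm (span {2}) = 2 ^ eK K` (`absNorm_natCast` of `CN_Cls`, or `Ideal.absNorm_span_singleton`).
`sqCnt`: the pair of residue classes `(u, z)` modulo `I` of `(w, z)` satisfies `z ^ 2 = c ^ 2 u ^ 2` in
`𝓞 K ⧸ I`, `c` a unit there: by `ringSq`, `tauQ`, `twoQ`, `LD_Base.card_quotO` at most
`2 ^ e * N(I) * tau I` pairs of classes.  In each class there are at most `CK * (1 + (2 Z) ^ e / N(I)) ≤
2 * CK * (2 Z) ^ e / N(I)` elements of `OBox K Z` (`upI K 0`, differences lie in `I` and have absolute values at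
most `2 Z`; `pn_const`).  Total `≤ 2 ^ e N(I) tau (I) (2 CK (2Z)^e / N(I)) ^ 2`.
-/

namespace Pool.Agent.Lib.MP_1ad228_ntQ

open NumberField Classical
open Pool.Agent.Lib.MP_1ad228_ntN
open Pool.Agent.Lib.MP_219881_nt (mn)

set_option linter.unusedSectionVars false

variable {K : Type} [Field K] [NumberField K]

theorem tauQ {R : Type*} [CommRing R] (I : Ideal R) : Nat.card (Ideal (R ⧸ I)) = tau I := by
  have e := (Ideal.relIsoOfSurjective (Ideal.Quotient.mk I) Ideal.Quotient.mk_surjective).toEquiv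
  unfold tau
  refine Nat.card_congr (e.trans (Equiv.subtypeEquivRight fun J => ?_))
  have h : Ideal.comap (Ideal.Quotient.mk I) ⊥ = I := by
    rw [← RingHom.ker_eq_comap_bot, Ideal.mk_ker]
  rw [h]

private theorem SqCnt_ann {G : Type*} [CommRing G] [Finite G] :
    Nat.card {t : G // 2 * t = 0} = Nat.card (G ⧸ Ideal.span {(2 : G)}) := by
  have h1 := card_quot (Ideal.span {(2 : G)})
  have h2 : Nat.card (AddMonoidHom.mulLeft (2 : G)).ker *
      Nat.card (AddMonoidHom.mulLeft (2 : G)).range = Nat.card G := by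
    rw [← AddSubgroup.index_ker, AddSubgroup.card_mul_index]
  have h3 : Nat.card (AddMonoidHom.mulLeft (2 : G)).ker = Nat.card {t : G // 2 * t = 0} := by
    refine Nat.card_congr (Equiv.subtypeEquivRight fun t => ?_)
    rw [AddMonoidHom.mem_ker]
    rfl
  have h4 : Nat.card (AddMonoidHom.mulLeft (2 : G)).range = Nat.card (Ideal.span {(2 : G)}) := by
    refine Nat.card_congr (Equiv.subtypeEquivRight fun t => ?_)
    rw [AddMonoidHom.mem_range, Ideal.mem_span_singleton']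
    constructor
    · rintro ⟨a, ha⟩
      exact ⟨a, by rw [← ha, mul_comm]; rfl⟩
    · rintro ⟨a, ha⟩
      exact ⟨a, by rw [← ha, mul_comm]; rfl⟩
  have h5 : 0 < Nat.card (Ideal.span {(2 : G)}) := Nat.card_pos
  rw [h3, h4, ← h1, mul_comm] at h2
  exact Nat.eq_of_mul_eq_mul_left h5 h2

private theorem SqCnt_abs :
    (Ideal.absNorm (Ideal.span {((2 : ℕ) : 𝓞 K)}) : ℝ) = (2 : ℝ) ^ eK K := by
  have h1 : Ideal.absNorm (Ideal.span {((2 : ℕ) : 𝓞 K)}) = 2 ^ eK K := by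
    rw [Ideal.absNorm_span_singleton]
    have h2 : ((2 : ℕ) : 𝓞 K) = algebraMap ℤ (𝓞 K) 2 := by simp
    rw [h2, Algebra.norm_algebraMap]
    have h3 : Module.finrank ℤ (𝓞 K) = eK K := RingOfIntegers.rank K
    rw [h3, Int.natAbs_pow]
    rfl
  rw [h1]
  push_cast
  rfl

theorem twoQ (I : Ideal (𝓞 K)) (hI : I ≠ ⊥) :
    Nat.card {t : 𝓞 K ⧸ I // 2 * t = 0} ≤ 2 ^ eK K := by
  have := finite_quot hI
  rw [SqCnt_ann]
  have h2 : (Ideal.span {((2 : ℕ) : 𝓞 K)} : Ideal (𝓞 K)) ≠ ⊥ := by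
    rw [Ne, Ideal.span_singleton_eq_bot]
    exact Nat.cast_ne_zero.2 two_ne_zero
  have := finite_quot h2
  let φ : 𝓞 K →+* (𝓞 K ⧸ I) ⧸ Ideal.span {(2 : 𝓞 K ⧸ I)} :=
    (Ideal.Quotient.mk (Ideal.span {(2 : 𝓞 K ⧸ I)})).comp (Ideal.Quotient.mk I)
  have hφ : ∀ a ∈ (Ideal.span {((2 : ℕ) : 𝓞 K)} : Ideal (𝓞 K)), φ a = 0 := by
    intro a ha
    obtain ⟨b, rfl⟩ := Ideal.mem_span_singleton'.1 ha
    show Ideal.Quotient.mk (Ideal.span {(2 : 𝓞 K ⧸ I)}) (Ideal.Quotient.mk I (b * ((2 : ℕ) : 𝓞 K))) = 0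
    rw [Ideal.Quotient.eq_zero_iff_mem, map_mul, map_natCast]
    exact Ideal.mem_span_singleton'.2 ⟨Ideal.Quotient.mk I b, by norm_num⟩
  have hs : Function.Surjective (Ideal.Quotient.lift _ φ hφ) := by
    refine Ideal.Quotient.lift_surjective_of_surjective _ hφ ?_
    exact Ideal.Quotient.mk_surjective.comp Ideal.Quotient.mk_surjective
  have h3 := Nat.card_le_card_of_surjective _ hs
  refine h3.trans ?_
  rw [card_quotO]
  have h4 := SqCnt_abs (K := K)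
  have h5 : ((Ideal.absNorm (Ideal.span {((2 : ℕ) : 𝓞 K)}) : ℕ) : ℝ) ≤ ((2 ^ eK K : ℕ) : ℝ) := by
    rw [h4]
    push_cast
    exact le_refl _
  exact_mod_cast h5

private theorem SqCnt_fib (K : Type) [Field K] [NumberField K] (I : Ideal (𝓞 K)) (hI : I ≠ ⊥)
    {Z : ℕ} (hZ : 1 ≤ Z) (hN : (Ideal.absNorm I : ℝ) ≤ (2 * (Z : ℝ)) ^ eK K) (u : 𝓞 K ⧸ I) :
    (((OBox K (Z : ℝ)).filter fun z => Ideal.Quotient.mk I z = u).card : ℝ) ≤
      2 * CK K 0 * ((2 * (Z : ℝ)) ^ eK K / Ideal.absNorm I) := by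
  have hZ' : (1 : ℝ) ≤ Z := by exact_mod_cast hZ
  have h1 := upI (K := K) 0 ((OBox K (Z : ℝ)).filter fun z => Ideal.Quotient.mk I z = u) I hI
    (fun _ => 2 * (Z : ℝ)) (fun _ => by positivity) ?_
  · rw [pn_const] at h1
    refine h1.trans ?_
    have hc := CK_pos K 0
    have hN0 : (0 : ℝ) < Ideal.absNorm I := by
      have : Ideal.absNorm I ≠ 0 := by rw [Ne, Ideal.absNorm_eq_zero_iff]; exact hI
      exact_mod_cast Nat.pos_of_ne_zero this
    have h2 : 1 ≤ (2 * (Z : ℝ)) ^ eK K / Ideal.absNorm I := by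
      rw [le_div_iff₀ hN0, one_mul]
      exact hN
    nlinarith
  · intro z hz w hw
    rw [Finset.mem_filter, mem_OBox] at hz hw
    refine ⟨?_, fun v => ?_⟩
    · rw [← Ideal.Quotient.eq, hz.2, hw.2]
    · have h3 : ((z - w : 𝓞 K) : K) = (z : K) - (w : K) := map_sub (algebraMap (𝓞 K) K) z w
      rw [h3]
      have h4 := v_sub_le v (z : K) (w : K)
      linarith [hz.1 v, hw.1 v]

variable (K) in
theorem sqCnt : ∃ C : ℝ, 1 ≤ C ∧ ∀ (I : Ideal (𝓞 K)) (Z : ℕ) (c c' : 𝓞 K), I ≠ ⊥ → 1 ≤ Z →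
    c * c' - 1 ∈ I → (Ideal.absNorm I : ℝ) ≤ (2 * (Z : ℝ)) ^ eK K →
    (((OBox K (Z : ℝ) ×ˢ OBox K (Z : ℝ)).filter fun p => p.2 ^ 2 - c ^ 2 * p.1 ^ 2 ∈ I).card : ℝ) ≤
      C * ((Z : ℝ) ^ eK K) ^ 2 * ((tau I : ℝ) / Ideal.absNorm I) := by
  refine ⟨2 ^ eK K * (2 * CK K 0 * 2 ^ eK K) ^ 2, ?_, ?_⟩
  · have h1 : (1 : ℝ) ≤ 2 ^ eK K := one_le_pow₀ (by norm_num)
    have h2 := CK_one_le K 0
    have h3 : (1 : ℝ) ≤ 2 * CK K 0 * 2 ^ eK K := by nlinarith
    exact one_le_mul_of_one_le_of_one_le h1 (one_le_pow₀ h3)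
  intro I Z c c' hI hZ hc hN
  have hZ' : (1 : ℝ) ≤ Z := by exact_mod_cast hZ
  have hN0 : (0 : ℝ) < Ideal.absNorm I := by
    have : Ideal.absNorm I ≠ 0 := by rw [Ne, Ideal.absNorm_eq_zero_iff]; exact hI
    exact_mod_cast Nat.pos_of_ne_zero this
  have hfin := finite_quot hI
  have hft : Fintype (𝓞 K ⧸ I) := Fintype.ofFinite _
  have hcu : IsUnit (Ideal.Quotient.mk I c) := by
    refine IsUnit.of_mul_eq_one (Ideal.Quotient.mk I c') ?_
    rw [← map_mul, ← map_one (Ideal.Quotient.mk I), Ideal.Quotient.eq]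
    exact hc
  obtain ⟨M, hM⟩ : ∃ M : ℝ, M = 2 * CK K 0 * ((2 * (Z : ℝ)) ^ eK K / Ideal.absNorm I) := ⟨_, rfl⟩
  have hM0 : 0 ≤ M := by
    have := CK_pos K 0
    rw [hM]; positivity
  obtain ⟨T, hT⟩ : ∃ T : Finset ((𝓞 K ⧸ I) × (𝓞 K ⧸ I)), T = Finset.univ.filter fun p =>
    p.2 ^ 2 = (Ideal.Quotient.mk I c) ^ 2 * p.1 ^ 2 := ⟨_, rfl⟩
  have hTc : (T.card : ℝ) ≤ 2 ^ eK K * ((Ideal.absNorm I : ℝ) * tau I) := by
    have h1 := ringSq (Ideal.Quotient.mk I c) hcu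
    have h2 : Nat.card {p : (𝓞 K ⧸ I) × (𝓞 K ⧸ I) // p.2 ^ 2 = (Ideal.Quotient.mk I c) ^ 2 * p.1 ^ 2} =
        T.card := by
      rw [Nat.card_eq_fintype_card, Fintype.card_subtype, hT]
    rw [h2, tauQ, card_quotO] at h1
    have h3 := h1.trans (Nat.mul_le_mul_right _ (twoQ I hI))
    exact_mod_cast h3
  obtain ⟨S, hS⟩ : ∃ S : Finset (𝓞 K × 𝓞 K), S =
    ((OBox K (Z : ℝ) ×ˢ OBox K (Z : ℝ)).filter fun p => p.2 ^ 2 - c ^ 2 * p.1 ^ 2 ∈ I) := ⟨_, rfl⟩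
  have hmap : ∀ p ∈ S, (Ideal.Quotient.mk I p.1, Ideal.Quotient.mk I p.2) ∈ T := by
    intro p hp
    rw [hS, Finset.mem_filter] at hp
    rw [hT, Finset.mem_filter]
    refine ⟨Finset.mem_univ _, ?_⟩
    show (Ideal.Quotient.mk I p.2) ^ 2 = (Ideal.Quotient.mk I c) ^ 2 * (Ideal.Quotient.mk I p.1) ^ 2
    rw [← map_pow, ← map_pow, ← map_pow, ← map_mul, Ideal.Quotient.eq]
    exact hp.2
  have hsum := Finset.card_eq_sum_card_fiberwise (f := fun p : 𝓞 K × 𝓞 K =>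
    (Ideal.Quotient.mk I p.1, Ideal.Quotient.mk I p.2)) (s := S) (t := T) hmap
  have hfib : ∀ b ∈ T, ((S.filter fun p => (Ideal.Quotient.mk I p.1, Ideal.Quotient.mk I p.2) = b).card : ℝ) ≤
      M * M := by
    intro b _
    have h1 : (S.filter fun p => (Ideal.Quotient.mk I p.1, Ideal.Quotient.mk I p.2) = b) ⊆
        ((OBox K (Z : ℝ)).filter fun z => Ideal.Quotient.mk I z = b.1) ×ˢ
        ((OBox K (Z : ℝ)).filter fun z => Ideal.Quotient.mk I z = b.2) := by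
      intro p hp
      rw [Finset.mem_filter, hS, Finset.mem_filter, Finset.mem_product] at hp
      rw [Finset.mem_product, Finset.mem_filter, Finset.mem_filter]
      exact ⟨⟨hp.1.1.1, congrArg Prod.fst hp.2⟩, ⟨hp.1.1.2, congrArg Prod.snd hp.2⟩⟩
    have h2 := Finset.card_le_card h1
    rw [Finset.card_product] at h2
    have h3 : ((S.filter fun p => (Ideal.Quotient.mk I p.1, Ideal.Quotient.mk I p.2) = b).card : ℝ) ≤
        (((OBox K (Z : ℝ)).filter fun z => Ideal.Quotient.mk I z = b.1).card : ℝ) *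
        (((OBox K (Z : ℝ)).filter fun z => Ideal.Quotient.mk I z = b.2).card : ℝ) := by
      exact_mod_cast h2
    refine h3.trans ?_
    rw [hM]
    exact mul_le_mul (SqCnt_fib K I hI hZ hN b.1) (SqCnt_fib K I hI hZ hN b.2) (Nat.cast_nonneg _)
      (by rw [← hM]; exact hM0)
  rw [← hS, hsum]
  push_cast
  refine (Finset.sum_le_sum hfib).trans ?_
  rw [Finset.sum_const, nsmul_eq_mul]
  refine (mul_le_mul_of_nonneg_right hTc (mul_nonneg hM0 hM0)).trans (le_of_eq ?_)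
  rw [hM, mul_pow]
  field_simp

end Pool.Agent.Lib.MP_1ad228_ntQ
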