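import Pool.Agent.Lib.MP_1ad228_ntQ.PMomDef
import Pool.Agent.Lib.MP_1ad228_ntQ.SqCnt
import Pool.Agent.Lib.MP_1ad228_ntN.LD_Ker

/-!
LEAF PPair.  Values of tensors at one point and at two points of a finite ring.
PROOF.  `val1`: translate by `c • tp (fun _ => u)`, `lin u x = 1` (`ev_tp`, `ev_smul`), and `LD_ker1`.
`val2`: for `(w, z)` the set `{a // ev a x = w ^ 2 ∧ ev a y = z ^ 2}` is empty or a translate of
`{a // ev a x = 0 ∧ ev a y = 0}`; with `N = q ^ ((n + 1) ^ (2 m))`: at most `N / (q * card II)` elements (`LD_ker2`).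
If it is not empty then `z ^ 2 - (lam ^ m) ^ 2 * w ^ 2 ∈ II x y`, `lam = lin u y` (`y j - lam x j ∈ II x y`, see
`LD_cnty`; so `ev a y - lam ^ (2 m) ev a x ∈ II`: map to `R ⧸ II`, `ev_map`, `ev_scale`), and `lam` is a unit in `S = R ⧸ II`
(`y` is unimodular). The number of these `(w, z)` is at most `card II ^ 2 * card {(w, z) in S // z ^ 2 = c ^ 2 w ^ 2} ≤
card II ^ 2 * card S * tau II` (`ringSq`, `tauQ`, 2 is a unit in `S`, `{t : S // 2 * t = 0}` has one element), and
`card II * card S = q` (`card_quot`).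
-/

namespace Pool.Agent.Lib.MP_1ad228_ntQ

open NumberField Classical
open Pool.Agent.Lib.MP_1ad228_ntN

private theorem PPair_trans {n d : ℕ} {R : Type*} [CommRing R] (x : Vc n R) (a a0 : Ten n d R) (c : R)
    (h : ev a0 x = c) : ev a x = c ↔ ev (a - a0) x = 0 := by
  rw [ev_sub, h, sub_eq_zero]

theorem val1 {n d : ℕ} {R : Type*} [CommRing R] [Finite R] (x : Vc n R) (hx : Uni x) (c : R) :
    Nat.card {a : Ten n d R // ev a x = c} * Nat.card R = Nat.card R ^ (n + 1) ^ d := by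
  obtain ⟨u, hu⟩ := id hx
  have h0 : ev (c • tp (fun _ : Fin d => u)) x = c := by
    have h1 : ev (c • tp (fun _ : Fin d => u)) x = c * ev (tp (fun _ : Fin d => u)) x := ev_smul _ _ _
    rw [h1, ev_tp]
    simp only [hu, Finset.prod_const_one, mul_one]
  have h1 : Nat.card {a : Ten n d R // ev a x = c} = Nat.card {a : Ten n d R // ev a x = 0} :=
    Nat.card_congr ((Equiv.subRight (c • tp (fun _ : Fin d => u))).subtypeEquiv
      fun a => PPair_trans x a _ c h0)
  rw [h1]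
  exact LD_ker1 x hx

/-- One pair of values. -/
private theorem PPair_one {n d : ℕ} {R : Type*} [CommRing R] [Finite R] (x y : Vc n R) (s t : R)
    (a0 : Ten n d R) (h1 : ev a0 x = s) (h2 : ev a0 y = t) :
    Nat.card {a : Ten n d R // ev a x = s ∧ ev a y = t} =
      Nat.card {a : Ten n d R // ev a x = 0 ∧ ev a y = 0} :=
  Nat.card_congr ((Equiv.subRight a0).subtypeEquiv fun a =>
    and_congr (PPair_trans x a a0 s h1) (PPair_trans y a a0 t h2))

private theorem PPair_lin {n : ℕ} {R : Type*} [CommRing R] (x y u : Vc n R) (hu : lin u x = 1)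
    (j : Fin (n + 1)) : y j - lin u y * x j ∈ II x y := by
  have h1 : y j - lin u y * x j = ∑ i, u i * mn x y i j := by
    have h2 : y j = lin u x * y j := by rw [hu, one_mul]
    calc y j - lin u y * x j = lin u x * y j - lin u y * x j := by rw [← h2]
      _ = ∑ i, u i * mn x y i j := by
        simp only [lin, mn, Finset.sum_mul, mul_sub, Finset.sum_sub_distrib]
        refine congrArg₂ (· - ·) (Finset.sum_congr rfl fun i _ => by ring)
          (Finset.sum_congr rfl fun i _ => by ring)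
  rw [h1]
  exact Ideal.sum_mem _ fun i _ => Ideal.mul_mem_left _ _ (mn_mem_II x y i j)

private theorem PPair_map {n : ℕ} {R : Type*} [CommRing R] (x y u : Vc n R) (hu : lin u x = 1) :
    (fun l => Ideal.Quotient.mk (II x y) (y l)) =
      fun l => Ideal.Quotient.mk (II x y) (lin u y) * Ideal.Quotient.mk (II x y) (x l) := by
  funext l
  rw [← map_mul, ← sub_eq_zero, ← map_sub, Ideal.Quotient.eq_zero_iff_mem]
  exact PPair_lin x y u hu l

private theorem PPair_ev {n d : ℕ} {R : Type*} [CommRing R] (x y u : Vc n R) (hu : lin u x = 1)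
    (a : Ten n d R) : Ideal.Quotient.mk (II x y) (ev a y) =
      Ideal.Quotient.mk (II x y) (lin u y) ^ d * Ideal.Quotient.mk (II x y) (ev a x) := by
  rw [← ev_map (Ideal.Quotient.mk (II x y)) a y, ← ev_map (Ideal.Quotient.mk (II x y)) a x,
    PPair_map x y u hu]
  exact ev_scale _ _ _

private theorem PPair_unit {n : ℕ} {R : Type*} [CommRing R] (x y u : Vc n R) (hu : lin u x = 1)
    (hy : Uni y) : IsUnit (Ideal.Quotient.mk (II x y) (lin u y)) := by
  obtain ⟨v, hv⟩ := hy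
  refine isUnit_iff_exists_inv.2 ⟨Ideal.Quotient.mk (II x y) (lin v x), ?_⟩
  rw [← map_mul, ← map_one (Ideal.Quotient.mk (II x y)), ← hv, eq_comm, ← sub_eq_zero, ← map_sub,
    Ideal.Quotient.eq_zero_iff_mem]
  have h1 : lin v y - lin u y * lin v x = ∑ l, v l * (y l - lin u y * x l) := by
    simp only [lin, Finset.mul_sum, mul_sub, Finset.sum_sub_distrib]
    congr 1
    refine Finset.sum_congr rfl fun i _ => ?_
    rw [Finset.sum_mul, Finset.sum_mul, Finset.mul_sum]
    refine Finset.sum_congr rfl fun k _ => by ring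
  rw [h1]
  exact Ideal.sum_mem _ fun l _ => Ideal.mul_mem_left _ _ (PPair_lin x y u hu l)

/-- Pairs of residues with a quadratic condition modulo `J`. -/
private theorem PPair_cnt {R : Type*} [CommRing R] [Finite R] (h2 : IsUnit (2 : R)) (J : Ideal R)
    (c : R ⧸ J) (hc : IsUnit c) :
    Nat.card {p : R × R // (Ideal.Quotient.mk J p.2) ^ 2 = c ^ 2 * (Ideal.Quotient.mk J p.1) ^ 2} ≤
      Nat.card J * (Nat.card R * tau J) := by
  have hs : ∀ r : R, r - Quotient.out (Ideal.Quotient.mk J r) ∈ J := by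
    intro r
    rw [← Ideal.Quotient.eq_zero_iff_mem, map_sub, sub_eq_zero]
    exact (Quotient.out_eq (Ideal.Quotient.mk J r)).symm
  let f : {p : R × R // (Ideal.Quotient.mk J p.2) ^ 2 = c ^ 2 * (Ideal.Quotient.mk J p.1) ^ 2} →
      {q : (R ⧸ J) × (R ⧸ J) // q.2 ^ 2 = c ^ 2 * q.1 ^ 2} × (J × J) := fun p =>
    (⟨(Ideal.Quotient.mk J p.1.1, Ideal.Quotient.mk J p.1.2), p.2⟩,
      (⟨_, hs p.1.1⟩, ⟨_, hs p.1.2⟩))
  have hf : Function.Injective f := by
    intro p q h
    have e1 : Ideal.Quotient.mk J p.1.1 = Ideal.Quotient.mk J q.1.1 :=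
      congrArg (fun z => z.1.1.1) h
    have e2 : Ideal.Quotient.mk J p.1.2 = Ideal.Quotient.mk J q.1.2 :=
      congrArg (fun z => z.1.1.2) h
    have e3 : p.1.1 - Quotient.out (Ideal.Quotient.mk J p.1.1) =
        q.1.1 - Quotient.out (Ideal.Quotient.mk J q.1.1) := congrArg (fun z => (z.2.1 : R)) h
    have e4 : p.1.2 - Quotient.out (Ideal.Quotient.mk J p.1.2) =
        q.1.2 - Quotient.out (Ideal.Quotient.mk J q.1.2) := congrArg (fun z => (z.2.2 : R)) h
    rw [e1] at e3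
    rw [e2] at e4
    exact Subtype.ext (Prod.ext (sub_left_injective e3) (sub_left_injective e4))
  have hfin : Finite (R ⧸ J) := Finite.of_surjective _ Ideal.Quotient.mk_surjective
  have h3 := Nat.card_le_card_of_injective f hf
  rw [Nat.card_prod, Nat.card_prod] at h3
  have h4 := ringSq c hc
  have h5 : Nat.card {t : R ⧸ J // 2 * t = 0} = 1 := by
    have h6 : IsUnit (2 : R ⧸ J) := by
      have := h2.map (Ideal.Quotient.mk J)
      rwa [map_ofNat] at this
    have : Unique {t : R ⧸ J // 2 * t = 0} :=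
      ⟨⟨⟨0, mul_zero _⟩⟩, fun t => Subtype.ext ((h6.mul_right_eq_zero).1 t.2)⟩
    exact Nat.card_unique
  rw [h5, one_mul, tauQ] at h4
  have h7 : Nat.card J * Nat.card (R ⧸ J) = Nat.card R := card_quot J
  calc _ ≤ _ := h3
    _ ≤ Nat.card (R ⧸ J) * tau J * (Nat.card J * Nat.card J) := Nat.mul_le_mul_right _ h4
    _ = Nat.card J * ((Nat.card J * Nat.card (R ⧸ J)) * tau J) := by ring
    _ = _ := by rw [h7]

theorem val2 {n m : ℕ} (hm : 1 ≤ m) {R : Type*} [CommRing R] [Fintype R] (h2 : IsUnit (2 : R))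
    (x y : Vc n R) (hx : Uni x) (hy : Uni y) :
    ∑ w : R, ∑ z : R, Nat.card {a : Ten n (2 * m) R // ev a x = w ^ 2 ∧ ev a y = z ^ 2} ≤
      Nat.card R ^ (n + 1) ^ (2 * m) * tau (II x y) := by
  obtain ⟨u, hu⟩ := id hx
  obtain ⟨c, hc⟩ : ∃ c, c = Ideal.Quotient.mk (II x y) (lin u y) ^ m := ⟨_, rfl⟩
  have hcu : IsUnit c := by
    rw [hc]
    exact (PPair_unit x y u hu hy).pow m
  obtain ⟨κ, hκ⟩ : ∃ κ, κ = Nat.card {a : Ten n (2 * m) R // ev a x = 0 ∧ ev a y = 0} := ⟨_, rfl⟩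
  have h1 : ∀ w z : R, Nat.card {a : Ten n (2 * m) R // ev a x = w ^ 2 ∧ ev a y = z ^ 2} ≤
      if (Ideal.Quotient.mk (II x y) z) ^ 2 = c ^ 2 * (Ideal.Quotient.mk (II x y) w) ^ 2 then κ
      else 0 := by
    intro w z
    by_cases h : ∃ a0 : Ten n (2 * m) R, ev a0 x = w ^ 2 ∧ ev a0 y = z ^ 2
    · obtain ⟨a0, ha, hb⟩ := h
      rw [PPair_one x y _ _ a0 ha hb, hκ, if_pos]
      have h3 := PPair_ev x y u hu a0
      rw [ha, hb, map_pow, map_pow] at h3
      rw [h3, hc]
      ring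
    · have : IsEmpty {a : Ten n (2 * m) R // ev a x = w ^ 2 ∧ ev a y = z ^ 2} :=
        ⟨fun a => h ⟨a.1, a.2⟩⟩
      rw [Nat.card_of_isEmpty]
      exact Nat.zero_le _
  have h3 : ∑ w : R, ∑ z : R, Nat.card {a : Ten n (2 * m) R // ev a x = w ^ 2 ∧ ev a y = z ^ 2} ≤
      ∑ w : R, ∑ z : R, if (Ideal.Quotient.mk (II x y) z) ^ 2 =
        c ^ 2 * (Ideal.Quotient.mk (II x y) w) ^ 2 then κ else 0 :=
    Finset.sum_le_sum fun w _ => Finset.sum_le_sum fun z _ => h1 w z
  have h4 : (∑ w : R, ∑ z : R, if (Ideal.Quotient.mk (II x y) z) ^ 2 =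
        c ^ 2 * (Ideal.Quotient.mk (II x y) w) ^ 2 then κ else 0) =
      Nat.card {p : R × R // (Ideal.Quotient.mk (II x y) p.2) ^ 2 =
        c ^ 2 * (Ideal.Quotient.mk (II x y) p.1) ^ 2} * κ := by
    rw [← Finset.sum_product', Finset.univ_product_univ, ← Finset.sum_filter, Finset.sum_const,
      smul_eq_mul, Nat.card_eq_fintype_card, Fintype.card_subtype]
  rw [h4] at h3
  have h5 := PPair_cnt h2 (II x y) c hcu
  have h6 := LD_ker2 (by omega : 1 ≤ 2 * m) x y hx hy
  rw [← hκ] at h6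
  calc _ ≤ _ := h3
    _ ≤ Nat.card (II x y) * (Nat.card R * tau (II x y)) * κ := Nat.mul_le_mul_right _ h5
    _ = κ * (Nat.card R * Nat.card (II x y)) * tau (II x y) := by ring
    _ ≤ _ := Nat.mul_le_mul_right _ h6

end Pool.Agent.Lib.MP_1ad228_ntQ
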