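import Pool.Agent.Lib.MP_1ad228_ntQ.RRob

/-!
LEAF RLine.  Counting the tensors of `RRob`.  `e = eK K`, `V = (n+1)^(2m)`.
PROOF.  `cplxCnt`: the entry at `(0,..,0)` lies in the set `{z ∈ OBox K A : v z ≤ η A}`, of cardinality at most
`CK (1 + pn ρ) ≤ CK (1 + 2^e η A^e)` (`upI K 0` with `I = ⊤`, `ρ_v = 2 η A`, `ρ_v' = 2 A`; `η ≤ 1` and `v.mult ≥ 1`), the other `V - 1`
entries lie in `OBox K A` (`OBox_up`): split off one entry (`Fintype.piFinset` / `Finset.card_le_card_of_injOn` into a product).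
`realCnt`: map `a ↦ (b, a (0,..,0))`, `b = a - a(0,..,0) • G`, `G` the tensor with value 1 at the constant index functions and 0
elsewhere (`ev G x = ∑ x_i^(2m)`).  `b` has entries in `OBox K (2A)` and `b (0,..,0) = 0`: at most `(CK (2A)^e)^(V-1)` values of `b`.  Two
tensors `a, a'` with the same `b`: `a' = a + t • G`, `t = a'(0..0) - a(0..0)`.  Both satisfy `HiQ`.  `em v t` is real, `= τ`.  If `τ > 0`:
take `x` with `f_a(x) ≥ 0` and some `|x_l| = 1/2`; `f_a'(x) = f_a(x) + (τ/A) ∑ x_i^(2m) ≥ (τ/A) (1/4)^m`, and `f_a'(x) ≤ η`, so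
`τ ≤ 4^m η A`.  If `τ < 0` exchange `a, a'`.  So `v(t) ≤ 4^m η A` and `v'(t) ≤ 2 A` at the other places: by `upI` (`I = ⊤`) each fibre
has at most `CK (1 + 4^m η A * (2A)^(e-1)) ≤ C (1 + η A^e)` elements.
-/

namespace Pool.Agent.Lib.MP_1ad228_ntQ

open NumberField Classical
open Pool.Agent.Lib.MP_1ad228_ntN
open Pool.Agent.Lib.MP_219881_nt (mn)

set_option linter.unusedSectionVars false

variable {K : Type} [Field K] [NumberField K]

private theorem RLine_pn (v : InfinitePlace K) (c : ℝ) :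
    pn (fun w : InfinitePlace K => if w = v then c else 1) = c ^ v.mult := by
  unfold pn
  rw [Finset.prod_eq_single v]
  · dsimp only
    rw [if_pos rfl]
  · intro w _ hw
    dsimp only
    rw [if_neg hw, one_pow]
  · intro h
    exact absurd (Finset.mem_univ v) h

private theorem RLine_cnt (v : InfinitePlace K) (S : Finset (𝓞 K)) (A : ℕ) (hA : 1 ≤ A) (c : ℝ) (hc : 0 < c)
    (h : ∀ z ∈ S, ∀ w ∈ S, v ((z - w : 𝓞 K) : K) ≤ 2 * A * c ∧ ∀ v' : InfinitePlace K, v' ((z - w : 𝓞 K) : K) ≤ 2 * A) :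
    (S.card : ℝ) ≤ CK K 0 * (1 + (2 * (A : ℝ)) ^ eK K * c ^ v.mult) := by
  have hA' : (0 : ℝ) < A := by exact_mod_cast hA
  have h1 := upI (K := K) 0 S ⊤ top_ne_bot (fun w => 2 * (A : ℝ) * if w = v then c else 1) (fun w => by
    have : (0 : ℝ) < if w = v then c else 1 := by
      split_ifs
      · exact hc
      · exact one_pos
    positivity) (fun z hz w hw => ⟨trivial, fun v' => by
      by_cases hv : v' = v
      · rw [if_pos hv, hv]
        exact (h z hz w hw).1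
      · rw [if_neg hv, mul_one]
        exact (h z hz w hw).2 v'⟩)
  rw [pn_const_mul, RLine_pn, Ideal.absNorm_top, Nat.cast_one, div_one] at h1
  exact h1

private theorem RLine_prod {n d : ℕ} (T S : Finset (𝓞 K)) :
    ((Fintype.piFinset fun s : Fin d → Fin (n + 1) => if s = fun _ => 0 then S else T).card : ℝ) =
      S.card * (T.card : ℝ) ^ ((n + 1) ^ d - 1) := by
  rw [Fintype.card_piFinset, ← Finset.mul_prod_erase Finset.univ _ (Finset.mem_univ (fun _ => 0 : Fin d → Fin (n + 1))),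
    if_pos rfl]
  have h : ∏ s ∈ (Finset.univ : Finset (Fin d → Fin (n + 1))).erase (fun _ => 0),
      (if s = fun _ => 0 then S else T).card = T.card ^ ((n + 1) ^ d - 1) := by
    rw [Finset.prod_congr rfl (g := fun _ => T.card) fun s hs => by rw [if_neg (Finset.ne_of_mem_erase hs)],
      Finset.prod_const, Finset.card_erase_of_mem (Finset.mem_univ _), Finset.card_univ, Fintype.card_fun,
      Fintype.card_fin, Fintype.card_fin]
  rw [h]
  push_cast
  ring

private theorem RLine_CK : 0 < CK K 0 := by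
  have h := OBox_low K 0 (le_refl (1 : ℝ))
  rw [one_pow] at h
  by_contra hcon
  rw [not_lt] at hcon
  have h2 : CK K 0 * ((OBox K (1 : ℝ)).card : ℝ) ≤ 0 := mul_nonpos_of_nonpos_of_nonneg hcon (Nat.cast_nonneg _)
  linarith

variable (K) in
theorem cplxCnt (n m : ℕ) : ∃ C : ℝ, 1 ≤ C ∧ ∀ (v : InfinitePlace K) (η : ℝ), 0 < η → η ≤ 1 →
    ∀ A : ℕ, 1 ≤ A →
    (((Box K n (2 * m) A).filter fun a => v (a (fun _ => 0) : K) ≤ η * A).card : ℝ) ≤
      C * (1 + η * (A : ℝ) ^ eK K) * (A : ℝ) ^ (eK K * ((n + 1) ^ (2 * m) - 1)) := by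
  have hCK := RLine_CK (K := K)
  refine ⟨max 1 (CK K 0 * 2 ^ eK K * CK K 0 ^ ((n + 1) ^ (2 * m) - 1)), le_max_left _ _, fun v η hη hη1 A hA => ?_⟩
  have hA' : (0 : ℝ) < A := by exact_mod_cast hA
  have hA1 : (1 : ℝ) ≤ A := by exact_mod_cast hA
  set S : Finset (𝓞 K) := (OBox K A).filter fun z => v (z : K) ≤ η * A with hS
  have hsub : ((Box K n (2 * m) A).filter fun a => v (a (fun _ => 0) : K) ≤ η * A) ⊆
      Fintype.piFinset fun s : Fin (2 * m) → Fin (n + 1) => if s = fun _ => 0 then S else OBox K A := by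
    intro a ha
    rw [Finset.mem_filter] at ha
    rw [Fintype.mem_piFinset]
    intro s
    have h1 : a s ∈ OBox K A := by
      have := ha.1
      unfold Box at this
      rw [Fintype.mem_piFinset] at this
      exact this s
    by_cases hs : s = fun _ => 0
    · rw [if_pos hs, hS, Finset.mem_filter]
      refine ⟨h1, ?_⟩
      rw [hs]
      exact ha.2
    · rw [if_neg hs]
      exact h1
  have h1 : (((Box K n (2 * m) A).filter fun a => v (a (fun _ => 0) : K) ≤ η * A).card : ℝ) ≤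
      S.card * ((OBox K A).card : ℝ) ^ ((n + 1) ^ (2 * m) - 1) := by
    rw [← RLine_prod]
    exact_mod_cast Finset.card_le_card hsub
  have h2 : (S.card : ℝ) ≤ CK K 0 * (1 + (2 * (A : ℝ)) ^ eK K * η ^ v.mult) := by
    refine RLine_cnt v S A hA η hη fun z hz w hw => ?_
    rw [hS, Finset.mem_filter, mem_OBox] at hz hw
    refine ⟨?_, fun v' => ?_⟩
    · have e1 := v_sub_le v (z : K) (w : K)
      have e2 : (((z - w : 𝓞 K)) : K) = (z : K) - (w : K) := rfl
      rw [e2]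
      linarith [hz.2, hw.2]
    · have e1 := v_sub_le v' (z : K) (w : K)
      have e2 : (((z - w : 𝓞 K)) : K) = (z : K) - (w : K) := rfl
      rw [e2]
      linarith [hz.1 v', hw.1 v']
  have h3 : η ^ v.mult ≤ η := by
    calc η ^ v.mult ≤ η ^ 1 := pow_le_pow_of_le_one hη.le hη1 v.mult_pos
      _ = η := pow_one η
  have h4 : (S.card : ℝ) ≤ CK K 0 * 2 ^ eK K * (1 + η * (A : ℝ) ^ eK K) := by
    refine h2.trans ?_
    rw [mul_assoc]
    refine mul_le_mul_of_nonneg_left ?_ hCK.le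
    have h5 : (2 * (A : ℝ)) ^ eK K * η ^ v.mult ≤ (2 * (A : ℝ)) ^ eK K * η := mul_le_mul_of_nonneg_left h3 (by positivity)
    have h6 : (1 : ℝ) ≤ 2 ^ eK K := one_le_pow₀ (by norm_num)
    rw [mul_pow] at h5
    rw [mul_pow]
    calc 1 + 2 ^ eK K * (A : ℝ) ^ eK K * η ^ v.mult ≤ 2 ^ eK K + 2 ^ eK K * (A : ℝ) ^ eK K * η := add_le_add h6 h5
      _ = _ := by ring
  have h7 : ((OBox K A).card : ℝ) ^ ((n + 1) ^ (2 * m) - 1) ≤ (CK K 0 * (A : ℝ) ^ eK K) ^ ((n + 1) ^ (2 * m) - 1) :=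
    pow_le_pow_left₀ (Nat.cast_nonneg _) (OBox_up K 0 hA1) _
  refine h1.trans ((mul_le_mul h4 h7 (by positivity) (by positivity)).trans ?_)
  calc CK K 0 * 2 ^ eK K * (1 + η * (A : ℝ) ^ eK K) * (CK K 0 * (A : ℝ) ^ eK K) ^ ((n + 1) ^ (2 * m) - 1)
      = (CK K 0 * 2 ^ eK K * CK K 0 ^ ((n + 1) ^ (2 * m) - 1)) * ((1 + η * (A : ℝ) ^ eK K) *
          (A : ℝ) ^ (eK K * ((n + 1) ^ (2 * m) - 1))) := by
        rw [mul_pow, ← pow_mul]
        ring
    _ ≤ max 1 (CK K 0 * 2 ^ eK K * CK K 0 ^ ((n + 1) ^ (2 * m) - 1)) * ((1 + η * (A : ℝ) ^ eK K) *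
          (A : ℝ) ^ (eK K * ((n + 1) ^ (2 * m) - 1))) :=
        mul_le_mul_of_nonneg_right (le_max_right _ _) (by positivity)
    _ = _ := by ring

/-- The constant index functions. -/
private def RLine_c {n d : ℕ} (s : Fin d → Fin (n + 1)) : Prop := ∃ i, ∀ k, s k = i

private theorem RLine_G {n m : ℕ} (x : Fin (n + 1) → ℝ) (h : ∃ l, |x l| = 1 / 2) :
    (1 / 4 : ℝ) ^ m ≤ ev (fun s : Fin (2 * m) → Fin (n + 1) => if RLine_c s then (1 : ℝ) else 0) x := by
  obtain ⟨l, hl⟩ := h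
  unfold ev
  have h1 : (1 / 4 : ℝ) ^ m = (if RLine_c (fun _ : Fin (2 * m) => l) then (1 : ℝ) else 0) *
      ∏ k : Fin (2 * m), x ((fun _ => l) k) := by
    rw [if_pos ⟨l, fun _ => rfl⟩, one_mul, Finset.prod_const, Finset.card_univ, Fintype.card_fin, pow_mul]
    congr 1
    rw [← sq_abs, hl]
    norm_num
  rw [h1]
  refine Finset.single_le_sum (f := fun s : Fin (2 * m) → Fin (n + 1) =>
    (if RLine_c s then (1 : ℝ) else 0) * ∏ k, x (s k)) (fun s _ => ?_) (Finset.mem_univ _)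
  split_ifs with hs
  · obtain ⟨i, hi⟩ := hs
    rw [one_mul, Finset.prod_congr rfl (g := fun _ => x i) fun k _ => by rw [hi k], Finset.prod_const, Finset.card_univ,
      Fintype.card_fin, pow_mul]
    positivity
  · rw [zero_mul]

private theorem RLine_one {n m : ℕ} {v : InfinitePlace K} (hv : v.IsReal) {η : ℝ} (hη : 0 < η) {A : ℕ} (hA : 1 ≤ A)
    {a a' : Ten n (2 * m) (𝓞 K)} (h : HiQ v A η a) (h' : HiQ v A η a') (t : 𝓞 K)
    (ht : ∀ s, a' s = a s + if RLine_c s then t else 0) : (em v t).re ≤ 4 ^ m * η * A := by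
  have hA' : (0 : ℝ) < A := by exact_mod_cast hA
  rcases le_or_gt (em v t).re 0 with h0 | h0
  · exact h0.trans (by positivity)
  obtain ⟨x, hx1, hx2, hx3⟩ := h.1
  have h1 := h'.2 x hx1
  set G : Ten n (2 * m) ℝ := fun s => if RLine_c s then (1 : ℝ) else 0 with hG
  have hG1 : ev (fun s => ((G s : ℝ) : ℂ)) (fun l => (x l : ℂ)) = ((ev G x : ℝ) : ℂ) := ev_map Complex.ofRealHom G x
  have hemt : em v t = (((em v t).re : ℝ) : ℂ) := Complex.ext rfl (em_mem_KK v t hv)
  have h2 : scQ v A a' = scQ v A a + fun s => (((em v t).re / A : ℝ) : ℂ) * ((G s : ℝ) : ℂ) := by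
    funext s
    rw [Pi.add_apply]
    unfold scQ
    rw [ht s, map_add, add_div]
    congr 1
    rw [hG]
    dsimp only
    split_ifs with hs
    · rw [Complex.ofReal_one, mul_one, Complex.ofReal_div, ← hemt, Complex.ofReal_natCast]
    · rw [map_zero, zero_div, Complex.ofReal_zero, mul_zero]
  rw [h2, ev_add, ev_smul, hG1, Complex.add_re, ← Complex.ofReal_mul, Complex.ofReal_re] at h1
  have h3 : (1 / 4 : ℝ) ^ m ≤ ev G x := RLine_G x hx2
  have h4 : (em v t).re / A * (1 / 4 : ℝ) ^ m ≤ η := by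
    have : (em v t).re / A * (1 / 4 : ℝ) ^ m ≤ (em v t).re / A * ev G x := mul_le_mul_of_nonneg_left h3 (by positivity)
    linarith
  have h5 : (4 : ℝ) ^ m * (1 / 4) ^ m = 1 := by rw [← mul_pow]; norm_num
  calc (em v t).re = ((em v t).re / A * (1 / 4 : ℝ) ^ m) * (4 ^ m * A) := by
        have : (em v t).re / A * (1 / 4 : ℝ) ^ m * (4 ^ m * A) = ((em v t).re / A * A) * (4 ^ m * (1 / 4) ^ m) := by ring
        rw [this, h5, mul_one, div_mul_cancel₀ _ hA'.ne']
    _ ≤ η * (4 ^ m * A) := mul_le_mul_of_nonneg_right h4 (by positivity)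
    _ = _ := by ring

variable (K) in
theorem realCnt (n m : ℕ) : ∃ C : ℝ, 1 ≤ C ∧ ∀ (v : InfinitePlace K), v.IsReal → ∀ η : ℝ, 0 < η →
    ∀ A : ℕ, 1 ≤ A →
    (((Box K n (2 * m) A).filter fun a => HiQ v A η a).card : ℝ) ≤
      C * (1 + η * (A : ℝ) ^ eK K) * (A : ℝ) ^ (eK K * ((n + 1) ^ (2 * m) - 1)) := by
  have hCK := RLine_CK (K := K)
  refine ⟨max 1 (CK K 0 * (2 ^ eK K * 4 ^ m) * (CK K 0 * 2 ^ eK K) ^ ((n + 1) ^ (2 * m) - 1)), le_max_left _ _,
    fun v hv η hη A hA => ?_⟩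
  have hA' : (0 : ℝ) < A := by exact_mod_cast hA
  have hA1 : (1 : ℝ) ≤ A := by exact_mod_cast hA
  set F := (Box K n (2 * m) A).filter fun a => HiQ v A η a with hF
  set T := Fintype.piFinset fun s : Fin (2 * m) → Fin (n + 1) =>
    if s = fun _ => 0 then ({0} : Finset (𝓞 K)) else OBox K (2 * A) with hT
  set b : Ten n (2 * m) (𝓞 K) → Ten n (2 * m) (𝓞 K) := fun a s => a s - if RLine_c s then a (fun _ => 0) else 0 with hb
  have hbox : ∀ a ∈ F, ∀ s, ∀ v' : InfinitePlace K, v' (a s : K) ≤ A := fun a ha s v' =>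
    mem_Box.1 (Finset.mem_filter.1 ha).1 s v'
  have hmaps : ∀ a ∈ F, b a ∈ T := by
    intro a ha
    rw [hT, Fintype.mem_piFinset]
    intro s
    by_cases hs : s = fun _ => 0
    · rw [if_pos hs, Finset.mem_singleton, hb]
      dsimp only
      rw [hs, if_pos ⟨0, fun _ => rfl⟩, sub_self]
    · rw [if_neg hs, mem_OBox]
      intro v'
      rw [hb]
      dsimp only
      split_ifs with hc
      · have e1 := v_sub_le v' (a s : K) (a (fun _ => 0) : K)
        have e2 : ((a s - a (fun _ => 0) : 𝓞 K) : K) = (a s : K) - (a (fun _ => 0) : K) := rfl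
        rw [e2]
        linarith [hbox a ha s v', hbox a ha (fun _ => 0) v']
      · rw [sub_zero]
        linarith [hbox a ha s v']
  have hfib : ∀ β ∈ T, ((F.filter fun a => b a = β).card : ℝ) ≤ CK K 0 * (1 + (2 * (A : ℝ)) ^ eK K * (4 ^ m * η)) := by
    intro β _
    have hinj : Set.InjOn (fun a : Ten n (2 * m) (𝓞 K) => a (fun _ => 0)) (F.filter fun a => b a = β : Finset _) := by
      intro a ha a' ha' haa
      rw [Finset.mem_coe, Finset.mem_filter] at ha ha'
      have haa' : a (fun _ => 0) = a' (fun _ => 0) := haa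
      funext s
      have e1 := congrFun (ha.2.trans ha'.2.symm) s
      rw [hb] at e1
      dsimp only at e1
      rw [haa'] at e1
      exact sub_left_injective e1
    rw [← Finset.card_image_of_injOn hinj]
    have hm : v.mult = 1 := by
      unfold InfinitePlace.mult
      rw [if_pos hv]
    have key : ∀ a ∈ F.filter (fun a => b a = β), ∀ a' ∈ F.filter (fun a => b a = β),
        (em v (a' (fun _ => 0) - a (fun _ => 0))).re ≤ 4 ^ m * η * A := by
      intro a ha a' ha'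
      rw [Finset.mem_filter] at ha ha'
      refine RLine_one hv hη hA (Finset.mem_filter.1 ha.1).2 (Finset.mem_filter.1 ha'.1).2 _ fun s => ?_
      have e1 := congrFun (ha.2.trans ha'.2.symm) s
      rw [hb] at e1
      dsimp only at e1
      split_ifs at e1 ⊢ with hc
      · linear_combination -e1
      · linear_combination -e1
    have hcnt := RLine_cnt v (Finset.image (fun a : Ten n (2 * m) (𝓞 K) => a (fun _ => 0)) (F.filter fun a => b a = β)) A hA
      (4 ^ m * η) (by positivity) (fun z hz w hw => by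
        obtain ⟨a', ha', rfl⟩ := Finset.mem_image.1 hz
        obtain ⟨a, ha, rfl⟩ := Finset.mem_image.1 hw
        refine ⟨?_, fun v' => ?_⟩
        · have e1 := key a ha a' ha'
          have e2 := key a' ha' a ha
          have e3 : em v (a (fun _ => 0) - a' (fun _ => 0)) = -em v (a' (fun _ => 0) - a (fun _ => 0)) := by
            rw [← map_neg, neg_sub]
          rw [e3, Complex.neg_re] at e2
          rw [← norm_em]
          have e4 : em v (a' (fun _ => 0) - a (fun _ => 0)) = (((em v (a' (fun _ => 0) - a (fun _ => 0))).re : ℝ) : ℂ) :=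
            Complex.ext rfl (em_mem_KK v _ hv)
          rw [e4, Complex.norm_real, Real.norm_eq_abs]
          have e5 : |(em v (a' (fun _ => 0) - a (fun _ => 0))).re| ≤ 4 ^ m * η * A := abs_le.2 ⟨by linarith, e1⟩
          refine e5.trans ?_
          have : 0 ≤ 4 ^ m * η * A := by positivity
          linarith
        · have e1 := v_sub_le v' (a' (fun _ => 0) : K) (a (fun _ => 0) : K)
          have e2 : ((a' (fun _ => 0) - a (fun _ => 0) : 𝓞 K) : K) = (a' (fun _ => 0) : K) - (a (fun _ => 0) : K) := rfl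
          rw [e2]
          linarith [hbox a' (Finset.mem_filter.1 ha').1 (fun _ => 0) v', hbox a (Finset.mem_filter.1 ha).1 (fun _ => 0) v'])
    rwa [hm, pow_one] at hcnt
  have h1 : (F.card : ℝ) ≤ T.card * (CK K 0 * (1 + (2 * (A : ℝ)) ^ eK K * (4 ^ m * η))) := by
    rw [Finset.card_eq_sum_card_fiberwise (f := b) (t := T) hmaps, Nat.cast_sum, ← nsmul_eq_mul]
    exact Finset.sum_le_card_nsmul _ _ _ hfib
  have h2 : (T.card : ℝ) = ((OBox K (2 * (A : ℝ))).card : ℝ) ^ ((n + 1) ^ (2 * m) - 1) := by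
    rw [hT, RLine_prod, Finset.card_singleton, Nat.cast_one, one_mul]
  have h3 : (T.card : ℝ) ≤ (CK K 0 * (2 * (A : ℝ)) ^ eK K) ^ ((n + 1) ^ (2 * m) - 1) := by
    rw [h2]
    exact pow_le_pow_left₀ (Nat.cast_nonneg _) (OBox_up K 0 (by linarith)) _
  have h4 : CK K 0 * (1 + (2 * (A : ℝ)) ^ eK K * (4 ^ m * η)) ≤ CK K 0 * (2 ^ eK K * 4 ^ m) * (1 + η * (A : ℝ) ^ eK K) := by
    rw [mul_assoc]
    refine mul_le_mul_of_nonneg_left ?_ hCK.le
    have h5 : (1 : ℝ) ≤ 2 ^ eK K * 4 ^ m := one_le_mul_of_one_le_of_one_le (one_le_pow₀ (by norm_num)) (one_le_pow₀ (by norm_num))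
    rw [mul_pow]
    calc 1 + 2 ^ eK K * (A : ℝ) ^ eK K * (4 ^ m * η) ≤ 2 ^ eK K * 4 ^ m + 2 ^ eK K * (A : ℝ) ^ eK K * (4 ^ m * η) := by linarith
      _ = _ := by ring
  refine h1.trans ((mul_le_mul h3 h4 (by positivity) (by positivity)).trans ?_)
  calc (CK K 0 * (2 * (A : ℝ)) ^ eK K) ^ ((n + 1) ^ (2 * m) - 1) * (CK K 0 * (2 ^ eK K * 4 ^ m) * (1 + η * (A : ℝ) ^ eK K))
      = (CK K 0 * (2 ^ eK K * 4 ^ m) * (CK K 0 * 2 ^ eK K) ^ ((n + 1) ^ (2 * m) - 1)) * ((1 + η * (A : ℝ) ^ eK K) *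
          (A : ℝ) ^ (eK K * ((n + 1) ^ (2 * m) - 1))) := by
        rw [mul_pow 2 (A : ℝ), ← mul_assoc (CK K 0) (2 ^ eK K), mul_pow (CK K 0 * 2 ^ eK K), ← pow_mul]
        ring
    _ ≤ max 1 (CK K 0 * (2 ^ eK K * 4 ^ m) * (CK K 0 * 2 ^ eK K) ^ ((n + 1) ^ (2 * m) - 1)) * ((1 + η * (A : ℝ) ^ eK K) *
          (A : ℝ) ^ (eK K * ((n + 1) ^ (2 * m) - 1))) :=
        mul_le_mul_of_nonneg_right (le_max_right _ _) (by positivity)
    _ = _ := by ring

end Pool.Agent.Lib.MP_1ad228_ntQ
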