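import Pool.Agent.Lib.MP_1ad228_ntQ.Defs

/-!
LEAF RRob.  Tensors which are soluble but not robust at the place `v`.
PROOF.  `robCplx`: `v` is not real, so `KK v` is all of `ℂ`.  `ξ = e_0 / 2`: `ev (scQ v A a) ξ = em v (a (0,..,0)) / A * (1/2)^(2m) =: β`; let
`ω ^ 2 = β`.  If `‖β‖ ≥ 4 ρ^2` then `‖ω‖ ≥ 2 ρ` and `RobQ v 0 ρ` holds (`‖ξ 0‖ = 1/2 ≥ 2 ρ`).  So `‖β‖ < 4 ρ^2`
(`norm_em`).
`robReal`: `v` is real, `KK v` is the set of the complex numbers with imaginary part 0, `em v z ∈ KK v` (`em_mem_KK`), so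
`f x = ev (scQ v A a) (x : ℂ)` is real for real `x`.  First part of `HiQ`: `RSolQ` gives real `x ≠ 0` and real `w` with
`ev (tmap (em v) a) x = w^2`; divide `x` by `2 ‖x‖_∞`: `f(x/(2M)) = w^2/(A (2M)^(2m)) ≥ 0` (`ev` is homogeneous).
Second part: let `x` be real, `|x_l| ≤ 1/2`.  Let `x'` be `x` with `x_0` replaced by `± 2 ρ` if `|x_0| < 2 ρ`; `|x'_0| ≥ 2ρ`,
`|x'_l| ≤ 1/2`, `|x_l - x'_l| ≤ 4 ρ`.  If `f(x') ≥ 4 ρ^2` then with `ω = sqrt f(x')` `RobQ` holds; so `f(x') < 4 ρ^2`.  The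
coefficients are at most 1 in absolute value (`a ∈ Box A`), so `|f(x) - f(x')| ≤ 2m (n+1)^(2m) * 4 ρ`
(`|∏ x_(s k) - ∏ x'_(s k)| ≤ 2m * 4ρ` for products of `2m` numbers of absolute value `≤ 1`).  Total
`f(x) ≤ 4 ρ^2 + 8 m (n+1)^(2m) ρ ≤ (4 + 8 m (n+1)^(2m)) ρ`.
-/

namespace Pool.Agent.Lib.MP_1ad228_ntQ

open NumberField Classical
open Pool.Agent.Lib.MP_1ad228_ntN
open Pool.Agent.Lib.MP_219881_nt (mn)

set_option linter.unusedSectionVars false

variable {K : Type} [Field K] [NumberField K]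

/-- The maximum of the form at the real place `v` over the cube is between `0` and `η`. -/
def HiQ {n d : ℕ} (v : InfinitePlace K) (A : ℕ) (η : ℝ) (a : Ten n d (𝓞 K)) : Prop :=
  (∃ x : Fin (n + 1) → ℝ, (∀ l, |x l| ≤ 1 / 2) ∧ (∃ l, |x l| = 1 / 2) ∧
    0 ≤ (ev (scQ v A a) (fun l => (x l : ℂ))).re) ∧
  ∀ x : Fin (n + 1) → ℝ, (∀ l, |x l| ≤ 1 / 2) →
    (ev (scQ v A a) (fun l => (x l : ℂ))).re ≤ η

private theorem RRob_e0 {n d : ℕ} (α : Ten n d ℂ) (c : ℂ) :
    ev α (fun l : Fin (n + 1) => if l = 0 then c else 0) = α (fun _ => 0) * c ^ d := by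
  unfold ev
  rw [Finset.sum_eq_single (fun _ => 0)]
  · simp
  · intro s _ hs
    have : ∃ k, s k ≠ 0 := by
      by_contra h
      push Not at h
      exact hs (funext h)
    obtain ⟨k, hk⟩ := this
    rw [Finset.prod_eq_zero (Finset.mem_univ k) (if_neg hk), mul_zero]
  · intro h
    exact absurd (Finset.mem_univ _) h

theorem robCplx {n m : ℕ} (v : InfinitePlace K) (hv : ¬ v.IsReal) (A : ℕ) (hA : 1 ≤ A) (ρ : ℝ)
    (hρ : 0 < ρ) (hρ1 : ρ ≤ 1 / 4) (a : Ten n (2 * m) (𝓞 K)) (h : ¬ RobQ v 0 ρ (scQ v A a)) :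
    v (a (fun _ => 0) : K) ≤ 4 ^ (m + 1) * ρ * A := by
  have hA' : (0 : ℝ) < A := by exact_mod_cast hA
  set β : ℂ := scQ v A a (fun _ => 0) * (1 / 2 : ℂ) ^ (2 * m) with hβ
  have hβn : ‖β‖ = v (a (fun _ => 0) : K) / A * (1 / 4 : ℝ) ^ m := by
    rw [hβ, norm_mul, norm_pow]
    unfold scQ
    rw [norm_div, norm_em, Complex.norm_natCast, pow_mul]
    congr 2
    norm_num
  obtain ⟨ω, hω⟩ := IsAlgClosed.exists_pow_nat_eq β (n := 2) (by norm_num)
  have hlt : ‖β‖ < 4 * ρ ^ 2 := by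
    by_contra hcon
    rw [not_lt] at hcon
    refine h ⟨fun l => if l = 0 then (1 / 2 : ℂ) else 0, ω, fun l hr => absurd hr hv, fun hr => absurd hr hv, fun l => ?_, ?_, ?_, ?_⟩
    · dsimp only
      by_cases hl : l = 0
      · rw [if_pos hl]
        norm_num
      · rw [if_neg hl]
        norm_num
    · dsimp only
      rw [if_pos rfl]
      norm_num
      linarith
    · have h1 : (2 * ρ) ^ 2 ≤ ‖ω‖ ^ 2 := by
        rw [← norm_pow, hω]
        linarith
      exact abs_le_of_sq_le_sq' h1 (norm_nonneg _) |>.2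
    · rw [hω, hβ]
      exact RRob_e0 _ _
  rw [hβn] at hlt
  have h4 : (0 : ℝ) < 4 ^ m := by positivity
  have h5 : v (a (fun _ => 0) : K) / A < 4 * ρ ^ 2 * 4 ^ m := by
    have h6 : v (a (fun _ => 0) : K) / A * (1 / 4 : ℝ) ^ m * 4 ^ m < 4 * ρ ^ 2 * 4 ^ m := mul_lt_mul_of_pos_right hlt h4
    rwa [mul_assoc, ← mul_pow, one_div, inv_mul_cancel₀ (by norm_num), one_pow, mul_one] at h6
  rw [div_lt_iff₀ hA'] at h5
  refine h5.le.trans ?_
  have h7 : ρ ^ 2 ≤ ρ := by nlinarith
  calc 4 * ρ ^ 2 * 4 ^ m * A ≤ 4 * ρ * 4 ^ m * A := by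
        refine mul_le_mul_of_nonneg_right (mul_le_mul_of_nonneg_right ?_ h4.le) hA'.le
        linarith
    _ = 4 ^ (m + 1) * ρ * A := by ring

/-- The real tensor. -/
private noncomputable def RRob_al {n d : ℕ} (v : InfinitePlace K) (A : ℕ) (a : Ten n d (𝓞 K)) : Ten n d ℝ :=
  fun s => (em v (a s)).re / A

private theorem RRob_ev {n d : ℕ} {v : InfinitePlace K} (hv : v.IsReal) (A : ℕ) (a : Ten n d (𝓞 K))
    (x : Fin (n + 1) → ℝ) :
    ev (scQ v A a) (fun l => (x l : ℂ)) = ((ev (RRob_al v A a) x : ℝ) : ℂ) := by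
  have h := ev_map Complex.ofRealHom (RRob_al v A a) x
  have h2 : scQ v A a = fun s => Complex.ofRealHom (RRob_al v A a s) := by
    funext s
    unfold scQ RRob_al
    have h3 := em_mem_KK v (a s) hv
    rw [Complex.ofRealHom_eq_coe, Complex.ofReal_div, Complex.ofReal_natCast]
    congr 1
    exact Complex.ext rfl h3
  rw [h2]
  exact h

private theorem RRob_prod {ι : Type*} (s : Finset ι) (f g : ι → ℝ) (hf : ∀ i, |f i| ≤ 1) (hg : ∀ i, |g i| ≤ 1)
    (c : ℝ) (h : ∀ i, |f i - g i| ≤ c) : |∏ i ∈ s, f i - ∏ i ∈ s, g i| ≤ s.card * c := by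
  induction s using Finset.induction_on with
  | empty => simp
  | insert i s hi ih =>
    rw [Finset.prod_insert hi, Finset.prod_insert hi, Finset.card_insert_of_notMem hi]
    have h1 : f i * ∏ j ∈ s, f j - g i * ∏ j ∈ s, g j =
        f i * (∏ j ∈ s, f j - ∏ j ∈ s, g j) + (f i - g i) * ∏ j ∈ s, g j := by ring
    have h2 : |∏ j ∈ s, g j| ≤ 1 := by
      rw [Finset.abs_prod]
      exact Finset.prod_le_one (fun _ _ => abs_nonneg _) fun j _ => hg j
    have hc : 0 ≤ c := (abs_nonneg _).trans (h i)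
    rw [h1]
    refine (abs_add_le _ _).trans ?_
    rw [abs_mul, abs_mul]
    have h3 : |f i| * |∏ j ∈ s, f j - ∏ j ∈ s, g j| ≤ 1 * (s.card * c) :=
      mul_le_mul (hf i) ih (abs_nonneg _) zero_le_one
    have h4 : |f i - g i| * |∏ j ∈ s, g j| ≤ c * 1 := mul_le_mul (h i) h2 (abs_nonneg _) hc
    push_cast
    linarith

theorem robReal {n m : ℕ} (v : InfinitePlace K) (hv : v.IsReal) (A : ℕ) (hA : 1 ≤ A) (ρ : ℝ)
    (hρ : 0 < ρ) (hρ1 : ρ ≤ 1 / 4) (a : Ten n (2 * m) (𝓞 K)) (ha : a ∈ Box K n (2 * m) A)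
    (hs : RSolQ v a) (h : ¬ RobQ v 0 ρ (scQ v A a)) :
    HiQ v A ((4 + 8 * m * (n + 1) ^ (2 * m)) * ρ) a := by
  have hA' : (0 : ℝ) < A := by exact_mod_cast hA
  have hal : ∀ s, |RRob_al v A a s| ≤ 1 := by
    intro s
    unfold RRob_al
    rw [abs_div, abs_of_pos hA', div_le_one hA']
    exact (Complex.abs_re_le_norm _).trans ((norm_em v (a s)).le.trans (mem_Box.1 ha s v))
  refine ⟨?_, ?_⟩
  · obtain ⟨x, w, hx, hx0, hw, hxw⟩ := hs
    have hxr : ∀ l, x l = ((x l).re : ℂ) := fun l => Complex.ext rfl (by simpa using hx l hv)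
    have hwr : w = (w.re : ℂ) := Complex.ext rfl (by simpa using hw hv)
    obtain ⟨l0, -, hl0⟩ := Finset.exists_max_image Finset.univ (fun l => |(x l).re|) Finset.univ_nonempty
    set M : ℝ := |(x l0).re| with hM
    have hM0 : 0 < M := by
      rcases (abs_nonneg (x l0).re).lt_or_eq with h1 | h1
      · exact h1
      · exfalso
        refine hx0 (funext fun l => ?_)
        have h2 := hl0 l (Finset.mem_univ l)
        rw [hxr l]
        have h3 : (x l).re = 0 := by
          rw [← abs_eq_zero]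
          refine le_antisymm ?_ (abs_nonneg _)
          rw [h1]
          exact h2
        rw [h3]
        simp
    refine ⟨fun l => 1 / (2 * M) * (x l).re, fun l => ?_, ⟨l0, ?_⟩, ?_⟩
    · rw [abs_mul, abs_of_pos (by positivity), one_div_mul_eq_div, div_le_div_iff₀ (by positivity) (by norm_num)]
      have := hl0 l (Finset.mem_univ l)
      linarith
    · rw [abs_mul, abs_of_pos (by positivity), ← hM]
      field_simp
    · have e1 : (fun l => ((1 / (2 * M) * (x l).re : ℝ) : ℂ)) = fun l => ((1 / (2 * M) : ℝ) : ℂ) * x l := by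
        funext l
        conv_rhs => rw [hxr l]
        push_cast
        ring
      have e2 : ev (scQ v A a) x = (((w.re) ^ 2 / A : ℝ) : ℂ) := by
        have e3 : scQ v A a = fun s => ((1 / (A : ℝ) : ℝ) : ℂ) * tmap (em v) a s := by
          funext s
          unfold scQ tmap
          push_cast
          ring
        rw [e3, ev_smul, hxw]
        conv_lhs => rw [hwr]
        push_cast
        ring
      rw [e1, ev_scale, e2, ← Complex.ofReal_pow, ← Complex.ofReal_mul, Complex.ofReal_re]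
      positivity
  · intro x hx
    -- the modified point
    set x' : Fin (n + 1) → ℝ := fun l => if l = 0 ∧ |x l| < 2 * ρ then 2 * ρ else x l with hx'
    have h1 : ∀ l, |x' l| ≤ 1 / 2 := by
      intro l
      rw [hx']
      dsimp only
      split_ifs with hl
      · rw [abs_of_pos (by positivity)]
        linarith
      · exact hx l
    have h2 : ∀ l, |x l - x' l| ≤ 4 * ρ := by
      intro l
      rw [hx']
      dsimp only
      split_ifs with hl
      · have := hl.2
        rw [abs_lt] at this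
        rw [abs_le]
        constructor <;> linarith
      · rw [sub_self, abs_zero]
        positivity
    have h3 : 2 * ρ ≤ |x' 0| := by
      rw [hx']
      dsimp only
      split_ifs with hl
      · exact le_abs_self _
      · rw [not_and, not_lt] at hl
        exact hl rfl
    have h4 : ev (RRob_al v A a) x' < 4 * ρ ^ 2 := by
      by_contra hcon
      rw [not_lt] at hcon
      have h5 : 0 ≤ ev (RRob_al v A a) x' := le_trans (by positivity) hcon
      refine h ⟨fun l => (x' l : ℂ), (Real.sqrt (ev (RRob_al v A a) x') : ℂ), fun l _ => Complex.ofReal_im _,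
        fun _ => Complex.ofReal_im _, fun l => ?_, ?_, ?_, ?_⟩
      · rw [Complex.norm_real]
        exact h1 l
      · rw [Complex.norm_real]
        exact h3
      · rw [Complex.norm_real, Real.norm_eq_abs, abs_of_nonneg (Real.sqrt_nonneg _)]
        refine Real.le_sqrt_of_sq_le ?_
        linarith
      · rw [RRob_ev hv, ← Complex.ofReal_pow, Real.sq_sqrt h5]
    have h6 : |ev (RRob_al v A a) x - ev (RRob_al v A a) x'| ≤ (n + 1) ^ (2 * m) * ((2 * m : ℕ) * (4 * ρ)) := by
      have e1 : ev (RRob_al v A a) x - ev (RRob_al v A a) x' =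
          ∑ s : Fin (2 * m) → Fin (n + 1), RRob_al v A a s * (∏ k, x (s k) - ∏ k, x' (s k)) := by
        unfold ev
        rw [← Finset.sum_sub_distrib]
        exact Finset.sum_congr rfl fun s _ => by ring
      rw [e1]
      refine (Finset.abs_sum_le_sum_abs _ _).trans ?_
      have e2 : ∀ s ∈ (Finset.univ : Finset (Fin (2 * m) → Fin (n + 1))),
          |RRob_al v A a s * (∏ k, x (s k) - ∏ k, x' (s k))| ≤ (2 * m : ℕ) * (4 * ρ) := by
        intro s _
        rw [abs_mul]
        have e3 := RRob_prod Finset.univ (fun k => x (s k)) (fun k => x' (s k))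
          (fun k => (hx (s k)).trans (by norm_num)) (fun k => (h1 (s k)).trans (by norm_num)) (4 * ρ)
          (fun k => h2 (s k))
        rw [Finset.card_univ, Fintype.card_fin] at e3
        calc |RRob_al v A a s| * |∏ k, x (s k) - ∏ k, x' (s k)| ≤ 1 * ((2 * m : ℕ) * (4 * ρ)) :=
              mul_le_mul (hal s) e3 (abs_nonneg _) zero_le_one
          _ = _ := one_mul _
      refine (Finset.sum_le_sum e2).trans (le_of_eq ?_)
      rw [Finset.sum_const, Finset.card_univ, Fintype.card_fun, Fintype.card_fin, Fintype.card_fin, nsmul_eq_mul]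
      push_cast
      ring
    rw [RRob_ev hv, Complex.ofReal_re]
    have h7 := (abs_le.1 h6).2
    have h8 : ρ ^ 2 ≤ ρ := by nlinarith
    push_cast at h7
    nlinarith

end Pool.Agent.Lib.MP_1ad228_ntQ
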