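import Pool.Agent.Lib.MP_1ad228_ntQ.SqCnt
import Pool.Agent.Lib.MP_1ad228_ntQ.Compat
import Pool.Agent.Lib.MP_1ad228_ntN.GGf
import Pool.Agent.Lib.MP_1ad228_ntN.EEle

/-!
LEAF SlSum.  Sum of the slices over the squares, for a pair of non proportional points.
PROOF.  `nDle`: all minors have absolute values `≤ 2 B ^ 2` (`GG_le`), one of them is not 0: `absNorm_le_pn`, `pn_mono`,
`pn_const` (or `nD_le_pn` and `Del_le`).
`slSum`: `exLam` gives `lam, lam'`; with `c = lam ^ m`, `c' = lam' ^ m` we have `c * c' - 1 ∈ Dd` and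
`lam ^ (2 m) w ^ 2 = c ^ 2 w ^ 2`; by `slCompat` the slice vanishes unless `z ^ 2 - c ^ 2 w ^ 2 ∈ Dd x y`, it is at most
`C * n2` (`slice`), and `sqCnt` counts the pairs: `N(Dd) ≤ (2 B^2)^e ≤ (2 Z)^e`.
-/

namespace Pool.Agent.Lib.MP_1ad228_ntQ

open NumberField Classical
open Pool.Agent.Lib.MP_1ad228_ntN
open Pool.Agent.Lib.MP_219881_nt (mn)

set_option linter.unusedSectionVars false

variable {K : Type} [Field K] [NumberField K]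

theorem nDle {n B H q : ℕ} {o : Fin (n + 1)} (hB : 1 ≤ B) {x y : Vc n (𝓞 K)}
    (hx : x ∈ GG K B H q o) (hy : y ∈ GG K B H q o) (h : ¬ Prp x y) :
    nD x y ≤ (2 * (B : ℝ) ^ 2) ^ eK K := by
  refine (nD_le_pn (GG_ne hB hx) h).trans ?_
  rw [← pn_const]
  exact pn_mono (fun v => (Del_pos (GG_ne hB hx) h v).le) fun v => Del_le hx hy v

/-- `nD` against `Z`. -/
theorem SlSum_nDZ {n B H q Z : ℕ} {o : Fin (n + 1)} (hB : 1 ≤ B) (hBZ : B ^ 2 ≤ Z)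
    {x y : Vc n (𝓞 K)} (hx : x ∈ GG K B H q o) (hy : y ∈ GG K B H q o) (h : ¬ Prp x y) :
    nD x y ≤ (2 * (Z : ℝ)) ^ eK K := by
  refine (nDle hB hx hy h).trans (pow_le_pow_left₀ (by positivity) ?_ _)
  have h1 : ((B : ℝ) ^ 2) ≤ (Z : ℝ) := by exact_mod_cast hBZ
  linarith

/-- The powers of the two multipliers are inverse modulo the ideal. -/
theorem SlSum_unit {I : Ideal (𝓞 K)} {lam lam' : 𝓞 K} (h : lam * lam' - 1 ∈ I) (m : ℕ) :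
    lam ^ m * lam' ^ m - 1 ∈ I := by
  have h1 : lam * lam' - 1 ∣ (lam * lam') ^ m - 1 ^ m := sub_dvd_pow_sub_pow _ _ m
  rw [one_pow, mul_pow] at h1
  exact I.mem_of_dvd h1 h

variable (K) in
theorem slSum (n m q : ℕ) : ∃ C : ℝ, 1 ≤ C ∧ ∀ (B H A Z : ℕ) (o : Fin (n + 1)), 1 ≤ B → 1 ≤ A →
    B ^ 2 ≤ Z → ∀ x ∈ GG K B H q o, ∀ y ∈ GG K B H q o, ¬ Prp x y →
    ∑ w ∈ OBox K (Z : ℝ), ∑ z ∈ OBox K (Z : ℝ), sl (2 * m) A x y (w ^ 2) (z ^ 2) ≤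
      C * (n2 (2 * m) x y A : ℝ) * (((Z : ℝ) ^ eK K) ^ 2 * ((tau (Dd x y) : ℝ) / nD x y)) := by
  obtain ⟨C1, hC1, h1, -⟩ := slice (K := K) n (2 * m)
  obtain ⟨C2, hC2, h2⟩ := sqCnt K
  refine ⟨C1 * C2, one_le_mul_of_one_le_of_one_le hC1 hC2, ?_⟩
  intro B H A Z o hB hA hBZ x hx y hy hp
  obtain ⟨lam, lam', hl, hll⟩ := exLam (GG_uni hx) (GG_uni hy)
  have hZ : 1 ≤ Z := le_trans (Nat.one_le_pow _ _ hB) hBZ
  have hcard := h2 (Dd x y) Z (lam ^ m) (lam' ^ m) (Dd_ne_bot hp) hZ (SlSum_unit hll m)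
    (SlSum_nDZ hB hBZ hx hy hp)
  have hn2 : (0 : ℝ) ≤ C1 * (n2 (2 * m) x y A : ℝ) := by positivity
  have hsum : ∑ w ∈ OBox K (Z : ℝ), ∑ z ∈ OBox K (Z : ℝ), sl (2 * m) A x y (w ^ 2) (z ^ 2) =
      ∑ p ∈ (OBox K (Z : ℝ) ×ˢ OBox K (Z : ℝ)).filter
        (fun p => p.2 ^ 2 - (lam ^ m) ^ 2 * p.1 ^ 2 ∈ Dd x y),
        sl (2 * m) A x y (p.1 ^ 2) (p.2 ^ 2) := by
    rw [← Finset.sum_product' (OBox K (Z : ℝ)) (OBox K (Z : ℝ))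
      (fun w z => sl (2 * m) A x y (w ^ 2) (z ^ 2))]
    symm
    refine Finset.sum_subset (Finset.filter_subset _ _) ?_
    intro p hpm hnp
    by_contra h0
    refine hnp (Finset.mem_filter.2 ⟨hpm, ?_⟩)
    have h3 := slCompat hl h0
    rwa [mul_comm 2 m, pow_mul] at h3
  rw [hsum]
  calc _ ≤ ∑ _p ∈ (OBox K (Z : ℝ) ×ˢ OBox K (Z : ℝ)).filter
        (fun p => p.2 ^ 2 - (lam ^ m) ^ 2 * p.1 ^ 2 ∈ Dd x y),
        C1 * (n2 (2 * m) x y A : ℝ) := Finset.sum_le_sum fun p _ => h1 A hA x y _ _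
    _ = (((OBox K (Z : ℝ) ×ˢ OBox K (Z : ℝ)).filter
        (fun p => p.2 ^ 2 - (lam ^ m) ^ 2 * p.1 ^ 2 ∈ Dd x y)).card : ℝ) *
        (C1 * (n2 (2 * m) x y A : ℝ)) := by
        rw [Finset.sum_const, nsmul_eq_mul]
    _ ≤ (C2 * ((Z : ℝ) ^ eK K) ^ 2 * ((tau (Dd x y) : ℝ) / Ideal.absNorm (Dd x y))) *
        (C1 * (n2 (2 * m) x y A : ℝ)) := mul_le_mul_of_nonneg_right hcard hn2
    _ = _ := by
        unfold nD
        ring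

end Pool.Agent.Lib.MP_1ad228_ntQ
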