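import Pool.Agent.Lib.MP_1ad228_ntQ.Defs

/-!
LEAF SliceD.  Translation of a slice with arbitrary values.  Model: `Lib/MP_1ad228_ntN/Slice.lean` (there only for
the values `(0, 0)`).
PROOF.  `sl d A x y (s + ev a0 x) (t + ev a0 y)` is the sum of `psi A (b + a0)` over the `b ∈ Box K n d (3 * A)` with
values `(s, t)`: substitute `a = b + a0`, `ev_add`; terms with `b + a0` outside `Box K n d (2 * A)` vanish
(`psi_zero`), and `tn b ≤ 2 A + tn a0 ≤ 3 A` otherwise.  `sl d A x y s t` is the sum of `psi A b` over the same set.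
Each term differs by at most `tn a0 / (2 A)` (`psi_lip`), and there are at most `C * n2 d x y A` values `b`
(`cover2` with `M = 3`).
-/

namespace Pool.Agent.Lib.MP_1ad228_ntQ

open NumberField Classical
open Pool.Agent.Lib.MP_1ad228_ntN
open Pool.Agent.Lib.MP_219881_nt (mn)

set_option linter.unusedSectionVars false

variable {K : Type} [Field K] [NumberField K]

private theorem SliceD_shift {n : ℕ} (d A : ℕ) (hA : 1 ≤ A) (x y : Vc n (𝓞 K)) (s t : 𝓞 K)
    (a0 : Ten n d (𝓞 K)) (h0 : tn a0 ≤ A) :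
    sl d A x y (s + ev a0 x) (t + ev a0 y) =
      ∑ b ∈ (Box K n d (3 * A)).filter (fun b => ev b x = s ∧ ev b y = t), psi A (b + a0) := by
  have e1 : ∑ b ∈ (Box K n d (3 * A)).filter (fun b => ev b x = s ∧ ev b y = t), psi A (b + a0) =
      ∑ b ∈ ((Box K n d (3 * A)).filter (fun b => ev b x = s ∧ ev b y = t)).filter
        (fun b => b + a0 ∈ Box K n d (2 * A)), psi A (b + a0) := by
    symm
    refine Finset.sum_subset (Finset.filter_subset _ _) ?_
    intro b hb hnb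
    apply psi_zero hA
    intro h
    exact hnb (Finset.mem_filter.mpr ⟨hb, h⟩)
  rw [e1]
  unfold sl
  refine Finset.sum_bij' (fun a _ => a - a0) (fun b _ => b + a0) ?_ ?_ ?_ ?_ ?_
  · intro a ha
    rw [Finset.mem_filter] at ha
    obtain ⟨ha1, ha2, ha3⟩ := ha
    have htn : tn (a - a0) ≤ 3 * A := by
      rw [mem_Box_iff_tn] at ha1
      have := tn_add a (-a0)
      rw [tn_neg, ← sub_eq_add_neg] at this
      linarith
    refine Finset.mem_filter.mpr ⟨?_, ?_⟩
    · refine Finset.mem_filter.mpr ⟨mem_Box_iff_tn.mpr htn, ?_, ?_⟩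
      · rw [ev_sub, ha2, add_sub_cancel_right]
      · rw [ev_sub, ha3, add_sub_cancel_right]
    · rw [sub_add_cancel]; exact ha1
  · intro b hb
    rw [Finset.mem_filter] at hb
    obtain ⟨hb1, hb2⟩ := hb
    rw [Finset.mem_filter] at hb1
    refine Finset.mem_filter.mpr ⟨hb2, ?_, ?_⟩
    · rw [ev_add, hb1.2.1]
    · rw [ev_add, hb1.2.2]
  · intro a _
    exact sub_add_cancel a a0
  · intro b _
    exact add_sub_cancel_right b a0
  · intro a _
    rw [sub_add_cancel]

private theorem SliceD_ext {n : ℕ} (d A : ℕ) (hA : 1 ≤ A) (x y : Vc n (𝓞 K)) (s t : 𝓞 K) :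
    sl d A x y s t =
      ∑ b ∈ (Box K n d (3 * A)).filter (fun b => ev b x = s ∧ ev b y = t), psi A b := by
  unfold sl
  have hA0 : (0 : ℝ) ≤ A := Nat.cast_nonneg A
  refine Finset.sum_subset ?_ ?_
  · intro a ha
    rw [Finset.mem_filter] at ha
    refine Finset.mem_filter.mpr ⟨?_, ha.2⟩
    rw [mem_Box_iff_tn] at ha ⊢
    linarith [ha.1]
  · intro b hb hnb
    apply psi_zero hA
    intro h
    exact hnb (Finset.mem_filter.mpr ⟨h, (Finset.mem_filter.mp hb).2⟩)

variable (K) in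
theorem sliceD (n d : ℕ) : ∃ C : ℝ, 1 ≤ C ∧ ∀ A : ℕ, 1 ≤ A → ∀ (x y : Vc n (𝓞 K)) (s t : 𝓞 K)
    (a0 : Ten n d (𝓞 K)), tn a0 ≤ A →
    |sl d A x y (s + ev a0 x) (t + ev a0 y) - sl d A x y s t| ≤
      tn a0 / (2 * A) * (C * (n2 d x y A : ℝ)) := by
  obtain ⟨C3, hC3, h3⟩ := cover2 (K := K) n d 3 (by norm_num)
  refine ⟨C3, hC3, ?_⟩
  intro A hA x y s t a0 h0
  have hA' : (1 : ℝ) ≤ (A : ℝ) := by exact_mod_cast hA
  have htn := tn_nonneg a0
  rw [SliceD_shift d A hA x y s t a0 h0, SliceD_ext d A hA x y s t, ← Finset.sum_sub_distrib]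
  have h4 := h3 x y s t A hA'
  calc |∑ b ∈ (Box K n d (3 * A)).filter (fun b => ev b x = s ∧ ev b y = t),
        (psi A (b + a0) - psi A b)|
      ≤ ∑ b ∈ (Box K n d (3 * A)).filter (fun b => ev b x = s ∧ ev b y = t),
        |psi A (b + a0) - psi A b| := Finset.abs_sum_le_sum_abs _ _
    _ ≤ ∑ _b ∈ (Box K n d (3 * A)).filter (fun b => ev b x = s ∧ ev b y = t), tn a0 / (2 * A) :=
        Finset.sum_le_sum fun b _ => psi_lip hA b a0
    _ = tn a0 / (2 * A) *
        ((Box K n d (3 * A)).filter (fun b => ev b x = s ∧ ev b y = t)).card := by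
        rw [Finset.sum_const, nsmul_eq_mul, mul_comm]
    _ ≤ _ := mul_le_mul_of_nonneg_left h4 (by positivity)

end Pool.Agent.Lib.MP_1ad228_ntQ
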