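import Pool.Agent.Lib.MP_1ad228_ntQ.Defs

/-!
LEAF Tau.  Sums of the number of divisors over ideals of `𝓞 K`.
PROOF.  For `I ≠ ⊥` the set `{J // I ≤ J}` is in bijection with the pairs `(J, J')` with `J * J' = I`
(`Ideal.dvd_iff_le`), it is finite (`Ideal.finite_setOf_absNorm_le` or: `𝓞 K ⧸ I` is finite), and
`absNorm (J * J') = absNorm J * absNorm J'`.
`tauSum`: the sum is at most `(∑ 1 / N J) ^ 2` over the ideals with `N J ≤ X`; in each dyadic range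
`2 ^ i ≤ N J < 2 ^ (i + 1)` there are at most `CK K 0 * 2 ^ (i + 1)` ideals (`idCount`), so the sum over the
range is at most `2 * CK K 0`, and there are at most `Nat.log 2 X + 1` ranges.
`tauTail`: in a pair with `N J * N J' > w` one of the two norms is `> Nat.sqrt w`
(if both are `≤ s` then the product is `≤ s ^ 2 ≤ w`); so the sum is at most
`2 * (∑_{N J > s} 1 / N J ^ 2) * (∑ 1 / N J ^ 2) ≤ 2 * (CK / (s + 1)) * CK` (`idTail K n w S`, with `w = 0`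
for the full sum, every `N J ≥ 1 > 0`).
-/

namespace Pool.Agent.Lib.MP_1ad228_ntQ

open NumberField Classical
open Pool.Agent.Lib.MP_1ad228_ntN
open Pool.Agent.Lib.MP_219881_nt (mn)

set_option linter.unusedSectionVars false

variable {K : Type} [Field K] [NumberField K]

private theorem tau_norm_le {I J : Ideal (𝓞 K)} (hI : I ≠ ⊥) (h : I ≤ J) :
    Ideal.absNorm J ≤ Ideal.absNorm I := by
  have h1 : Ideal.absNorm J ∣ Ideal.absNorm I := Ideal.absNorm_dvd_absNorm_of_le h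
  refine Nat.le_of_dvd (Nat.pos_of_ne_zero ?_) h1
  exact fun h0 => hI (Ideal.absNorm_eq_zero_iff.1 h0)

private theorem tau_finite {I : Ideal (𝓞 K)} (hI : I ≠ ⊥) :
    {J : Ideal (𝓞 K) | I ≤ J}.Finite :=
  (Ideal.finite_setOfPred_absNorm_le (S := 𝓞 K) (Ideal.absNorm I)).subset
    fun _ hJ => tau_norm_le hI hJ

theorem tau_pos {I : Ideal (𝓞 K)} (hI : I ≠ ⊥) : 1 ≤ tau I := by
  have : Finite {J : Ideal (𝓞 K) // I ≤ J} := (tau_finite hI).to_subtype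
  have : Nonempty {J : Ideal (𝓞 K) // I ≤ J} := ⟨⟨I, le_rfl⟩⟩
  exact Nat.card_pos

theorem tau_mono {I J : Ideal (𝓞 K)} (hI : I ≠ ⊥) (h : I ≤ J) : tau J ≤ tau I := by
  have : Finite {J : Ideal (𝓞 K) // I ≤ J} := (tau_finite hI).to_subtype
  refine Nat.card_le_card_of_injective
    (fun L : {L : Ideal (𝓞 K) // J ≤ L} => (⟨L.1, h.trans L.2⟩ : {L : Ideal (𝓞 K) // I ≤ L})) ?_
  intro L L' hL
  exact Subtype.ext (congrArg (fun z => z.1) hL)

/-- The finite set of all divisors of the ideals of `S`. -/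
private noncomputable def tauD (S : Finset (Ideal (𝓞 K))) (hS : ∀ I ∈ S, I ≠ ⊥) :
    Finset (Ideal (𝓞 K)) :=
  ((S.finite_toSet).biUnion fun _ hI => tau_finite (hS _ hI)).toFinset

private theorem tauD_mem {S : Finset (Ideal (𝓞 K))} {hS : ∀ I ∈ S, I ≠ ⊥} {J : Ideal (𝓞 K)} :
    J ∈ tauD S hS ↔ ∃ I ∈ S, I ≤ J := by
  unfold tauD
  rw [Set.Finite.mem_toFinset]
  simp only [Set.mem_iUnion, Finset.mem_coe, Set.mem_ofPred_eq, exists_prop]

private theorem tauD_ne {S : Finset (Ideal (𝓞 K))} {hS : ∀ I ∈ S, I ≠ ⊥} {J : Ideal (𝓞 K)}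
    (h : J ∈ tauD S hS) : J ≠ ⊥ := by
  obtain ⟨I, hI, hIJ⟩ := tauD_mem.1 h
  rintro rfl
  exact hS I hI (le_bot_iff.1 hIJ)

private theorem tau_key (S : Finset (Ideal (𝓞 K))) (hS : ∀ I ∈ S, I ≠ ⊥)
    (g : Ideal (𝓞 K) → ℝ) (hg : ∀ I, 0 ≤ g I) (hm : ∀ I J, g (I * J) = g I * g J) :
    ∑ I ∈ S, (tau I : ℝ) * g I ≤
      ∑ p ∈ (tauD S hS ×ˢ tauD S hS).filter (fun p => p.1 * p.2 ∈ S), g p.1 * g p.2 := by
  set T := (tauD S hS ×ˢ tauD S hS).filter (fun p => p.1 * p.2 ∈ S) with hT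
  have h1 : ∑ p ∈ T, g p.1 * g p.2 =
      ∑ I ∈ S, ∑ p ∈ T.filter (fun p => p.1 * p.2 = I), g p.1 * g p.2 :=
    (Finset.sum_fiberwise_of_maps_to (fun p hp => (Finset.mem_filter.1 hp).2) _).symm
  rw [h1]
  refine Finset.sum_le_sum fun I hI => ?_
  have h2 : ∑ p ∈ T.filter (fun p => p.1 * p.2 = I), g p.1 * g p.2 =
      ((T.filter (fun p => p.1 * p.2 = I)).card : ℝ) * g I := by
    rw [Finset.sum_congr rfl (g := fun _ => g I), Finset.sum_const, nsmul_eq_mul]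
    intro p hp
    rw [← hm, (Finset.mem_filter.1 hp).2]
  rw [h2]
  refine mul_le_mul_of_nonneg_right ?_ (hg I)
  have hex : ∀ J : {J : Ideal (𝓞 K) // I ≤ J}, ∃ J' : Ideal (𝓞 K), I = J.1 * J' := fun J =>
    Ideal.dvd_iff_le.2 J.2
  choose f hf using hex
  have hmem : ∀ J : {J : Ideal (𝓞 K) // I ≤ J},
      (J.1, f J) ∈ T.filter (fun p => p.1 * p.2 = I) := by
    intro J
    refine Finset.mem_filter.2 ⟨Finset.mem_filter.2 ⟨Finset.mem_product.2 ⟨?_, ?_⟩, ?_⟩, ?_⟩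
    · exact tauD_mem.2 ⟨I, hI, J.2⟩
    · exact tauD_mem.2 ⟨I, hI, (hf J).le.trans Ideal.mul_le_right⟩
    · change J.1 * f J ∈ S
      rw [← hf J]
      exact hI
    · exact (hf J).symm
  have h3 : tau I ≤ (T.filter (fun p => p.1 * p.2 = I)).card := by
    have h4 : Nat.card {J : Ideal (𝓞 K) // I ≤ J} ≤
        Nat.card {p : Ideal (𝓞 K) × Ideal (𝓞 K) // p ∈ T.filter (fun p => p.1 * p.2 = I)} := by
      refine Nat.card_le_card_of_injective (fun J => ⟨(J.1, f J), hmem J⟩) ?_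
      intro J J' h
      exact Subtype.ext (congrArg (fun z => z.1.1) h)
    have h5 : Nat.card {p : Ideal (𝓞 K) × Ideal (𝓞 K) // p ∈ T.filter (fun p => p.1 * p.2 = I)} =
        (T.filter (fun p => p.1 * p.2 = I)).card := by
      rw [Nat.card_eq_fintype_card, Fintype.card_coe]
    exact h4.trans h5.le
  exact_mod_cast h3

private theorem tau_norm_pos {I : Ideal (𝓞 K)} (hI : I ≠ ⊥) : 1 ≤ Ideal.absNorm I :=
  Nat.one_le_iff_ne_zero.2 fun h => hI (Ideal.absNorm_eq_zero_iff.1 h)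

/-- Sum of the reciprocals of the norms. -/
private theorem tau_recip (X : ℕ) (D : Finset (Ideal (𝓞 K)))
    (hD : ∀ I ∈ D, I ≠ ⊥ ∧ (Ideal.absNorm I : ℝ) ≤ X) :
    ∑ I ∈ D, 1 / (Ideal.absNorm I : ℝ) ≤ 2 * CK K 0 * ((Nat.log 2 X : ℝ) + 1) := by
  let j : Ideal (𝓞 K) → ℕ := fun I => Nat.log 2 (Ideal.absNorm I)
  have hJ : ∀ I ∈ D, j I ∈ Finset.range (Nat.log 2 X + 1) := by
    intro I hI
    refine Finset.mem_range.2 (Nat.lt_succ_of_le (Nat.log_mono_right ?_))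
    exact_mod_cast (hD I hI).2
  rw [← Finset.sum_fiberwise_of_maps_to hJ]
  have hone : ∀ i ∈ Finset.range (Nat.log 2 X + 1),
      ∑ I ∈ D.filter (fun I => j I = i), 1 / (Ideal.absNorm I : ℝ) ≤ 2 * CK K 0 := by
    intro i _
    have h2i : (0 : ℝ) < 2 ^ i := by positivity
    have h1 : ∀ I ∈ D.filter (fun I => j I = i), 1 / (Ideal.absNorm I : ℝ) ≤ 1 / 2 ^ i := by
      intro I hI
      obtain ⟨hI1, hI2⟩ := Finset.mem_filter.1 hI
      have h3 : 2 ^ j I ≤ Ideal.absNorm I :=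
        Nat.pow_log_le_self 2 (Nat.one_le_iff_ne_zero.1 (tau_norm_pos (hD I hI1).1))
      rw [hI2] at h3
      have h4 : (2 : ℝ) ^ i ≤ Ideal.absNorm I := by exact_mod_cast h3
      exact one_div_le_one_div_of_le h2i h4
    have h5 : ((D.filter (fun I => j I = i)).card : ℝ) ≤ CK K 0 * (2 * 2 ^ i) := by
      refine idCount 0 ?_ _ fun I hI => ?_
      · have : (1 : ℝ) ≤ 2 ^ i := one_le_pow₀ (by norm_num)
        linarith
      · obtain ⟨hI1, hI2⟩ := Finset.mem_filter.1 hI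
        have h3 : Ideal.absNorm I < 2 ^ (j I + 1) := Nat.lt_pow_succ_log_self (by norm_num) _
        rw [hI2] at h3
        have h4 : (Ideal.absNorm I : ℝ) < 2 ^ (i + 1) := by exact_mod_cast h3
        rw [pow_succ] at h4
        linarith
    calc ∑ I ∈ D.filter (fun I => j I = i), 1 / (Ideal.absNorm I : ℝ)
        ≤ ∑ _I ∈ D.filter (fun I => j I = i), (1 / 2 ^ i : ℝ) := Finset.sum_le_sum h1
      _ = ((D.filter (fun I => j I = i)).card : ℝ) * (1 / 2 ^ i) := by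
          rw [Finset.sum_const, nsmul_eq_mul]
      _ ≤ (CK K 0 * (2 * 2 ^ i)) * (1 / 2 ^ i) :=
          mul_le_mul_of_nonneg_right h5 (by positivity)
      _ = 2 * CK K 0 := by field_simp
  calc ∑ i ∈ Finset.range (Nat.log 2 X + 1), ∑ I ∈ D.filter (fun I => j I = i),
        1 / (Ideal.absNorm I : ℝ)
      ≤ ∑ _i ∈ Finset.range (Nat.log 2 X + 1), 2 * CK K 0 := Finset.sum_le_sum hone
    _ = 2 * CK K 0 * ((Nat.log 2 X : ℝ) + 1) := by
        rw [Finset.sum_const, nsmul_eq_mul, Finset.card_range]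
        push_cast
        ring

variable (K) in
theorem tauSum : ∃ C : ℝ, 1 ≤ C ∧ ∀ X : ℕ, 1 ≤ X → ∀ S : Finset (Ideal (𝓞 K)),
    (∀ I ∈ S, I ≠ ⊥ ∧ (Ideal.absNorm I : ℝ) ≤ X) →
    ∑ I ∈ S, (tau I : ℝ) / Ideal.absNorm I ≤ C * ((Nat.log 2 X : ℝ) + 2) ^ 2 := by
  have hC := CK_one_le K 0
  refine ⟨(2 * CK K 0) ^ 2, by nlinarith, fun X _ S hS => ?_⟩
  have hS0 : ∀ I ∈ S, I ≠ ⊥ := fun I hI => (hS I hI).1
  have hkey := tau_key S hS0 (fun I => 1 / (Ideal.absNorm I : ℝ)) (fun I => by positivity)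
    (fun I J => by
      simp only [map_mul, Nat.cast_mul]
      rw [one_div_mul_one_div])
  have h1 : ∑ I ∈ S, (tau I : ℝ) / Ideal.absNorm I =
      ∑ I ∈ S, (tau I : ℝ) * (1 / (Ideal.absNorm I : ℝ)) :=
    Finset.sum_congr rfl fun I _ => by rw [mul_one_div]
  rw [h1]
  have hD : ∀ I ∈ tauD S hS0, I ≠ ⊥ ∧ (Ideal.absNorm I : ℝ) ≤ X := by
    intro J hJ
    refine ⟨tauD_ne hJ, ?_⟩
    obtain ⟨I, hI, hIJ⟩ := tauD_mem.1 hJ
    have h3 : (Ideal.absNorm J : ℝ) ≤ Ideal.absNorm I := by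
      exact_mod_cast tau_norm_le (hS0 I hI) hIJ
    exact h3.trans (hS I hI).2
  have hrec := tau_recip X (tauD S hS0) hD
  have h0 : 0 ≤ ∑ I ∈ tauD S hS0, 1 / (Ideal.absNorm I : ℝ) :=
    Finset.sum_nonneg fun I _ => by positivity
  have hlog : (0 : ℝ) ≤ Nat.log 2 X := Nat.cast_nonneg _
  calc ∑ I ∈ S, (tau I : ℝ) * (1 / (Ideal.absNorm I : ℝ))
      ≤ ∑ p ∈ (tauD S hS0 ×ˢ tauD S hS0).filter (fun p => p.1 * p.2 ∈ S),
          1 / (Ideal.absNorm p.1 : ℝ) * (1 / (Ideal.absNorm p.2 : ℝ)) := hkey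
    _ ≤ ∑ p ∈ tauD S hS0 ×ˢ tauD S hS0,
          1 / (Ideal.absNorm p.1 : ℝ) * (1 / (Ideal.absNorm p.2 : ℝ)) :=
        Finset.sum_le_sum_of_subset_of_nonneg (Finset.filter_subset _ _)
          fun p _ _ => by positivity
    _ = (∑ I ∈ tauD S hS0, 1 / (Ideal.absNorm I : ℝ)) ^ 2 := by
        rw [sq, Finset.sum_mul_sum, Finset.sum_product]
    _ ≤ (2 * CK K 0 * ((Nat.log 2 X : ℝ) + 1)) ^ 2 := pow_le_pow_left₀ h0 hrec 2
    _ ≤ (2 * CK K 0 * ((Nat.log 2 X : ℝ) + 2)) ^ 2 := by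
        refine pow_le_pow_left₀ (by positivity) ?_ 2
        exact mul_le_mul_of_nonneg_left (by linarith) (by positivity)
    _ = (2 * CK K 0) ^ 2 * ((Nat.log 2 X : ℝ) + 2) ^ 2 := by ring

variable (K) in
theorem tauTail : ∃ C : ℝ, 1 ≤ C ∧ ∀ (w : ℕ) (S : Finset (Ideal (𝓞 K))),
    (∀ I ∈ S, I ≠ ⊥ ∧ (w : ℝ) < Ideal.absNorm I) →
    ∑ I ∈ S, (tau I : ℝ) / (Ideal.absNorm I : ℝ) ^ 2 ≤ C / ((Nat.sqrt w : ℝ) + 1) := by
  have hC := CK_one_le K 0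
  refine ⟨2 * (CK K 0) ^ 2, by nlinarith, fun w S hS => ?_⟩
  have hS0 : ∀ I ∈ S, I ≠ ⊥ := fun I hI => (hS I hI).1
  have hkey := tau_key S hS0 (fun I => 1 / (Ideal.absNorm I : ℝ) ^ 2) (fun I => by positivity)
    (fun I J => by
      simp only [map_mul, Nat.cast_mul]
      rw [one_div_mul_one_div, mul_pow])
  have h1 : ∑ I ∈ S, (tau I : ℝ) / (Ideal.absNorm I : ℝ) ^ 2 =
      ∑ I ∈ S, (tau I : ℝ) * (1 / (Ideal.absNorm I : ℝ) ^ 2) :=
    Finset.sum_congr rfl fun I _ => by rw [mul_one_div]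
  rw [h1]
  set s := Nat.sqrt w with hs
  set D := tauD S hS0 with hDdef
  set E := D.filter (fun I => (s : ℝ) < Ideal.absNorm I) with hE
  have hfull : ∑ I ∈ D, 1 / (Ideal.absNorm I : ℝ) ^ 2 ≤ CK K 0 := by
    have h2 := idTail 0 0 D (fun I hI => by
      have h3 := tau_norm_pos (tauD_ne hI)
      push_cast
      exact_mod_cast h3)
    simpa using h2
  have htail : ∑ I ∈ E, 1 / (Ideal.absNorm I : ℝ) ^ 2 ≤ CK K 0 / ((s : ℝ) + 1) :=
    idTail 0 s E fun I hI => (Finset.mem_filter.1 hI).2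
  have hfull0 : 0 ≤ ∑ I ∈ D, 1 / (Ideal.absNorm I : ℝ) ^ 2 :=
    Finset.sum_nonneg fun I _ => by positivity
  have htail0 : 0 ≤ ∑ I ∈ E, 1 / (Ideal.absNorm I : ℝ) ^ 2 :=
    Finset.sum_nonneg fun I _ => by positivity
  have hsub : (D ×ˢ D).filter (fun p => p.1 * p.2 ∈ S) ⊆ E ×ˢ D ∪ D ×ˢ E := by
    intro p hp
    obtain ⟨hp1, hp2⟩ := Finset.mem_filter.1 hp
    obtain ⟨hp3, hp4⟩ := Finset.mem_product.1 hp1
    have hw := (hS _ hp2).2
    rw [map_mul] at hw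
    have hw' : w < Ideal.absNorm p.1 * Ideal.absNorm p.2 := by exact_mod_cast hw
    by_cases h5 : s < Ideal.absNorm p.1
    · exact Finset.mem_union_left _ (Finset.mem_product.2
        ⟨Finset.mem_filter.2 ⟨hp3, by exact_mod_cast h5⟩, hp4⟩)
    · by_cases h6 : s < Ideal.absNorm p.2
      · exact Finset.mem_union_right _ (Finset.mem_product.2
          ⟨hp3, Finset.mem_filter.2 ⟨hp4, by exact_mod_cast h6⟩⟩)
      · exfalso
        have h7 : Ideal.absNorm p.1 * Ideal.absNorm p.2 ≤ s * s :=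
          Nat.mul_le_mul (not_lt.1 h5) (not_lt.1 h6)
        have h8 : s * s ≤ w := Nat.sqrt_le w
        exact absurd hw' (not_lt.2 (h7.trans h8))
  calc ∑ I ∈ S, (tau I : ℝ) * (1 / (Ideal.absNorm I : ℝ) ^ 2)
      ≤ ∑ p ∈ (D ×ˢ D).filter (fun p => p.1 * p.2 ∈ S),
          1 / (Ideal.absNorm p.1 : ℝ) ^ 2 * (1 / (Ideal.absNorm p.2 : ℝ) ^ 2) := hkey
    _ ≤ ∑ p ∈ E ×ˢ D ∪ D ×ˢ E,
          1 / (Ideal.absNorm p.1 : ℝ) ^ 2 * (1 / (Ideal.absNorm p.2 : ℝ) ^ 2) :=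
        Finset.sum_le_sum_of_subset_of_nonneg hsub fun p _ _ => by positivity
    _ ≤ ∑ p ∈ E ×ˢ D, 1 / (Ideal.absNorm p.1 : ℝ) ^ 2 * (1 / (Ideal.absNorm p.2 : ℝ) ^ 2) +
        ∑ p ∈ D ×ˢ E, 1 / (Ideal.absNorm p.1 : ℝ) ^ 2 * (1 / (Ideal.absNorm p.2 : ℝ) ^ 2) := by
        rw [← Finset.sum_union_inter]
        have : 0 ≤ ∑ p ∈ E ×ˢ D ∩ D ×ˢ E,
            1 / (Ideal.absNorm p.1 : ℝ) ^ 2 * (1 / (Ideal.absNorm p.2 : ℝ) ^ 2) :=
          Finset.sum_nonneg fun p _ => by positivity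
        linarith
    _ = 2 * ((∑ I ∈ E, 1 / (Ideal.absNorm I : ℝ) ^ 2) *
          ∑ I ∈ D, 1 / (Ideal.absNorm I : ℝ) ^ 2) := by
        have h5 : ∑ p ∈ E ×ˢ D,
            1 / (Ideal.absNorm p.1 : ℝ) ^ 2 * (1 / (Ideal.absNorm p.2 : ℝ) ^ 2) =
            (∑ I ∈ E, 1 / (Ideal.absNorm I : ℝ) ^ 2) *
              ∑ I ∈ D, 1 / (Ideal.absNorm I : ℝ) ^ 2 := by
          rw [Finset.sum_mul_sum, Finset.sum_product]
        have h6 : ∑ p ∈ D ×ˢ E,
            1 / (Ideal.absNorm p.1 : ℝ) ^ 2 * (1 / (Ideal.absNorm p.2 : ℝ) ^ 2) =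
            (∑ I ∈ D, 1 / (Ideal.absNorm I : ℝ) ^ 2) *
              ∑ I ∈ E, 1 / (Ideal.absNorm I : ℝ) ^ 2 := by
          rw [Finset.sum_mul_sum, Finset.sum_product]
        rw [h5, h6]
        ring
    _ ≤ 2 * ((CK K 0 / ((s : ℝ) + 1)) * CK K 0) := by
        refine mul_le_mul_of_nonneg_left ?_ (by norm_num)
        exact mul_le_mul htail hfull hfull0 (htail0.trans htail)
    _ = 2 * (CK K 0) ^ 2 / ((s : ℝ) + 1) := by ring

end Pool.Agent.Lib.MP_1ad228_ntQ
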